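import Pool.Agent.Lib.MP_250511_an.Spec

set_option autoImplicit false

namespace Pool.Agent.Lib.MP250511

open Complex

theorem specALG : SpecALG := by
  intro p A L h
  have h1 : ∀ ξ τ : ℝ, (ξ * p.re + τ * A.re) ^ 2 ≤ τ ^ 2 + 2 * ξ ^ 2 * L + 2 * ξ * τ * p.re := by
    intro ξ τ
    refine le_trans ?_ (h ξ τ)
    have h2 : ((ξ : ℂ) * p + (τ : ℂ) * A).re = ξ * p.re + τ * A.re := by
      simp
    rw [← h2]
    have := Complex.abs_re_le_norm ((ξ : ℂ) * p + (τ : ℂ) * A)
    exact sq_le_sq' (by linarith [neg_abs_le ((ξ : ℂ) * p + (τ : ℂ) * A).re])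
      (by linarith [le_abs_self ((ξ : ℂ) * p + (τ : ℂ) * A).re])
  have ha : -1 ≤ A.re := by
    have := h1 0 1
    nlinarith [this]
  rcases eq_or_lt_of_le ha with h0 | h0
  · have h3 : ∀ τ : ℝ, p.re ^ 2 ≤ 2 * L + 4 * τ * p.re := by
      intro τ
      have := h1 1 τ
      rw [← h0] at this
      nlinarith [this]
    have hx : p.re = 0 := by
      by_contra hne
      have h4 := h3 ((p.re ^ 2 - 2 * L - 1) / (4 * p.re))
      have h5 : 4 * ((p.re ^ 2 - 2 * L - 1) / (4 * p.re)) * p.re = p.re ^ 2 - 2 * L - 1 := by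
        field_simp
      rw [h5] at h4
      linarith
    rw [hx, ← h0]
    simp
  · have h4 := h1 (1 + A.re) (-p.re)
    have h5 : 0 < 1 + A.re := by linarith
    have h6 : 0 ≤ (1 + A.re) * ((1 + A.re) * L - p.re ^ 2) := by nlinarith [h4]
    have h7 := nonneg_of_mul_nonneg_right h6 h5
    linarith

end Pool.Agent.Lib.MP250511
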