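import Pool.Agent.Lib.MP_250511_an.Spec

/-!
Problem MP_250511_an: module ARE (the area inequalities).
-/

set_option autoImplicit false

namespace Pool.Agent.Lib.MP250511

open Complex Metric Set MeasureTheory Filter Topology
open scoped Real ENNReal Interval

noncomputable section

namespace AREM

theorem measurable_Wt (d : ℝ) (s : ℂ) : Measurable (Wt d s) := by
  unfold Wt
  fun_prop

theorem tendsto_scale {c : ℝ} (hc : 0 < c) :
    Tendsto (fun e : ℝ => c * e / 2) (𝓝[>] 0) (𝓝[>] 0) := by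
  refine tendsto_nhdsWithin_iff.2 ⟨?_, ?_⟩
  · have h : Tendsto (fun e : ℝ => c * e / 2) (𝓝 0) (𝓝 (c * 0 / 2)) := by
      refine Continuous.tendsto ?_ 0
      fun_prop
    rw [mul_zero, zero_div] at h
    exact h.mono_left nhdsWithin_le_nhds
  · filter_upwards [self_mem_nhdsWithin] with e he
    exact div_pos (mul_pos hc he) two_pos

/-- the right-hand side tends to infinity -/
theorem eventually_big (ξ τ c M : ℝ) (hc : 0 < c) (h : ξ ≠ 0 ∨ τ ≠ 0) :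
    ∀ᶠ e in 𝓝[>] (0 : ℝ), M ≤ τ ^ 2 / (2 * e ^ 2) + 2 * ξ ^ 2 * Real.log (1 / (c * e / 2)) := by
  have h1 : Tendsto (fun e : ℝ => e⁻¹) (𝓝[>] 0) atTop := tendsto_inv_nhdsGT_zero
  have h2 : Tendsto (fun e : ℝ => Real.log (1 / (c * e / 2))) (𝓝[>] 0) atTop := by
    have h3 : Tendsto (fun e : ℝ => (c * e / 2)⁻¹) (𝓝[>] 0) atTop := h1.comp (tendsto_scale hc)
    have h4 := Real.tendsto_log_atTop.comp h3
    refine h4.congr fun e => ?_
    rw [Function.comp_apply, one_div]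
  have h5 : ∀ᶠ e in 𝓝[>] (0 : ℝ), 0 ≤ Real.log (1 / (c * e / 2)) := h2.eventually_ge_atTop 0
  rcases h with h | h
  · have h6 : Tendsto (fun e : ℝ => 2 * ξ ^ 2 * Real.log (1 / (c * e / 2))) (𝓝[>] 0) atTop :=
      h2.const_mul_atTop (by positivity)
    filter_upwards [h6.eventually_ge_atTop M] with e he
    have : 0 ≤ τ ^ 2 / (2 * e ^ 2) := by positivity
    linarith
  · have h6 : Tendsto (fun e : ℝ => (τ ^ 2 / 2) * (e⁻¹) ^ 2) (𝓝[>] 0) atTop :=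
      ((tendsto_pow_atTop two_ne_zero).comp h1).const_mul_atTop (by positivity)
    filter_upwards [h6.eventually_ge_atTop M, h5, self_mem_nhdsWithin] with e he h5 h0
    have h7 : (τ ^ 2 / 2) * (e⁻¹) ^ 2 = τ ^ 2 / (2 * e ^ 2) := by
      have : (e : ℝ) ≠ 0 := ne_of_gt h0
      field_simp
    have h8 : 0 ≤ 2 * ξ ^ 2 * Real.log (1 / (c * e / 2)) := by positivity
    linarith

theorem main (hSTA : SpecSTA) (hLOW : SpecLOW) (hUPP : SpecUPP) (Y : ℂ → ℂ) (p q b : ℂ)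
    (hL : Lift Y p q b) (hq : q ≠ 0) (ξ τ : ℝ) (h : ℂ) (k : ℂ → ℂ)
    (hk : AnalyticOnNhd ℂ k (ball 0 1))
    (hz : ∀ z ∈ ball (0 : ℂ) 1, z ≠ 0 →
      deriv Y z * (ξ / Y z - (τ * q / 2) / (Y z) ^ 2 - (τ * q / 2)) =
        -τ / z ^ 2 + ξ / z + (ξ * p + τ * (b - q ^ 2 / 2)) + h * z + z ^ 2 * k z)
    (hne : ξ ≠ 0 ∨ τ ≠ 0) :
    ‖ξ * p + τ * (b - q ^ 2 / 2)‖ ^ 2 + ‖h‖ ^ 2 / 2 ≤
      τ ^ 2 + 2 * ξ ^ 2 * Real.log (2 / ‖q‖) + 2 * ξ * τ * p.re := by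
  have hq0 : 0 < ‖q‖ := norm_pos_iff.2 hq
  set H : ℂ := ξ * p + τ * (b - q ^ 2 / 2) with hH
  have step : ∀ r : ℝ, 0 < r → r < 1 → ∀ η : ℝ, 0 < η →
      π * (-(τ ^ 2 / r ^ 2) + 2 * ξ ^ 2 * Real.log r + ‖H‖ ^ 2 * r ^ 2 + ‖h‖ ^ 2 * r ^ 4 / 2) ≤
        π * (2 * ξ ^ 2 * Real.log (2 / ‖q‖) + 2 * ξ * τ * p.re) + 2 * η := by
    intro r hr hr1 η hη
    have e1 := hLOW Y p q b hL hq ξ τ h k hk hz r hr hr1 η hη
    have e2 := (tendsto_scale hq0).eventually (hUPP (τ * q / 2) (2 * p / q) ξ η hη)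
    have e3 := eventually_big ξ τ ‖q‖ (ξ ^ 2 - 2 * ξ * τ * p.re) hq0 hne
    obtain ⟨e, ⟨⟨he1, he2⟩, he3⟩, he0⟩ := (((e1.and e2).and e3).and self_mem_nhdsWithin).exists
    have he0' : (0 : ℝ) < e := he0
    have h1 := hSTA Y hL.an hL.inj hL.zero hL.ne (τ * q / 2) ξ
      (Wt (‖q‖ * e / 2) (2 * p / q)) (measurable_Wt _ _)
    have h2 := he1.trans (h1.trans he2)
    have hκ : ‖(τ * q / 2 : ℂ)‖ ^ 2 / (2 * (‖q‖ * e / 2) ^ 2) = τ ^ 2 / (2 * e ^ 2) := by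
      rw [norm_div, norm_mul, Complex.norm_real, Real.norm_eq_abs, Complex.norm_ofNat, div_pow,
        mul_pow, sq_abs]
      field_simp
    have hs : ((τ * q / 2 : ℂ) * (2 * p / q)).re = τ * p.re := by
      have : (τ * q / 2 : ℂ) * (2 * p / q) = τ * p := by
        field_simp
      rw [this, Complex.re_ofReal_mul]
    rw [hκ, hs] at h2
    have hpi := Real.pi_pos
    have hB : 0 ≤ π * (τ ^ 2 / (2 * e ^ 2) + 2 * ξ ^ 2 * Real.log (1 / (‖q‖ * e / 2)) - ξ ^ 2 +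
        2 * ξ * (τ * p.re)) + η := by
      have : 0 ≤ τ ^ 2 / (2 * e ^ 2) + 2 * ξ ^ 2 * Real.log (1 / (‖q‖ * e / 2)) - ξ ^ 2 +
        2 * ξ * (τ * p.re) := by linarith
      positivity
    have h3 := (ENNReal.ofReal_le_ofReal_iff hB).1 h2
    have l1 : Real.log (r / e) = Real.log r - Real.log e := Real.log_div hr.ne' he0'.ne'
    have l2 : Real.log (1 / (‖q‖ * e / 2)) = Real.log (2 / ‖q‖) - Real.log e := by
      have : 1 / (‖q‖ * e / 2) = (2 / ‖q‖) / e := by field_simp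
      rw [this, Real.log_div (by positivity) he0'.ne']
    rw [l1, l2] at h3
    linarith
  have step2 : ∀ r : ℝ, 0 < r → r < 1 →
      -(τ ^ 2 / r ^ 2) + 2 * ξ ^ 2 * Real.log r + ‖H‖ ^ 2 * r ^ 2 + ‖h‖ ^ 2 * r ^ 4 / 2 ≤
        2 * ξ ^ 2 * Real.log (2 / ‖q‖) + 2 * ξ * τ * p.re := by
    intro r hr hr1
    have h1 : π * (-(τ ^ 2 / r ^ 2) + 2 * ξ ^ 2 * Real.log r + ‖H‖ ^ 2 * r ^ 2 +
        ‖h‖ ^ 2 * r ^ 4 / 2) ≤ π * (2 * ξ ^ 2 * Real.log (2 / ‖q‖) + 2 * ξ * τ * p.re) := by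
      refine le_of_forall_pos_le_add fun η hη => ?_
      have := step r hr hr1 (η / 2) (half_pos hη)
      linarith
    exact le_of_mul_le_mul_left h1 Real.pi_pos
  have hlim : Tendsto (fun r : ℝ => -(τ ^ 2 / r ^ 2) + 2 * ξ ^ 2 * Real.log r +
      ‖H‖ ^ 2 * r ^ 2 + ‖h‖ ^ 2 * r ^ 4 / 2) (𝓝[<] 1)
      (𝓝 (-(τ ^ 2 / 1 ^ 2) + 2 * ξ ^ 2 * Real.log 1 + ‖H‖ ^ 2 * 1 ^ 2 + ‖h‖ ^ 2 * 1 ^ 4 / 2)) := by
    refine Tendsto.mono_left ?_ nhdsWithin_le_nhds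
    refine Tendsto.add (Tendsto.add (Tendsto.add (Tendsto.neg ?_) ?_) ?_) ?_
    · exact tendsto_const_nhds.div (continuous_pow 2).continuousAt (by norm_num)
    · exact (Real.continuousAt_log one_ne_zero).tendsto.const_mul _
    · exact (continuous_pow 2).continuousAt.tendsto.const_mul _
    · exact ((continuous_pow 4).continuousAt.tendsto.const_mul _).div_const _
  have hev : ∀ᶠ r in 𝓝[<] (1 : ℝ), -(τ ^ 2 / r ^ 2) + 2 * ξ ^ 2 * Real.log r +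
      ‖H‖ ^ 2 * r ^ 2 + ‖h‖ ^ 2 * r ^ 4 / 2 ≤
        2 * ξ ^ 2 * Real.log (2 / ‖q‖) + 2 * ξ * τ * p.re := by
    have h1 : ∀ᶠ r in 𝓝[<] (1 : ℝ), 0 < r :=
      (eventually_gt_nhds (show (0 : ℝ) < 1 from one_pos)).filter_mono nhdsWithin_le_nhds
    filter_upwards [self_mem_nhdsWithin, h1] with r hr hr0
    exact step2 r hr0 hr
  have h2 := le_of_tendsto hlim hev
  rw [Real.log_one] at h2
  linarith

end AREM

open AREM in
theorem specARE (hSTA : SpecSTA) (hLOW : SpecLOW) (hUPP : SpecUPP) : SpecARE := by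
  intro Y p q b hL hq
  refine ⟨fun ξ τ => ?_, ?_⟩
  · by_cases hne : ξ ≠ 0 ∨ τ ≠ 0
    · obtain ⟨h, k, _, hk, hz⟩ := hL.ex ξ τ
      have h1 := main hSTA hLOW hUPP Y p q b hL hq ξ τ h k hk hz hne
      have h2 : 0 ≤ ‖h‖ ^ 2 / 2 := by positivity
      linarith
    · push Not at hne
      rw [hne.1, hne.2]
      simp
  · obtain ⟨h, k, hh, hk, hz⟩ := hL.ex 1 0
    have h1 := main hSTA hLOW hUPP Y p q b hL hq 1 0 h k hk hz (Or.inl one_ne_zero)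
    have h2 := hh rfl
    rw [h2] at h1
    simp only [Complex.ofReal_one, Complex.ofReal_zero, one_mul, zero_mul, add_zero] at h1
    linarith

end

end Pool.Agent.Lib.MP250511
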