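import Pool.Agent.Lib.MP_250511_an.Spec

/-!
Module BLO (helper91): the Bloch point.
-/

set_option autoImplicit false

namespace Pool.Agent.Lib.MP250511

open Complex Metric Set MeasureTheory Filter Topology
open scoped Real ENNReal Interval ComplexConjugate

noncomputable section

namespace BLOM

/-- One step of the Taylor expansion. -/
lemma step (g : ℂ → ℂ) (hg : AnalyticOnNhd ℂ g (ball 0 1)) :
    ∃ h : ℂ → ℂ, AnalyticOnNhd ℂ h (ball 0 1) ∧ ∀ z, g z = g 0 + z * h z := by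
  refine ⟨dslope g 0, ?_, fun z => ?_⟩
  · have h1 : DifferentiableOn ℂ (dslope g 0) (ball 0 1) :=
      (Complex.differentiableOn_dslope (ball_mem_nhds 0 one_pos)).2 hg.differentiableOn
    exact h1.analyticOnNhd isOpen_ball
  · have := sub_smul_dslope g 0 z
    rw [sub_zero, smul_eq_mul] at this
    rw [this]
    ring

/-- The Taylor expansion. -/
lemma expand (g : ℂ → ℂ) (hg : AnalyticOnNhd ℂ g (ball 0 1)) (h0 : g 0 = 0)
    (h1 : deriv g 0 = 1) : ∃ (a₂ a₃ : ℂ) (S : ℂ → ℂ), AnalyticOnNhd ℂ S (ball 0 1) ∧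
      ∀ z, g z = z + a₂ * z ^ 2 + a₃ * z ^ 3 + z ^ 4 * S z := by
  obtain ⟨f1, hf1, e1⟩ := step g hg
  obtain ⟨f2, hf2, e2⟩ := step f1 hf1
  obtain ⟨f3, hf3, e3⟩ := step f2 hf2
  obtain ⟨f4, hf4, e4⟩ := step f3 hf3
  have hf10 : f1 0 = 1 := by
    have h2 : HasDerivAt g (1 * f1 0 + 0 * deriv f1 0) 0 := by
      have h3 : g = fun z => z * f1 z := by
        funext z
        rw [e1 z, h0, zero_add]
      rw [h3]
      exact (hasDerivAt_id (0 : ℂ)).mul
        (hf1 0 (mem_ball_self one_pos)).differentiableAt.hasDerivAt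
    have h3 := h2.deriv
    rw [h1] at h3
    simpa using h3.symm
  refine ⟨f2 0, f3 0, f4, hf4, fun z => ?_⟩
  rw [e1 z, e2 z, e3 z, e4 z, h0, hf10]
  ring

/-- The derivative of the expansion. -/
lemma expand_deriv {g S : ℂ → ℂ} {a₂ a₃ : ℂ} (hS : AnalyticOnNhd ℂ S (ball 0 1))
    (hg : ∀ z, g z = z + a₂ * z ^ 2 + a₃ * z ^ 3 + z ^ 4 * S z) {z : ℂ} (hz : z ∈ ball (0 : ℂ) 1) :
    deriv g z = 1 + 2 * a₂ * z + 3 * a₃ * z ^ 2 + (4 * z ^ 3 * S z + z ^ 4 * deriv S z) := by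
  have h0 : g = fun z => z + a₂ * z ^ 2 + a₃ * z ^ 3 + z ^ 4 * S z := funext hg
  have h1 : HasDerivAt (fun z => z + a₂ * z ^ 2 + a₃ * z ^ 3 + z ^ 4 * S z)
      (1 + a₂ * (2 * z) + a₃ * (3 * z ^ 2) + (4 * z ^ 3 * S z + z ^ 4 * deriv S z)) z := by
    have e1 : HasDerivAt (fun z : ℂ => a₂ * z ^ 2) (a₂ * (2 * z)) z := by
      have := (hasDerivAt_pow 2 z).const_mul a₂
      simpa using this
    have e2 : HasDerivAt (fun z : ℂ => a₃ * z ^ 3) (a₃ * (3 * z ^ 2)) z := by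
      have := (hasDerivAt_pow 3 z).const_mul a₃
      simpa using this
    have e3 : HasDerivAt (fun z : ℂ => z ^ 4) (4 * z ^ 3) z := by
      have := hasDerivAt_pow 4 z
      simpa using this
    exact (((hasDerivAt_id z).add e1).add e2).add (e3.mul (hS z hz).differentiableAt.hasDerivAt)
  rw [h0, h1.deriv]
  ring

lemma re_le {w : ℂ} {ρ : ℝ} (hρ : ρ < 1) (h : (1 - ρ) * ‖1 + w‖ ≤ 1) :
    w.re ≤ ρ / (1 - ρ) := by
  have h1 : 0 < 1 - ρ := by linarith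
  have h2 : 1 + w.re ≤ ‖1 + w‖ := by
    have := Complex.re_le_norm (1 + w)
    simpa using this
  rw [le_div_iff₀ h1]
  have h3 : (1 - ρ) * (1 + w.re) ≤ 1 := (mul_le_mul_of_nonneg_left h2 h1.le).trans h
  linarith

lemma coef_one {A : ℂ → ℂ} (hA : ContinuousAt A 0)
    (h : ∀ z ∈ ball (0 : ℂ) 1, (1 - ‖z‖ ^ 2) * ‖1 + z * A z‖ ≤ 1) : A 0 = 0 := by
  set c := A 0 with hc
  have hl1 : Tendsto (fun s : ℝ => (conj c * A (s * conj c)).re) (𝓝[>] 0)
      (𝓝 (conj c * A 0).re) := by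
    have h1 : Tendsto (fun s : ℝ => (s : ℂ) * conj c) (𝓝[>] 0) (𝓝 0) := by
      have h2 : Tendsto (fun s : ℝ => (s : ℂ) * conj c) (𝓝 0) (𝓝 (((0 : ℝ) : ℂ) * conj c)) := by
        exact (Complex.continuous_ofReal.mul continuous_const).tendsto 0
      rw [ofReal_zero, zero_mul] at h2
      exact h2.mono_left nhdsWithin_le_nhds
    exact (Complex.continuous_re.tendsto _).comp ((hA.tendsto.comp h1).const_mul (conj c))
  have hl2 : Tendsto (fun s : ℝ => s * ‖c‖ ^ 2 / (1 - (s * ‖c‖) ^ 2)) (𝓝[>] 0) (𝓝 0) := by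
    have h2 : Tendsto (fun s : ℝ => s * ‖c‖ ^ 2 / (1 - (s * ‖c‖) ^ 2)) (𝓝 0)
        (𝓝 (0 * ‖c‖ ^ 2 / (1 - (0 * ‖c‖) ^ 2))) := by
      apply ContinuousAt.tendsto
      apply ContinuousAt.div (by fun_prop) (by fun_prop)
      norm_num
    simp only [zero_mul, zero_div] at h2
    exact h2.mono_left nhdsWithin_le_nhds
  have hev : ∀ᶠ s : ℝ in 𝓝[>] 0, (conj c * A (s * conj c)).re ≤
      s * ‖c‖ ^ 2 / (1 - (s * ‖c‖) ^ 2) := by
    have h1 : ∀ᶠ s : ℝ in 𝓝[>] (0 : ℝ), s < 1 / (‖c‖ + 1) :=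
      mem_nhdsWithin_of_mem_nhds (gt_mem_nhds (by positivity))
    filter_upwards [self_mem_nhdsWithin, h1] with s hs0 hs1
    have hs0' : 0 < s := hs0
    have h2 : s * ‖c‖ < 1 := by
      rw [lt_div_iff₀ (by positivity)] at hs1
      have := norm_nonneg c
      nlinarith
    have h3 : ‖(s : ℂ) * conj c‖ = s * ‖c‖ := by
      rw [norm_mul, Complex.norm_real, Real.norm_of_nonneg hs0'.le, RCLike.norm_conj]
    have h4 := h ((s : ℂ) * conj c) (by rw [mem_ball_zero_iff, h3]; exact h2)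
    rw [h3] at h4
    have h5 : (s * ‖c‖) ^ 2 < 1 := by
      have : 0 ≤ s * ‖c‖ := by positivity
      nlinarith
    have h6 := re_le h5 h4
    have h7 : ((s : ℂ) * conj c * A (s * conj c)).re = s * (conj c * A (s * conj c)).re := by
      rw [mul_assoc, Complex.re_ofReal_mul]
    rw [h7] at h6
    have h8 : (s * ‖c‖) ^ 2 / (1 - (s * ‖c‖) ^ 2) =
        s * (s * ‖c‖ ^ 2 / (1 - (s * ‖c‖) ^ 2)) := by ring
    rw [h8] at h6
    exact le_of_mul_le_mul_left h6 hs0'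
  have h1 := le_of_tendsto_of_tendsto hl1 hl2 hev
  rw [← hc, ← Complex.normSq_eq_conj_mul_self, Complex.ofReal_re] at h1
  have h2 : Complex.normSq c = 0 := le_antisymm h1 (Complex.normSq_nonneg c)
  exact Complex.normSq_eq_zero.1 h2

lemma coef_two {A : ℂ → ℂ} (hA : ContinuousAt A 0)
    (h : ∀ z ∈ ball (0 : ℂ) 1, (1 - ‖z‖ ^ 2) * ‖1 + z ^ 2 * A z‖ ≤ 1) : ‖A 0‖ ≤ 1 := by
  set c := A 0 with hc
  rcases eq_or_ne c 0 with h0 | h0
  · rw [h0]
    simp
  have hcn : 0 < ‖c‖ := norm_pos_iff.2 h0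
  obtain ⟨u, hu⟩ := IsAlgClosed.exists_pow_nat_eq (conj c / ‖c‖) (n := 2) (by norm_num)
  have hun : ‖u‖ = 1 := by
    have h1 : ‖u‖ ^ 2 = 1 := by
      rw [← norm_pow, hu, norm_div, RCLike.norm_conj, Complex.norm_real, norm_norm,
        div_self hcn.ne']
    have h2 := norm_nonneg u
    nlinarith
  have hl1 : Tendsto (fun s : ℝ => (u ^ 2 * A (s * u)).re) (𝓝[>] 0) (𝓝 (u ^ 2 * A 0).re) := by
    have h1 : Tendsto (fun s : ℝ => (s : ℂ) * u) (𝓝[>] 0) (𝓝 0) := by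
      have h2 : Tendsto (fun s : ℝ => (s : ℂ) * u) (𝓝 0) (𝓝 (((0 : ℝ) : ℂ) * u)) := by
        exact (Complex.continuous_ofReal.mul continuous_const).tendsto 0
      rw [ofReal_zero, zero_mul] at h2
      exact h2.mono_left nhdsWithin_le_nhds
    exact (Complex.continuous_re.tendsto _).comp ((hA.tendsto.comp h1).const_mul (u ^ 2))
  have hl2 : Tendsto (fun s : ℝ => 1 / (1 - s ^ 2)) (𝓝[>] 0) (𝓝 1) := by
    have h2 : Tendsto (fun s : ℝ => 1 / (1 - s ^ 2)) (𝓝 0) (𝓝 (1 / (1 - 0 ^ 2))) := by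
      apply ContinuousAt.tendsto
      apply ContinuousAt.div (by fun_prop) (by fun_prop)
      norm_num
    have h3 : (1 : ℝ) / (1 - 0 ^ 2) = 1 := by norm_num
    rw [h3] at h2
    exact h2.mono_left nhdsWithin_le_nhds
  have hev : ∀ᶠ s : ℝ in 𝓝[>] 0, (u ^ 2 * A (s * u)).re ≤ 1 / (1 - s ^ 2) := by
    have h1 : ∀ᶠ s : ℝ in 𝓝[>] (0 : ℝ), s < 1 :=
      mem_nhdsWithin_of_mem_nhds (gt_mem_nhds one_pos)
    filter_upwards [self_mem_nhdsWithin, h1] with s hs0 hs1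
    have hs0' : 0 < s := hs0
    have h3 : ‖(s : ℂ) * u‖ = s := by
      rw [norm_mul, Complex.norm_real, Real.norm_of_nonneg hs0'.le, hun, mul_one]
    have h4 := h ((s : ℂ) * u) (by rw [mem_ball_zero_iff, h3]; exact hs1)
    rw [h3] at h4
    have h5 : s ^ 2 < 1 := by nlinarith
    have h6 := re_le h5 h4
    have h7 : (((s : ℂ) * u) ^ 2 * A (s * u)).re = s ^ 2 * (u ^ 2 * A (s * u)).re := by
      have : ((s : ℂ) * u) ^ 2 * A (s * u) = ((s ^ 2 : ℝ) : ℂ) * (u ^ 2 * A (s * u)) := by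
        push_cast
        ring
      rw [this, Complex.re_ofReal_mul]
    rw [h7] at h6
    have h8 : s ^ 2 / (1 - s ^ 2) = s ^ 2 * (1 / (1 - s ^ 2)) := by ring
    rw [h8] at h6
    exact le_of_mul_le_mul_left h6 (by positivity)
  have h1 := le_of_tendsto_of_tendsto hl1 hl2 hev
  have h2 : u ^ 2 * A 0 = (‖c‖ : ℂ) := by
    rw [← hc, hu, div_mul_eq_mul_div, ← Complex.normSq_eq_conj_mul_self, Complex.normSq_eq_norm_sq]
    have : (‖c‖ : ℂ) ≠ 0 := by exact_mod_cast hcn.ne'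
    field_simp
    push_cast
    ring
  rw [h2, Complex.ofReal_re] at h1
  exact h1

/-- The normal form. -/
lemma normal (g : ℂ → ℂ) (hg : Univ g)
    (hB : ∀ z ∈ ball (0 : ℂ) 1, (1 - ‖z‖ ^ 2) * ‖deriv g z‖ ≤ 1) :
    ∃ b : ℂ, Nml g b ∧ ‖b‖ ≤ 1 / 3 := by
  obtain ⟨a₂, a₃, S, hS, hgS⟩ := expand g hg.an hg.zero hg.one
  have h0 : (0 : ℂ) ∈ ball (0 : ℂ) 1 := mem_ball_self one_pos
  have hSc : ContinuousAt S 0 := (hS 0 h0).continuousAt
  have hSd : ContinuousAt (deriv S) 0 := (hS.deriv 0 h0).continuousAt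
  have ha2 : a₂ = 0 := by
    have h1 := coef_one (A := fun z => 2 * a₂ + 3 * a₃ * z + (4 * z ^ 2 * S z +
      z ^ 3 * deriv S z)) (by fun_prop) (fun z hz => by
        have h2 := hB z hz
        rw [expand_deriv hS hgS hz] at h2
        convert h2 using 3
        ring)
    simpa using h1
  subst ha2
  have ha3 : ‖3 * a₃‖ ≤ 1 := by
    have h1 := coef_two (A := fun z => 3 * a₃ + (4 * z * S z +
      z ^ 2 * deriv S z)) (by fun_prop) (fun z hz => by
        have h2 := hB z hz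
        rw [expand_deriv hS hgS hz] at h2
        convert h2 using 3
        ring)
    simpa using h1
  have hb : ‖-a₃‖ ≤ 1 / 3 := by
    rw [norm_neg]
    rw [norm_mul] at ha3
    norm_num at ha3
    linarith
  refine ⟨-a₃, ⟨hg, ?_⟩, hb⟩
  -- `G = 1 + z² (a₃ + z S)` has no zeros
  have hGne : ∀ z ∈ ball (0 : ℂ) 1, 1 + z ^ 2 * (a₃ + z * S z) ≠ 0 := by
    intro z hz h2
    rcases eq_or_ne z 0 with h3 | h3
    · rw [h3] at h2
      simp at h2
    · have h4 : g z = 0 := by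
        rw [hgS z]
        linear_combination z * h2
      have h5 := hg.inj hz h0 (h4.trans hg.zero.symm)
      exact h3 h5
  refine ⟨fun z => (1 + z ^ 2 * (a₃ + z * S z))⁻¹ * (a₃ * z * (a₃ + z * S z) - S z), ?_, ?_⟩
  · intro z hz
    have h1 : AnalyticAt ℂ (fun z : ℂ => z) z := analyticAt_id
    have h2 := hS z hz
    have h3 : AnalyticAt ℂ (fun z => 1 + z ^ 2 * (a₃ + z * S z)) z :=
      analyticAt_const.add ((h1.pow 2).mul (analyticAt_const.add (h1.mul h2)))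
    exact (h3.inv (hGne z hz)).mul
      (((analyticAt_const.mul h1).mul (analyticAt_const.add (h1.mul h2))).sub h2)
  · intro z hz hz0
    have h1 := hGne z hz
    have h2 : g z = z * (1 + z ^ 2 * (a₃ + z * S z)) := by
      rw [hgS z]
      ring
    rw [h2]
    field_simp
    ring

/-! ### The Möbius transformation -/

lemma one_ne {z₀ z : ℂ} (hz₀ : ‖z₀‖ < 1) (hz : ‖z‖ < 1) : 1 + conj z₀ * z ≠ 0 := by
  intro h
  have h1 : ‖conj z₀ * z‖ < 1 := by
    rw [norm_mul, RCLike.norm_conj]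
    have := norm_nonneg z
    have := norm_nonneg z₀
    nlinarith
  have h2 : conj z₀ * z = -1 := by linear_combination h
  rw [h2, norm_neg, norm_one] at h1
  exact lt_irrefl _ h1

lemma mob_norm {z₀ z : ℂ} (hz₀ : ‖z₀‖ < 1) (hz : ‖z‖ < 1) :
    1 - ‖(z + z₀) / (1 + conj z₀ * z)‖ ^ 2 =
      (1 - ‖z‖ ^ 2) * (1 - ‖z₀‖ ^ 2) / ‖1 + conj z₀ * z‖ ^ 2 := by
  have hne := one_ne hz₀ hz
  have hn : 0 < ‖1 + conj z₀ * z‖ ^ 2 := by
    have := norm_pos_iff.2 hne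
    positivity
  rw [norm_div, div_pow]
  rw [eq_div_iff hn.ne', sub_mul, div_mul_cancel₀ _ hn.ne']
  have e : ∀ w : ℂ, ‖w‖ ^ 2 = w.re ^ 2 + w.im ^ 2 := by
    intro w
    rw [← Complex.normSq_eq_norm_sq, Complex.normSq_apply]
    ring
  rw [e, e, e, e]
  simp only [add_re, one_re, mul_re, conj_re, conj_im, add_im, one_im, mul_im]
  ring

lemma mob_mem {z₀ z : ℂ} (hz₀ : ‖z₀‖ < 1) (hz : ‖z‖ < 1) :
    ‖(z + z₀) / (1 + conj z₀ * z)‖ < 1 := by
  have h1 := mob_norm hz₀ hz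
  have h2 : 0 < (1 - ‖z‖ ^ 2) * (1 - ‖z₀‖ ^ 2) / ‖1 + conj z₀ * z‖ ^ 2 := by
    have h3 := norm_pos_iff.2 (one_ne hz₀ hz)
    have h4 : 0 < 1 - ‖z‖ ^ 2 := by
      have := norm_nonneg z
      nlinarith
    have h5 : 0 < 1 - ‖z₀‖ ^ 2 := by
      have := norm_nonneg z₀
      nlinarith
    positivity
  rw [← h1] at h2
  have h3 := norm_nonneg ((z + z₀) / (1 + conj z₀ * z))
  nlinarith

lemma mob_deriv {z₀ z : ℂ} (hz₀ : ‖z₀‖ < 1) (hz : ‖z‖ < 1) :
    HasDerivAt (fun z => (z + z₀) / (1 + conj z₀ * z))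
      (((1 - ‖z₀‖ ^ 2 : ℝ) : ℂ) / (1 + conj z₀ * z) ^ 2) z := by
  have h1 : HasDerivAt (fun z : ℂ => z + z₀) 1 z := (hasDerivAt_id z).add_const z₀
  have h2 : HasDerivAt (fun z : ℂ => 1 + conj z₀ * z) (conj z₀) z := by
    have := ((hasDerivAt_id z).const_mul (conj z₀)).const_add 1
    simpa using this
  refine (h1.div h2 (one_ne hz₀ hz)).congr_deriv ?_
  congr 1
  have h3 : ((‖z₀‖ : ℂ)) ^ 2 = conj z₀ * z₀ := by
    rw [← Complex.normSq_eq_conj_mul_self, Complex.normSq_eq_norm_sq]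
    push_cast
    ring
  push_cast
  rw [h3]
  ring

lemma mob_inj {z₀ z w : ℂ} (hz₀ : ‖z₀‖ < 1) (hz : ‖z‖ < 1) (hw : ‖w‖ < 1)
    (h : (z + z₀) / (1 + conj z₀ * z) = (w + z₀) / (1 + conj z₀ * w)) : z = w := by
  rw [div_eq_div_iff (one_ne hz₀ hz) (one_ne hz₀ hw)] at h
  have h3 : ((‖z₀‖ ^ 2 : ℝ) : ℂ) = conj z₀ * z₀ := by
    rw [← Complex.normSq_eq_conj_mul_self, Complex.normSq_eq_norm_sq]
  have h4 : (z - w) * (1 - conj z₀ * z₀) = 0 := by linear_combination h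
  rcases mul_eq_zero.1 h4 with h5 | h5
  · exact sub_eq_zero.1 h5
  · exfalso
    rw [← h3] at h5
    have h6 : ((1 - ‖z₀‖ ^ 2 : ℝ) : ℂ) = 0 := by
      push_cast at h5 ⊢
      exact h5
    have h7 : (1 - ‖z₀‖ ^ 2 : ℝ) = 0 := by exact_mod_cast h6
    have := norm_nonneg z₀
    nlinarith

end BLOM

open BLOM in
/-- Module BLO. -/
theorem specBLO : SpecBLO := by
  intro f hf r hr0 hr1
  have hrz : ∀ z : ℂ, ‖z‖ ≤ 1 → (r : ℂ) * z ∈ ball (0 : ℂ) 1 := by
    intro z hz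
    rw [mem_ball_zero_iff, norm_mul, Complex.norm_real, Real.norm_of_nonneg hr0.le]
    have := norm_nonneg z
    nlinarith
  -- the maximum
  set H : ℂ → ℝ := fun z => (1 - ‖z‖ ^ 2) * ‖(r : ℂ) * deriv f (r * z)‖ with hH
  have hHc : ContinuousOn H (closedBall 0 1) := by
    have h1 : ContinuousOn (fun z : ℂ => deriv f (r * z)) (closedBall 0 1) :=
      hf.an.deriv.continuousOn.comp (by fun_prop) fun z hz =>
        hrz z (mem_closedBall_zero_iff.1 hz)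
    have h2 : Continuous fun z : ℂ => (1 - ‖z‖ ^ 2 : ℝ) := by fun_prop
    exact h2.continuousOn.mul (continuousOn_const.mul h1).norm
  obtain ⟨z₀, hz₀, hmax⟩ := (isCompact_closedBall (0 : ℂ) 1).exists_isMaxOn
    ⟨0, mem_closedBall_self zero_le_one⟩ hHc
  have hH0 : H 0 = r := by
    simp only [hH, mul_zero, hf.one, norm_zero, mul_one, Complex.norm_real,
      Real.norm_of_nonneg hr0.le]
    ring
  have hM : r ≤ H z₀ := by
    rw [← hH0]
    exact hmax (mem_closedBall_self zero_le_one)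
  have hz₀1 : ‖z₀‖ < 1 := by
    rcases (mem_closedBall_zero_iff.1 hz₀).lt_or_eq with h1 | h1
    · exact h1
    · exfalso
      have : H z₀ = 0 := by
        simp only [hH, h1]
        ring
      linarith
  set lam : ℂ := ((1 - ‖z₀‖ ^ 2 : ℝ) : ℂ) * (r * deriv f (r * z₀)) with hlam
  have hpos : 0 < 1 - ‖z₀‖ ^ 2 := by
    have := norm_nonneg z₀
    nlinarith
  have hlamn : ‖lam‖ = H z₀ := by
    rw [hlam, norm_mul, Complex.norm_real, Real.norm_of_nonneg hpos.le]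
  have hlam0 : lam ≠ 0 := by
    rw [← norm_pos_iff, hlamn]
    linarith
  set T : ℂ → ℂ := fun z => (z + z₀) / (1 + conj z₀ * z) with hT
  set g : ℂ → ℂ := fun z => (f (r * T z) - f (r * z₀)) / lam with hg
  have hTm : ∀ z ∈ ball (0 : ℂ) 1, ‖T z‖ < 1 := fun z hz =>
    mob_mem hz₀1 (mem_ball_zero_iff.1 hz)
  have hgd : ∀ z ∈ ball (0 : ℂ) 1, HasDerivAt g
      (deriv f (r * T z) * (r * (((1 - ‖z₀‖ ^ 2 : ℝ) : ℂ) / (1 + conj z₀ * z) ^ 2)) / lam) z := by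
    intro z hz
    have h1 := mob_deriv hz₀1 (mem_ball_zero_iff.1 hz)
    have h2 : HasDerivAt f (deriv f (r * T z)) (r * T z) :=
      (hf.an _ (hrz _ (hTm z hz).le)).differentiableAt.hasDerivAt
    have h3 : HasDerivAt (fun z => (r : ℂ) * T z)
        (r * (((1 - ‖z₀‖ ^ 2 : ℝ) : ℂ) / (1 + conj z₀ * z) ^ 2)) z := h1.const_mul _
    exact ((h2.comp z h3).sub_const _).div_const lam
  have hga : AnalyticOnNhd ℂ g (ball 0 1) := by
    have h1 : DifferentiableOn ℂ g (ball 0 1) := fun z hz =>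
      (hgd z hz).differentiableAt.differentiableWithinAt
    exact h1.analyticOnNhd isOpen_ball
  have hT0 : T 0 = z₀ := by simp [hT]
  have hU : Univ g := by
    refine ⟨hga, ?_, ?_, ?_⟩
    · intro z hz w hw hzw
      simp only [hg] at hzw
      rw [div_left_inj' hlam0, sub_left_inj] at hzw
      have h1 := hf.inj (hrz _ (hTm z hz).le) (hrz _ (hTm w hw).le) hzw
      have hr : (r : ℂ) ≠ 0 := by exact_mod_cast hr0.ne'
      exact mob_inj hz₀1 (mem_ball_zero_iff.1 hz) (mem_ball_zero_iff.1 hw)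
        (mul_left_cancel₀ hr h1)
    · simp only [hg, hT0, sub_self, zero_div]
    · rw [(hgd 0 (mem_ball_self one_pos)).deriv, hT0]
      simp only [mul_zero, add_zero, one_pow, div_one]
      rw [div_eq_one_iff_eq hlam0, hlam]
      ring
  have hgB : ∀ z ∈ ball (0 : ℂ) 1, (1 - ‖z‖ ^ 2) * ‖deriv g z‖ ≤ 1 := by
    intro z hz
    have hz1 := mem_ball_zero_iff.1 hz
    rw [(hgd z hz).deriv]
    have h1 : H (T z) ≤ H z₀ := hmax (mem_closedBall_zero_iff.2 (hTm z hz).le)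
    have h2 : H (T z) = (1 - ‖z‖ ^ 2) * (1 - ‖z₀‖ ^ 2) / ‖1 + conj z₀ * z‖ ^ 2 *
        ‖(r : ℂ) * deriv f (r * T z)‖ := by
      simp only [hH]
      rw [show ‖T z‖ = ‖(z + z₀) / (1 + conj z₀ * z)‖ from rfl, mob_norm hz₀1 hz1]
    have h3 : (1 - ‖z‖ ^ 2) * ‖deriv f (r * T z) *
        (r * (((1 - ‖z₀‖ ^ 2 : ℝ) : ℂ) / (1 + conj z₀ * z) ^ 2)) / lam‖ = H (T z) / H z₀ := by
      rw [h2, norm_div, hlamn, norm_mul, norm_mul, norm_mul, norm_div, norm_pow,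
        Complex.norm_real (1 - ‖z₀‖ ^ 2), Real.norm_of_nonneg hpos.le]
      ring
    rw [h3]
    exact div_le_one_of_le₀ h1 (by linarith)
  obtain ⟨b, hb, hb3⟩ := normal g hU hgB
  refine ⟨g, b, hb, hb3, ?_⟩
  intro c t hct
  refine ⟨f (r * z₀) + lam * c, ?_⟩
  intro w hw
  rw [mem_ball, dist_eq_norm] at hw
  have ht : 0 < t := by
    have := norm_nonneg (w - (f (r * z₀) + lam * c))
    by_contra hcon
    push Not at hcon
    nlinarith
  have h1 : (w - f (r * z₀)) / lam ∈ ball c t := by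
    rw [mem_ball, dist_eq_norm]
    have h2 : (w - f (r * z₀)) / lam - c = (w - (f (r * z₀) + lam * c)) / lam := by
      field_simp
      ring
    rw [h2, norm_div, hlamn, div_lt_iff₀ (by linarith)]
    nlinarith
  obtain ⟨z, hz, hgz⟩ := hct h1
  refine ⟨r * T z, hrz _ (hTm z hz).le, ?_⟩
  simp only [hg] at hgz
  rw [div_left_inj' hlam0] at hgz
  linear_combination hgz

end

end Pool.Agent.Lib.MP250511
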