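import Pool.Agent.Lib.MP_250511_an.Spec

/-!
Problem MP_250511_an: module CIR (discs from circles).
-/

set_option autoImplicit false

open MeasureTheory Set Filter Topology Metric Complex
open scoped Real ENNReal

namespace Pool.Agent.Lib.MP250511

theorem specCIR (hINV : SpecINV) : SpecCIR := by
  intro g hg hinj c r hr hs w₀ hw₀
  by_contra hcon
  obtain ⟨hne, -, h, hh⟩ := hINV g hg hinj
  have hd : DifferentiableOn ℂ (fun z => deriv g z / (g z - w₀)) (ball 0 1) := by
    intro z hz
    have h1 : DifferentiableAt ℂ (deriv g) z := (hg z hz).deriv.differentiableAt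
    have h2 : DifferentiableAt ℂ g z := (hg z hz).differentiableAt
    have h3 : g z - w₀ ≠ 0 := by
      intro h0
      exact hcon ⟨z, hz, sub_eq_zero.1 h0⟩
    exact (h1.div (h2.sub_const w₀) h3).differentiableWithinAt
  obtain ⟨φ, hφ⟩ := hd.isExactOn_ball
  have hint : (∮ w in C(c, r), (w - w₀)⁻¹) = 0 := by
    apply circleIntegral.integral_eq_zero_of_hasDerivWithinAt (f := φ ∘ h) hr.le
    intro w hw
    obtain ⟨z, hz, rfl⟩ := hs hw
    have h1 : HasDerivAt φ (deriv g z / (g z - w₀)) (h (g z)) := by
      rw [(hh z hz).1]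
      exact hφ z hz
    have h2 := h1.comp (g z) (hh z hz).2
    have h3 : deriv g z / (g z - w₀) * (deriv g z)⁻¹ = (g z - w₀)⁻¹ := by
      have := hne z hz
      field_simp
    rw [h3] at h2
    exact h2.hasDerivWithinAt
  rw [circleIntegral.integral_sub_inv_of_mem_ball hw₀] at hint
  exact Complex.two_pi_I_ne_zero hint

end Pool.Agent.Lib.MP250511
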