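import Mathlib

/-!
Problem MP_250511_an: the schlicht Bloch constant.  Definitions.
-/

set_option autoImplicit false

namespace Pool.Agent.Lib.MP250511

open Complex Metric Set MeasureTheory Filter Topology
open scoped Real ENNReal

noncomputable section

/-- `g` is analytic and injective on the open unit disc, with `g 0 = 0` and `g' 0 = 1`. -/
structure Univ (g : ℂ → ℂ) : Prop where
  an : AnalyticOnNhd ℂ g (ball 0 1)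
  inj : InjOn g (ball 0 1)
  zero : g 0 = 0
  one : deriv g 0 = 1

/-- Supremum of the radii of the open discs contained in `f(D)`. -/
def rho (f : ℂ → ℂ) : ℝ≥0∞ :=
  ⨆ (c : ℂ) (r : ℝ) (_ : ball c r ⊆ f '' ball 0 1), ENNReal.ofReal r

/-- The schlicht Bloch constant. -/
def S : ℝ≥0∞ := ⨅ (f : ℂ → ℂ) (_ : Univ f), rho f

/-- The starlike analogue of the schlicht Bloch constant. -/
def S₁ : ℝ≥0∞ := ⨅ (f : ℂ → ℂ) (_ : Univ f ∧ StarConvex ℝ 0 (f '' ball 0 1)), rho f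

/-- `v` is the reciprocal of an omitted value of `g` on the disc (or `v = 0`). -/
def Om (g : ℂ → ℂ) (v : ℂ) : Prop := ∀ z ∈ ball (0 : ℂ) 1, v * g z ≠ 1

/-- normal form: `1 / g z = 1 / z + b z + z² k(z)`, i.e. `a₂ = 0` and `a₃ = - b`. -/
structure Nml (g : ℂ → ℂ) (b : ℂ) : Prop extends Univ g where
  lau : ∃ k : ℂ → ℂ, AnalyticOnNhd ℂ k (ball 0 1) ∧
    ∀ z ∈ ball (0 : ℂ) 1, z ≠ 0 → (g z)⁻¹ = z⁻¹ + b * z + z ^ 2 * k z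

/-- The data of the function `Y` attached to two omitted values `1/v₁, 1/v₂`;
`p = (v₁ + v₂) / 2`, `q = (v₁ - v₂) / 2`. -/
structure Lift (Y : ℂ → ℂ) (p q b : ℂ) : Prop where
  an : AnalyticOnNhd ℂ Y (ball 0 1)
  inj : InjOn Y (ball 0 1)
  zero : Y 0 = 0
  ne : ∀ z ∈ ball (0 : ℂ) 1, ∀ w ∈ ball (0 : ℂ) 1, Y z * Y w ≠ 1
  wt : ∃ m : ℂ → ℂ, AnalyticOnNhd ℂ m (ball 0 1) ∧
    ∀ z ∈ ball (0 : ℂ) 1, z ≠ 0 → (q / 2) * (Y z)⁻¹ + p = z⁻¹ + z * m z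
  ex : ∀ ξ τ : ℝ, ∃ (h : ℂ) (k : ℂ → ℂ), (τ = 0 → h = ξ * (p ^ 2 + q ^ 2 / 2 - 2 * b)) ∧
    AnalyticOnNhd ℂ k (ball 0 1) ∧ ∀ z ∈ ball (0 : ℂ) 1, z ≠ 0 →
      deriv Y z * (ξ / Y z - (τ * q / 2) / (Y z) ^ 2 - (τ * q / 2)) =
        -τ / z ^ 2 + ξ / z + (ξ * p + τ * (b - q ^ 2 / 2)) + h * z + z ^ 2 * k z

/-- the injective map of the punctured disc into `{|Z| ≥ 1}`: `1/Y` if `|Y| ≤ 1`, else `Y`. -/
def Th (Y : ℂ → ℂ) (z : ℂ) : ℂ := if ‖Y z‖ ≤ 1 then (Y z)⁻¹ else Y z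

/-- the weight `(1 - d² |Z + s|²)₊`, real version -/
def wR (d : ℝ) (s Z : ℂ) : ℝ := max 0 (1 - d ^ 2 * ‖Z + s‖ ^ 2)

/-- the weight `(1 - d² |Z + s|²)₊`, extended nonnegative version -/
def Wt (d : ℝ) (s Z : ℂ) : ℝ≥0∞ := ENNReal.ofReal (1 - d ^ 2 * ‖Z + s‖ ^ 2)

/-- the energy density in the `Z`-plane -/
def NN (κ : ℂ) (ξ : ℝ) (Z : ℂ) : ℝ := ‖κ - ξ / Z + κ / Z ^ 2‖ ^ 2

/-- the energy density in the disc -/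
def JJ (Y : ℂ → ℂ) (κ : ℂ) (ξ : ℝ) (z : ℂ) : ℝ :=
  ‖deriv Y z * (ξ / Y z - κ / (Y z) ^ 2 - κ)‖ ^ 2

/-- The two pair conditions (`β` real).  With `p = (v+w)/2`, `q = (v-w)/2`:
`(Re (u p))² ≤ (1 + Re (u² (β - q²/2))) log (2/|q|)` for all unit `u`, and
`|p|² + |p² + q²/2 - 2β|²/2 ≤ 2 log (2/|q|)`. -/
def PairOK (β : ℝ) (v w : ℂ) : Prop :=
  (∀ u : ℂ, ‖u‖ = 1 →
    ((u * ((v + w) / 2)).re) ^ 2 ≤
      (1 + (u ^ 2 * (β - (v - w) ^ 2 / 8)).re) * Real.log (4 / ‖v - w‖)) ∧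
  ‖(v + w) / 2‖ ^ 2 + ‖((v + w) / 2) ^ 2 + (v - w) ^ 2 / 8 - 2 * β‖ ^ 2 / 2 ≤
    2 * Real.log (4 / ‖v - w‖)

/-- every circle `|v - a| = r` around `0` with `r / (r² - |a|²) ≥ 1 / D` meets `E`. -/
def Hits (E : Set ℂ) (D : ℝ) : Prop :=
  ∀ (a : ℂ) (r : ℝ), ‖a‖ < r → r ^ 2 - ‖a‖ ^ 2 ≤ D * r → ∃ v ∈ E, ‖v - a‖ = r

end

end Pool.Agent.Lib.MP250511
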