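import Pool.Agent.Lib.MP_250511_an.Spec

/-!
Problem MP_250511_an: the final assembly.
-/

set_option autoImplicit false

namespace Pool.Agent.Lib.MP250511

open Complex Metric Set
open scoped Real ENNReal

noncomputable section

/-- multiplication by a unit as image of the set of omitted reciprocals -/
theorem disc_of_nml (hROT : SpecROT) (hOMC : SpecOMC) (hPRS : SpecPRS) (hHIT : SpecHIT)
    (hGEO : SpecGEO) {g : ℂ → ℂ} {b : ℂ} (hg : Nml g b) (hb : ‖b‖ ≤ 1 / 3) :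
    ∃ c : ℂ, ball c (3 / 5) ⊆ g '' ball 0 1 := by
  by_contra hcon
  -- a unit `u` with `b u² = |b|`
  obtain ⟨u, hu, hub⟩ : ∃ u : ℂ, ‖u‖ = 1 ∧ b * u ^ 2 = (‖b‖ : ℂ) := by
    by_cases hb0 : b = 0
    · exact ⟨1, by simp, by simp [hb0]⟩
    · obtain ⟨w, hw⟩ := IsAlgClosed.exists_pow_nat_eq ((starRingEnd ℂ) b / ‖b‖) two_pos
      have hnb : (‖b‖ : ℂ) ≠ 0 := by exact_mod_cast norm_ne_zero_iff.2 hb0
      have hwn : ‖w‖ ^ 2 = 1 := by
        rw [← norm_pow, hw, norm_div, Complex.norm_conj, Complex.norm_real, norm_norm,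
          div_self (norm_ne_zero_iff.2 hb0)]
      refine ⟨w, ?_, ?_⟩
      · have := norm_nonneg w
        nlinarith
      · rw [hw, mul_div_assoc', Complex.mul_conj, Complex.normSq_eq_norm_sq]
        push_cast
        field_simp
  obtain ⟨hN, hO⟩ := hROT g b u hg hu
  rw [hub] at hN
  set G : ℂ → ℂ := fun z => u⁻¹ * g (u * z) with hG
  have hu0 : u ≠ 0 := by
    intro h
    rw [h, norm_zero] at hu
    exact one_ne_zero hu.symm
  have hno : ¬ ∃ c : ℂ, ball c (1 / (5 / 3)) ⊆ G '' ball 0 1 := by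
    rintro ⟨c, hc⟩
    apply hcon
    refine ⟨u * c, ?_⟩
    intro w hw
    have hw' : u⁻¹ * w ∈ ball c (1 / (5 / 3)) := by
      rw [mem_ball, dist_eq_norm] at hw ⊢
      have e : u⁻¹ * w - c = u⁻¹ * (w - u * c) := by
        field_simp
      rw [e, norm_mul, norm_inv, hu, inv_one, one_mul]
      linarith
    obtain ⟨z, hz, hzw⟩ := hc hw'
    refine ⟨u * z, ?_, ?_⟩
    · rw [mem_ball_zero_iff] at hz ⊢
      rw [norm_mul, hu, one_mul]
      exact hz
    · have : u⁻¹ * g (u * z) = u⁻¹ * w := hzw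
      exact mul_left_cancel₀ (inv_ne_zero hu0) this
  have hU : Univ G := hN.toUniv
  refine hGEO {v | Om G v} ‖b‖ (hOMC G hU) ?_ (norm_nonneg _) hb ?_
    (hHIT G hU (5 / 3) (by norm_num) hno)
  · intro z _
    simp
  · intro v hv w hw hne
    exact hPRS G ‖b‖ hN v w hv hw hne

theorem specFIN (hBLO : SpecBLO) (hROT : SpecROT) (hOMC : SpecOMC) (hPRS : SpecPRS)
    (hHIT : SpecHIT) (hGEO : SpecGEO) : SpecFIN := by
  refine le_iInf fun f => le_iInf fun hf => ?_
  have key : ∀ r : ℝ, 0 < r → r < 1 → ENNReal.ofReal (r * (3 / 5)) ≤ rho f := by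
    intro r hr0 hr1
    obtain ⟨g, b, hg, hb, hcov⟩ := hBLO f hf r hr0 hr1
    obtain ⟨c, hc⟩ := disc_of_nml hROT hOMC hPRS hHIT hGEO hg hb
    obtain ⟨c', hc'⟩ := hcov c (3 / 5) hc
    exact le_iSup_of_le c' (le_iSup_of_le (r * (3 / 5)) (le_iSup_of_le hc' le_rfl))
  have hc : Continuous fun r : ℝ => ENNReal.ofReal (r * (3 / 5)) :=
    ENNReal.continuous_ofReal.comp (continuous_id.mul continuous_const)
  have ht : Filter.Tendsto (fun r : ℝ => ENNReal.ofReal (r * (3 / 5))) (nhdsWithin 1 (Iio 1))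
      (nhds (ENNReal.ofReal (1 * (3 / 5)))) := (hc.tendsto 1).mono_left nhdsWithin_le_nhds
  rw [one_mul] at ht
  refine le_of_tendsto ht ?_
  filter_upwards [Ioo_mem_nhdsLT (zero_lt_one' ℝ)] with r hr
  exact key r hr.1 hr.2

end

end Pool.Agent.Lib.MP250511
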