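import Pool.Agent.Lib.MP_250511_an.Defs

/-!
Problem MP_250511_an: `S ≥ 3/5`.  The modules (each with its proof in the docstring).

File `Lib/MP_250511_an/<NAME>.lean`, `theorem specNAME (other Specs as hypotheses) : SpecNAME`,
own lemmas in `namespace Pool.Agent.Lib.MP250511.NAMEM`.
-/

set_option autoImplicit false

namespace Pool.Agent.Lib.MP250511

open Complex Metric Set MeasureTheory Filter Topology
open scoped Real ENNReal Interval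

noncomputable section

/-- INV [60].  Injective analytic functions on the disc.  Proof: copy section `inj` of
`Pool/Agent/Lib/MP_fa0334_an/Conf.lean` (`open_image`, `inv_cont`, `deriv_ne_of_inj`), and
`HasDerivAt.of_local_left_inverse`. -/
def SpecINV : Prop := ∀ g : ℂ → ℂ, AnalyticOnNhd ℂ g (ball 0 1) → InjOn g (ball 0 1) →
  (∀ z ∈ ball (0 : ℂ) 1, deriv g z ≠ 0) ∧ IsOpen (g '' ball 0 1) ∧
  ∃ h : ℂ → ℂ, ∀ z ∈ ball (0 : ℂ) 1, h (g z) = z ∧ HasDerivAt h (deriv g z)⁻¹ (g z)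

/-- CIR [80].  Discs from circles.  Proof (from INV): let `w₀ ∈ ball c r` be omitted.  The function
`g' / (g - w₀)` has a primitive `φ` on the disc (`DifferentiableOn.isExactOn_ball`); `φ ∘ h` (`h` the
inverse of INV) is a primitive of `1 / (w - w₀)` at every point of `g(D)`, hence on the circle, so
`∮ w in C(c, r), (w - w₀)⁻¹ = 0` (`circleIntegral.integral_eq_zero_of_hasDerivWithinAt`), but it is
`2 π i` (`circleIntegral.integral_sub_inv_of_mem_ball`). -/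
def SpecCIR : Prop := ∀ g : ℂ → ℂ, AnalyticOnNhd ℂ g (ball 0 1) → InjOn g (ball 0 1) →
  ∀ (c : ℂ) (r : ℝ), 0 < r → sphere c r ⊆ g '' ball 0 1 → ball c r ⊆ g '' ball 0 1

/-- HIT [100].  Proof (from CIR): let `|a| < r`, `P = r² - |a|² > 0`, `P ≤ D r`, and suppose that no
`v` with `Om g v` has `|v - a| = r`.  Every `w` on the circle with centre `c = - conj a / P` and
radius `r / P` is nonzero and `v = 1 / w` satisfies `|v - a| = r` (because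
`|w + conj a / P|² = r²/P²` iff `P |w|² + 2 Re (a w) = 1` iff `|1 - a w| = r |w|`); so `v` is not
omitted and `w = g z` for some `z` (`v * g z = 1`).  By CIR `ball c (r/P) ⊆ g(D)` and
`r / P ≥ 1 / D`. -/
def SpecHIT : Prop := ∀ g : ℂ → ℂ, Univ g → ∀ D : ℝ, 0 < D →
  (¬ ∃ c : ℂ, ball c (1 / D) ⊆ g '' ball 0 1) → Hits {v | Om g v} D

/-- OMC [80].  The set of omitted `v` is closed (its complement is `{1/w : w ∈ g(D), w ≠ 0}`, open by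
INV and the openness of `g(D)`); it is bounded: `g(D)` is a neighbourhood of `0`. -/
def SpecOMC : Prop := ∀ g : ℂ → ℂ, Univ g → IsCompact {v | Om g v}

/-- BLO [200].  The Bloch point.  Proof: `F z = f (r z)` is analytic near the closed disc,
`H z = (1 - |z|²) |F' z|` is continuous on the closed disc and `0` on the circle, so it has a
maximum `M = H z₀ ≥ H 0 = r` at some `z₀` in the open disc.  Put `T z = (z + z₀) / (1 + conj z₀ z)`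
(a bijection of the disc, `(1 - |z|²) |T' z| = 1 - |T z|²`) and
`g z = (F (T z) - F z₀) / ((1 - |z₀|²) F' z₀)`.  Then `g` is analytic and injective, `g 0 = 0`,
`g' 0 = 1` and `(1 - |z|²) |g' z| ≤ 1` on the disc.  Write `g' z = 1 + c₁ z + c₂ z² + z³ R z` with
`R` bounded near `0`: from `|g'|² ≤ (1 - |z|²)⁻²` one gets `2 Re (c₁ z) ≤ C |z|²` for small `z`, so
`c₁ = 0`, then `2 Re (c₂ z²) ≤ 2 |z|² + C |z|³`, so `|c₂| ≤ 1`.  So `g = z + a₃ z³ + z⁴ (..)`,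
`a₃ = c₂ / 3`, and `1 / g = 1/z + b z + z² k`, `b = - a₃`, `|b| ≤ 1/3`; `k` is analytic on the whole
disc (`g z = z G z`, `G` analytic (dslope) and nonvanishing, `1 / G = 1 + b z² + z³ k`).  Finally
`F(D) = F z₀ + λ g(D)` with `|λ| = M ≥ r` and `F(D) ⊆ f(D)`, so a disc of radius `t` in `g(D)` gives
one of radius `M t` in `f(D)`. -/
def SpecBLO : Prop := ∀ f : ℂ → ℂ, Univ f → ∀ r : ℝ, 0 < r → r < 1 →
  ∃ (g : ℂ → ℂ) (b : ℂ), Nml g b ∧ ‖b‖ ≤ 1 / 3 ∧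
    ∀ (c : ℂ) (t : ℝ), ball c t ⊆ g '' ball 0 1 → ∃ c' : ℂ, ball c' (r * t) ⊆ f '' ball 0 1

/-- ROT [60].  Rotation.  Proof: `g_u z = u⁻¹ g (u z)`; `1 / g_u z = u / g (u z)
= 1/z + b u² z + z² (u³ k (u z))`. -/
def SpecROT : Prop := ∀ (g : ℂ → ℂ) (b u : ℂ), Nml g b → ‖u‖ = 1 →
  Nml (fun z => u⁻¹ * g (u * z)) (b * u ^ 2) ∧
  ∀ v : ℂ, Om (fun z => u⁻¹ * g (u * z)) (u * v) ↔ Om g v

/-- SQR [50].  Square roots of zero-free functions on the disc.  Proof: `F' / F` has a primitive `φ`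
with `φ 0 = 0` (`DifferentiableOn.isExactOn_ball`), `F exp (-φ)` is constant `= 1`;
`s = exp (φ / 2)`. -/
def SpecSQR : Prop := ∀ F : ℂ → ℂ, AnalyticOnNhd ℂ F (ball 0 1) →
  (∀ z ∈ ball (0 : ℂ) 1, F z ≠ 0) → F 0 = 1 →
  ∃ s : ℂ → ℂ, AnalyticOnNhd ℂ s (ball 0 1) ∧ s 0 = 1 ∧ ∀ z ∈ ball (0 : ℂ) 1, s z ^ 2 = F z

/-- LFT [250].  The Bieberbach-Eilenberg function of two omitted values.  `p = (v₁+v₂)/2`,
`q = (v₁-v₂)/2 ≠ 0`.  `s² = (1 - v₁ g)(1 - v₂ g)` (SQR), `s 0 = 1`.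
`(1 - p g + s)(1 - p g - s) = (1 - p g)² - s² = q² g²`.  For `z ≠ 0` in the disc `g z ≠ 0`, so
`1 - p g + s ≠ 0` (and it is `2` at `0`).  `Y = q g / (1 - p g + s)`: analytic, `Y 0 = 0`,
`Y' 0 = q / 2`, `Y z ≠ 0` for `z ≠ 0`, and `1 / Y = (1 - p g + s) / (q g)`,
`Y = (1 - p g - s) / (q g)`, so (X): `Y + 1/Y = (2/q) (1/g - p)` for `z ≠ 0`.
Injective: `Y z = Y w` gives `g z = g w` by (X).  `Y z * Y w = 1`: then `z, w ≠ 0`, `X z = X w`,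
`z = w`, `Y z = ± 1`, `1/g = p ± q ∈ {v₁, v₂}` by (X), contradiction to `Om`.
`wt`: `(q/2) (1/Y) + p = 1/g - (q/2) Y = 1/z + b z + z² k - (q/2) Y`, and `Y = z y`, `y` analytic on
the disc (dslope), so `m = b + z k - (q/2) y`.
`ex`: `y` analytic, `y 0 = q/2`, no zeros; `e = 1 / y = z / Y`: by (X)
`e = (2/q)(1 - p z + b z² + z³ k) - z² y`, so `e = e₀ + e₁ z + e₂ z² + z³ E`, `E` analytic,
`e₀ = 2/q`, `e₁ = - 2 p / q`, `e₂ = 2 b / q - q / 2` (as `y = q/2 + z y₁`).  Then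
`- Y' / Y² = (1/Y)' = (e/z)' = - e₀ / z² + e₂ + 2 z E + z² E'`,
`Y' = q/2 + z Y₂`, `Y' / Y = 1/z - e'/e`, and `- e'/e = p + (p² + q²/2 - 2 b) z + z² (..)`
(`-e' = e (p + (p² + q²/2 - 2b) z) + O(z²)`: constant `- e₁ = e₀ p`, linear
`- 2 e₂ = e₀ (p² + q²/2 - 2 b) + e₁ p`).
Sum: `ξ Y'/Y + (τ q/2) ((1/Y)' - Y')`, constant coefficient
`ξ p + (τ q / 2)(2 b/q - q/2 - q/2) = ξ p + τ (b - q²/2)`. -/
def SpecLFT : Prop := ∀ (g : ℂ → ℂ) (b v₁ v₂ : ℂ), Nml g b → Om g v₁ → Om g v₂ → v₁ ≠ v₂ →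
  ∃ Y : ℂ → ℂ, Lift Y ((v₁ + v₂) / 2) ((v₁ - v₂) / 2) b

/-- STA [120].  Area comparison.  Proof: `Th Y` is injective on the punctured disc: if
`Th z = Th w` with both in the same case, `Y z = Y w`; in different cases `Y z * Y w = 1`.  Split the
punctured disc into `A = {‖Y‖ ≤ 1}` and `B = {‖Y‖ > 1}` (measurable); on `A` the derivative of
`1/Y` is `-Y'/Y²` and on `B` that of `Y` is `Y'`; change of variables
(`lintegral_image_eq_lintegral_abs_det_fderiv_mul`, `|det| = ‖derivative‖²` for complex linear maps)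
for `W * NN`: `NN (1/Y) ‖Y'/Y²‖² = ‖κ - ξ Y + κ Y²‖² ‖Y'/Y²‖² = JJ`,
`NN Y ‖Y'‖² = ‖κ - ξ/Y + κ/Y²‖² ‖Y'‖² = JJ`.  The two images are disjoint subsets of
`{‖Z‖ ≥ 1}`. -/
def SpecSTA : Prop := ∀ Y : ℂ → ℂ, AnalyticOnNhd ℂ Y (ball 0 1) → InjOn Y (ball 0 1) → Y 0 = 0 →
  (∀ z ∈ ball (0 : ℂ) 1, ∀ w ∈ ball (0 : ℂ) 1, Y z * Y w ≠ 1) →
  ∀ (κ : ℂ) (ξ : ℝ) (W : ℂ → ℝ≥0∞), Measurable W →
  ∫⁻ z in ball (0 : ℂ) 1 \ {0}, W (Th Y z) * ENNReal.ofReal (JJ Y κ ξ z) ≤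
    ∫⁻ Z in {Z : ℂ | 1 ≤ ‖Z‖}, W Z * ENNReal.ofReal (NN κ ξ Z)

/-- PAR [100].  Parseval on a circle, finite form.  Proof: expand the square; for `i ≠ j`
`∫ conj (z^i) z^j = 0`, and `∫ conj (z^j) z^J k(z) = t^(2j) ∫ z^(J-j) k(z) = 0` (`j < J`) because
`z^(J-j) k(z)` is analytic on the ball and vanishes at `0` (mean value property,
`circleAverage_of_differentiable_on...` or Cauchy). -/
def SpecPAR : Prop := ∀ (J : ℕ) (a : ℕ → ℂ) (k : ℂ → ℂ) (R t : ℝ), AnalyticOnNhd ℂ k (ball 0 R) →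
  0 < t → t < R →
  ∫ θ in (-π)..π, ‖(∑ j ∈ Finset.range J, a j * ((t : ℂ) * exp (θ * I)) ^ j) +
      ((t : ℂ) * exp (θ * I)) ^ J * k ((t : ℂ) * exp (θ * I))‖ ^ 2 =
    2 * π * ∑ j ∈ Finset.range J, ‖a j‖ ^ 2 * t ^ (2 * j) +
      ∫ θ in (-π)..π, ‖((t : ℂ) * exp (θ * I)) ^ J * k ((t : ℂ) * exp (θ * I))‖ ^ 2

/-- POL [80].  Polar coordinates in an annulus, real version.  Proof: `Complex.polarCoord`
(`Complex.integral_comp_polarCoord_symm`) and Fubini. -/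
def SpecPOL : Prop := ∀ (f : ℂ → ℝ) (a b : ℝ), 0 < a → a ≤ b →
  ContinuousOn f {z : ℂ | a ≤ ‖z‖ ∧ ‖z‖ ≤ b} →
  ∫ z in {z : ℂ | a < ‖z‖ ∧ ‖z‖ < b}, f z =
    ∫ t in a..b, t * ∫ θ in (-π)..π, f ((t : ℂ) * exp (θ * I))

/-- LOW [300].  Lower bound for the left-hand side of STA with the weight `Wt` (`κ = τ q / 2`,
`d = |q| e / 2`, `s = 2 p / q`, `e → 0`).  Proof (from PAR, POL): `m` as in `Lift.wt`,
`h₁ = ξ p + τ (b - q²/2)`, `J = - τ / z² + ξ / z + h₁ + h z + z² k`, so `JJ = ‖J‖²`.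
Choose `r₀ ∈ (0, r)` with `‖Y z‖ ≤ 1` for `‖z‖ ≤ r₀`.  For `0 < ‖z‖ < r₀`: `Th Y z = 1 / Y z` and
`d² ‖Th + s‖² = e² ‖(q/2)/Y + p‖² = e² ‖1/z + z m‖²`.  For `r₀ ≤ ‖z‖ < r`: `‖Th Y z‖ ≤ C` (`Y` is
bounded there, and bounded away from `0`: injective, `Y 0 = 0`, compactness), so
`Wt ≥ 1 - C' e²`.  Hence for small `e` the left-hand side is at least
`∫_{e<‖z‖<r} ‖J‖² - e² ∫_{e<‖z‖<r₀} ‖(1/z + z m) J‖² - C' e² ∫_{r₀≤‖z‖<r} ‖J‖²`.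
(`(x)₊ ≥ x`; all functions are continuous on the closed annuli.)
First integral, Parseval with `z² J = - τ + ξ z + h₁ z² + h z³ + z⁴ k`:
`≥ π (τ² (e⁻² - r⁻²) + 2 ξ² log (r/e) + ‖h₁‖² (r² - e²) + ‖h‖² (r⁴ - e⁴)/2)`.
Second: `z³ (1/z + z m) J = - τ + ξ z + z² n(z)`, `n` analytic on the disc:
`e² (π (τ² (e⁻⁴ - r₀⁻⁴)/2 + ξ² (e⁻² - r₀⁻²)) + C log (r₀/e)) = π (τ²/(2e²) + ξ²) + o(1)`. -/
def SpecLOW : Prop := ∀ (Y : ℂ → ℂ) (p q b : ℂ), Lift Y p q b → q ≠ 0 →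
  ∀ (ξ τ : ℝ) (h : ℂ) (k : ℂ → ℂ), AnalyticOnNhd ℂ k (ball 0 1) →
  (∀ z ∈ ball (0 : ℂ) 1, z ≠ 0 →
      deriv Y z * (ξ / Y z - (τ * q / 2) / (Y z) ^ 2 - (τ * q / 2)) =
        -τ / z ^ 2 + ξ / z + (ξ * p + τ * (b - q ^ 2 / 2)) + h * z + z ^ 2 * k z) →
  ∀ r : ℝ, 0 < r → r < 1 → ∀ η : ℝ, 0 < η → ∀ᶠ e in 𝓝[>] (0 : ℝ),
    ENNReal.ofReal (π * (τ ^ 2 / (2 * e ^ 2) - τ ^ 2 / r ^ 2 + 2 * ξ ^ 2 * Real.log (r / e) - ξ ^ 2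
      + ‖ξ * p + τ * (b - q ^ 2 / 2)‖ ^ 2 * r ^ 2 + ‖h‖ ^ 2 * r ^ 4 / 2) - η) ≤
    ∫⁻ z in ball (0 : ℂ) 1 \ {0},
      Wt (‖q‖ * e / 2) (2 * p / q) (Th Y z) * ENNReal.ofReal (JJ Y (τ * q / 2) ξ z)

/-- UPA [100].  The centred integral.  Proof: polar coordinates on `1 < ‖Z‖ < 1/d` (the weight
vanishes for `‖Z‖ ≥ 1/d`); the angular mean of `NN` at radius `t` is `‖κ‖² + ξ²/t² + ‖κ‖²/t⁴` (PAR
with `k = 0` for `κ Z² - ξ Z + κ`), so the integral is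
`2 π ∫_1^{1/d} (1 - d² t²) (‖κ‖² t + ξ²/t + ‖κ‖²/t³) dt =
π (‖κ‖²/(2d²) + 2 ξ² log (1/d) - ξ² + ξ² d² - ..)`; explicitly
`2 π (‖κ‖² (1/(4 d²) - 1/2 + d²/4) + ξ² (log (1/d) - (1 - d²)/2)
+ ‖κ‖² ((1 - d²)/2 - d² log (1/d)))`. -/
def SpecUPA : Prop := ∀ (κ : ℂ) (ξ η : ℝ), 0 < η → ∀ᶠ d in 𝓝[>] (0 : ℝ),
  ∫ Z in {Z : ℂ | 1 ≤ ‖Z‖}, wR d 0 Z * NN κ ξ Z ≤
    π * (‖κ‖ ^ 2 / (2 * d ^ 2) + 2 * ξ ^ 2 * Real.log (1 / d) - ξ ^ 2) + η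

/-- UPB [80].  Proof: `wR d s` is continuous with bounded support, `∫ wR d s = ∫ wR d 0` over `ℂ`
(translation invariance), so the integral over `{‖Z‖ ≥ 1}` is `- ∫_{‖Z‖<1} (wR d s - wR d 0)` and
`|wR d s Z - wR d 0 Z| ≤ d² (1 + |s|)² + d²` there. -/
def SpecUPB : Prop := ∀ s : ℂ,
  Tendsto (fun d : ℝ => ∫ Z in {Z : ℂ | 1 ≤ ‖Z‖}, (wR d s Z - wR d 0 Z)) (𝓝[>] 0) (𝓝 0)

/-- UPC [250].  The shift term.  Proof: `NN - ‖κ‖² = - 2 ξ Re (conj κ / Z) + r(Z)`,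
`|r(Z)| ≤ C / ‖Z‖²` for `‖Z‖ ≥ 1`.  `|wR d s - wR d 0| ≤ 3 d |s|` everywhere (for `d |s| ≤ 1`), zero
for `‖Z‖ ≥ 1/d + |s|`; so the `r` part is at most `3 d |s| ∫_{1≤‖Z‖≤2/d} C/‖Z‖² = O(d log (1/d))`.
In `‖Z‖ < ρ = 1/d - |s|`: `wR d s - wR d 0 = - d² (2 Re (conj s Z) + |s|²)`.
On the layer `ρ ≤ ‖Z‖ ≤ 1/d + |s|` (area `4 π |s| / d`): `≤ 3 d |s| · C d`, total `O(d)`.
Main part: `- d² ∫_{1≤‖Z‖<ρ} (2 Re (conj s Z) + |s|²) (- 2 ξ Re (conj κ / Z))`; polar coordinates,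
`Z = t exp(iθ)`: the `|s|²` part has angular mean zero, and the angular mean of
`2 Re (conj s Z) · Re (conj κ / Z)` is `Re (s κ)`.. (`Re (conj s e^{iθ}) Re (conj κ e^{-iθ})` has mean
`½ Re (conj s conj κ) = ½ Re (κ s)`), so it equals
`2 ξ d² Re (κ s) π (ρ² - 1) → 2 π ξ Re (κ s)`. -/
def SpecUPC : Prop := ∀ (κ s : ℂ) (ξ : ℝ),
  Tendsto (fun d : ℝ => ∫ Z in {Z : ℂ | 1 ≤ ‖Z‖}, (wR d s Z - wR d 0 Z) * (NN κ ξ Z - ‖κ‖ ^ 2))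
    (𝓝[>] 0) (𝓝 (2 * π * ξ * (κ * s).re))

/-- UPP [80].  Proof (from UPA, UPB, UPC): `Wt = ofReal wR`, everything is bounded with bounded
support on `{‖Z‖ ≥ 1}`, so the lintegral is `ofReal` of the Bochner integral
`∫ wR d s NN = ∫ wR d 0 NN + ‖κ‖² ∫ (wR d s - wR d 0) + ∫ (wR d s - wR d 0)(NN - ‖κ‖²)`. -/
def SpecUPP : Prop := ∀ (κ s : ℂ) (ξ η : ℝ), 0 < η → ∀ᶠ d in 𝓝[>] (0 : ℝ),
  ∫⁻ Z in {Z : ℂ | 1 ≤ ‖Z‖}, Wt d s Z * ENNReal.ofReal (NN κ ξ Z) ≤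
    ENNReal.ofReal (π * (‖κ‖ ^ 2 / (2 * d ^ 2) + 2 * ξ ^ 2 * Real.log (1 / d) - ξ ^ 2
      + 2 * ξ * (κ * s).re) + η)

/-- ARE [80].  The area inequalities.  Proof (from STA, LOW, UPP): `κ = τ q/2`, `s = 2 p/q`,
`d = |q| e/2`: `‖κ‖²/(2 d²) = τ²/(2 e²)`, `log (1/d) = log (1/e) + log (2/|q|)`,
`(κ s).re = τ p.re`.  So for all `r < 1`, `η > 0`:
`- τ²/r² + 2 ξ² log r + ‖h₁‖² r² + ‖h‖² r⁴/2 ≤ 2 ξ² log (2/|q|) + 2 ξ τ Re p + 2 η / π`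
(the argument of `ofReal` on the right must be positive, it tends to `+∞` or both sides are
compared by `ofReal_le_ofReal_iff'`; for `ξ = τ = 0` the claim is trivial).  Let `η → 0`, `r → 1`.
The second claim is `τ = 0`, `ξ = 1`. -/
def SpecARE : Prop := ∀ (Y : ℂ → ℂ) (p q b : ℂ), Lift Y p q b → q ≠ 0 →
  (∀ ξ τ : ℝ, ‖ξ * p + τ * (b - q ^ 2 / 2)‖ ^ 2 ≤
    τ ^ 2 + 2 * ξ ^ 2 * Real.log (2 / ‖q‖) + 2 * ξ * τ * p.re) ∧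
  ‖p‖ ^ 2 + ‖p ^ 2 + q ^ 2 / 2 - 2 * b‖ ^ 2 / 2 ≤ 2 * Real.log (2 / ‖q‖)

/-- ALG [40].  Pure algebra.  Proof: `x = Re p`, `a = Re A`.  `ξ = 1 + a`, `τ = - x`: the real part of
`ξ p + τ A` is `(1+a) x - x a = x`, so `x² ≤ x² + 2 (1+a)² L - 2 (1+a) x²`; if `1 + a > 0` divide.
`ξ = 0`, `τ = 1` gives `‖A‖ ≤ 1`, so `a ≥ -1`; if `a = -1`: `ξ = 1`, `τ` arbitrary:
`(x - τ)² ≤ τ² + 2 L + 2 τ x`, i.e. `x² ≤ 2 L + 4 τ x` for all `τ`, so `x = 0`. -/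
def SpecALG : Prop := ∀ (p A : ℂ) (L : ℝ), 
  (∀ ξ τ : ℝ, ‖ξ * p + τ * A‖ ^ 2 ≤ τ ^ 2 + 2 * ξ ^ 2 * L + 2 * ξ * τ * p.re) →
  p.re ^ 2 ≤ (1 + A.re) * L

/-- PRS [60].  The pair conditions for `g` with real `b = β`.  Proof (from ROT, LFT, ARE, ALG): for a
unit `u` apply LFT and ARE to `g_u` of ROT and `u v, u w` (omitted by `g_u`); `q = u (v - w)/2`,
`|q| = |v - w|/2`, `b = β u²`. -/
def SpecPRS : Prop := ∀ (g : ℂ → ℂ) (β : ℝ), Nml g β → ∀ v w : ℂ, Om g v → Om g w → v ≠ w →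
  PairOK β v w

/-- GEO (helper37).  The certificate. -/
def SpecGEO : Prop := ∀ (E : Set ℂ) (β : ℝ), IsCompact E → (0 : ℂ) ∈ E → 0 ≤ β → β ≤ 1 / 3 →
  (∀ v ∈ E, ∀ w ∈ E, v ≠ w → PairOK β v w) → Hits E (5 / 3) → False

/-- FIN [60] (helper37).  Proof (from BLO, ROT, OMC, PRS, HIT, GEO). -/
def SpecFIN : Prop := ENNReal.ofReal (3 / 5) ≤ S

end

end Pool.Agent.Lib.MP250511
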