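import Pool.Agent.Lib.MP_250511_an.Spec

/-!
Problem MP_250511_an: module HIT (circles around `0` meet the set of omitted values).
-/

set_option autoImplicit false

open MeasureTheory Set Filter Topology Metric Complex
open scoped Real ENNReal

namespace Pool.Agent.Lib.MP250511

namespace HITM

lemma circ_aux {a w : ℂ} {r P : ℝ} (hP : P = r ^ 2 - ‖a‖ ^ 2) (hP0 : 0 < P) (hr : 0 < r)
    (hw : ‖w - (-(starRingEnd ℂ) a / P)‖ = r / P) : w ≠ 0 ∧ ‖w⁻¹ - a‖ = r := by
  have hPc : (P : ℂ) ≠ 0 := by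
    exact_mod_cast hP0.ne'
  have h1 : ‖(P : ℂ) * w + (starRingEnd ℂ) a‖ = r := by
    have h2 : (P : ℂ) * w + (starRingEnd ℂ) a = P * (w - (-(starRingEnd ℂ) a / P)) := by
      field_simp
      ring
    rw [h2, norm_mul, hw, Complex.norm_real, Real.norm_of_nonneg hP0.le]
    field_simp
  have h3 : Complex.normSq ((P : ℂ) * w + (starRingEnd ℂ) a) = r ^ 2 := by
    rw [Complex.normSq_eq_norm_sq, h1]
  have hna : ‖a‖ ^ 2 = a.re * a.re + a.im * a.im := by
    rw [← Complex.normSq_eq_norm_sq, Complex.normSq_apply]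
  have h4 : P * (w.re * w.re + w.im * w.im) + 2 * (a.re * w.re - a.im * w.im) = 1 := by
    rw [Complex.normSq_apply] at h3
    simp only [Complex.add_re, Complex.add_im, Complex.mul_re, Complex.mul_im, Complex.ofReal_re,
      Complex.ofReal_im, Complex.conj_re, Complex.conj_im] at h3
    have h5 : P * (P * (w.re * w.re + w.im * w.im) + 2 * (a.re * w.re - a.im * w.im) - 1) = 0 := by
      have h6 : P = r ^ 2 - (a.re * a.re + a.im * a.im) := by rw [hP, hna]
      nlinarith [h3, h6]
    rcases mul_eq_zero.1 h5 with h | h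
    · exact absurd h hP0.ne'
    · linarith
  have hw0 : w ≠ 0 := by
    rintro rfl
    simp at h4
  refine ⟨hw0, ?_⟩
  have hwn : 0 < ‖w‖ := norm_pos_iff.2 hw0
  have h7 : ‖1 - a * w‖ = r * ‖w‖ := by
    have h8 : Complex.normSq (1 - a * w) = (r * ‖w‖) ^ 2 := by
      rw [mul_pow, ← Complex.normSq_eq_norm_sq w, Complex.normSq_apply, Complex.normSq_apply]
      simp only [Complex.sub_re, Complex.sub_im, Complex.mul_re, Complex.mul_im, Complex.one_re,
        Complex.one_im]
      have h6 : P = r ^ 2 - (a.re * a.re + a.im * a.im) := by rw [hP, hna]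
      rw [h6] at h4
      nlinarith [h4]
    rw [Complex.normSq_eq_norm_sq] at h8
    exact (pow_left_inj₀ (norm_nonneg _) (by positivity) two_ne_zero).1 h8
  have h9 : w⁻¹ - a = (1 - a * w) * w⁻¹ := by
    field_simp
  rw [h9, norm_mul, h7, norm_inv]
  field_simp

end HITM

theorem specHIT (hCIR : SpecCIR) : SpecHIT := by
  intro g hg D hD hno a r har hP
  by_contra hcon
  push Not at hcon
  apply hno
  set P : ℝ := r ^ 2 - ‖a‖ ^ 2 with hPd
  have hr : 0 < r := (norm_nonneg a).trans_lt har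
  have hP0 : 0 < P := by
    have := norm_nonneg a
    nlinarith
  refine ⟨-(starRingEnd ℂ) a / P, ?_⟩
  have hsub : sphere (-(starRingEnd ℂ) a / P) (r / P) ⊆ g '' ball 0 1 := by
    intro w hw
    rw [mem_sphere, dist_eq_norm] at hw
    obtain ⟨hw0, hwr⟩ := HITM.circ_aux hPd hP0 hr hw
    have h1 : ¬ Om g w⁻¹ := fun h => hcon w⁻¹ h hwr
    unfold Om at h1
    push Not at h1
    obtain ⟨z, hz, hzw⟩ := h1
    refine ⟨z, hz, ?_⟩
    field_simp at hzw
    exact hzw
  have hball := hCIR g hg.an hg.inj _ _ (div_pos hr hP0) hsub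
  refine (ball_subset_ball ?_).trans hball
  rw [div_le_div_iff₀ hD hP0]
  linarith

end Pool.Agent.Lib.MP250511
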