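import Pool.Agent.Lib.MP_250511_an.Spec

/-!
Problem MP_250511_an: module INV (injective analytic functions on the disc).  The section `inj` is a
copy of the section of the same name of `Pool/Agent/Lib/MP_fa0334_an/Conf.lean`.
-/

set_option autoImplicit false

open MeasureTheory Set Filter Topology Metric Complex
open scoped ContDiff ENNReal ComplexConjugate

namespace Pool.Agent.Lib.MP250511

namespace INVM

section inj

variable {D : Set ℂ} {F : ℂ → ℂ}

theorem open_image (hD : IsOpen D) (hc : IsPreconnected D) (hF : DifferentiableOn ℂ F D)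
    (hinj : InjOn F D) {s : Set ℂ} (hs : s ⊆ D) (hso : IsOpen s) : IsOpen (F '' s) := by
  rcases (hF.analyticOnNhd hD).is_constant_or_isOpen hc with ⟨w, hw⟩ | h
  · by_cases hne : s.Nonempty
    · exfalso
      obtain ⟨a, ha⟩ := hne
      obtain ⟨r, hr, hsub⟩ := Metric.isOpen_iff.1 hso a ha
      have hb : a + ((r / 2 : ℝ) : ℂ) ∈ s := by
        apply hsub
        rw [mem_ball, dist_eq_norm, add_sub_cancel_left, Complex.norm_real, Real.norm_of_nonneg
          (by positivity)]
        linarith
      have := hinj (hs ha) (hs hb) ((hw _ (hs ha)).trans (hw _ (hs hb)).symm)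
      have h2 : ((r / 2 : ℝ) : ℂ) = 0 := by
        linear_combination -this
      rw [Complex.ofReal_eq_zero] at h2
      linarith
    · rw [not_nonempty_iff_eq_empty] at hne
      rw [hne, image_empty]
      exact isOpen_empty
  · exact h s hs hso

theorem inv_cont (hD : IsOpen D) (hc : IsPreconnected D) (hF : DifferentiableOn ℂ F D)
    (hinj : InjOn F D) {a : ℂ} (ha : a ∈ D) : ContinuousAt (Function.invFunOn F D) (F a) := by
  have hl : LeftInvOn (Function.invFunOn F D) F D := hinj.leftInvOn_invFunOn
  rw [ContinuousAt, hl ha]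
  intro V hV
  obtain ⟨V', hV', hV'o, haV'⟩ := _root_.mem_nhds_iff.1 hV
  have ho : IsOpen (F '' (V' ∩ D)) :=
    open_image hD hc hF hinj inter_subset_right (hV'o.inter hD)
  refine Filter.mem_map.2 (mem_of_superset (ho.mem_nhds ⟨a, ⟨haV', ha⟩, rfl⟩) ?_)
  rintro _ ⟨z, ⟨hzV, hzD⟩, rfl⟩
  rw [mem_preimage, hl hzD]
  exact hV' hzV

/-- an injective holomorphic function has a nonvanishing derivative -/
theorem deriv_ne_of_inj (hD : IsOpen D) (hc : IsPreconnected D) (hF : DifferentiableOn ℂ F D)
    (hinj : InjOn F D) {a : ℂ} (ha : a ∈ D) : deriv F a ≠ 0 := by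
  intro h0
  have hl : LeftInvOn (Function.invFunOn F D) F D := hinj.leftInvOn_invFunOn
  have hFa : AnalyticOnNhd ℂ F D := hF.analyticOnNhd hD
  have hda : AnalyticAt ℂ (deriv F) a := (hFa a ha).deriv
  have hev : ∀ᶠ z in 𝓝[≠] a, deriv F z ≠ 0 := by
    rcases hda.eventually_eq_zero_or_eventually_ne_zero with h | h
    · exfalso
      obtain ⟨r, hr, hsub⟩ := Metric.eventually_nhds_iff_ball.1 (h.and (hD.mem_nhds ha))
      have hconst : ∀ z ∈ ball a r, F z = F a := by
        intro z hz
        have := (convex_ball a r).norm_image_sub_le_of_norm_deriv_le (f := F) (C := 0)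
          (fun w hw => hF.differentiableAt (hD.mem_nhds (hsub w hw).2))
          (fun w hw => by rw [(hsub w hw).1, norm_zero]) (mem_ball_self hr) hz
        rw [zero_mul] at this
        exact sub_eq_zero.1 (norm_le_zero_iff.1 this)
      have hb : a + ((r / 2 : ℝ) : ℂ) ∈ ball a r := by
        rw [mem_ball, dist_eq_norm, add_sub_cancel_left, Complex.norm_real, Real.norm_of_nonneg
          (by positivity)]
        linarith
      have := hinj (hsub _ hb).2 ha (hconst _ hb)
      have h2 : ((r / 2 : ℝ) : ℂ) = 0 := by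
        linear_combination this
      rw [Complex.ofReal_eq_zero] at h2
      linarith
    · exact h
  rw [eventually_nhdsWithin_iff] at hev
  obtain ⟨r, hr, hsub⟩ := Metric.eventually_nhds_iff_ball.1 (hev.and (hD.mem_nhds ha))
  set G := Function.invFunOn F D with hG
  have hballD : ball a r ⊆ D := fun z hz => (hsub z hz).2
  have hVo : IsOpen (F '' ball a r) := open_image hD hc hF hinj hballD isOpen_ball
  have hVn : F '' ball a r ∈ 𝓝 (F a) := hVo.mem_nhds ⟨a, mem_ball_self hr, rfl⟩
  have hGd : DifferentiableOn ℂ G ((F '' ball a r) \ {F a}) := by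
    rintro _ ⟨⟨z, hz, rfl⟩, hne⟩
    have hza : z ≠ a := by
      rintro rfl
      exact hne rfl
    have hd := (hF.differentiableAt (hD.mem_nhds (hballD hz))).hasDerivAt
    have hne' : deriv F z ≠ 0 := (hsub z hz).1 hza
    have hGz : G (F z) = z := hl (hballD hz)
    have hcz := inv_cont hD hc hF hinj (hballD hz)
    have h1 : ∀ᶠ y in 𝓝 (F z), F (G y) = y := by
      filter_upwards [hVo.mem_nhds ⟨z, hz, rfl⟩] with y hy
      obtain ⟨x, hx, rfl⟩ := hy
      rw [hl (hballD hx)]
    have := HasDerivAt.of_local_left_inverse (f := F) (g := G) (a := F z) (f' := deriv F z) hcz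
      (by rw [hGz]; exact hd) hne' h1
    exact this.differentiableAt.differentiableWithinAt
  have hGd' : DifferentiableOn ℂ G (F '' ball a r) :=
    (Complex.differentiableOn_compl_singleton_and_continuousAt_iff hVn).1
      ⟨hGd, inv_cont hD hc hF hinj ha⟩
  have hGa : DifferentiableAt ℂ G (F a) := hGd'.differentiableAt hVn
  have hFd := (hF.differentiableAt (hD.mem_nhds ha)).hasDerivAt
  have hcomp := hGa.hasDerivAt.comp a hFd
  rw [h0, mul_zero] at hcomp
  have hid : (G ∘ F) =ᶠ[𝓝 a] id := by
    filter_upwards [hD.mem_nhds ha] with z hz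
    exact hl hz
  have h1 := (hcomp.congr_of_eventuallyEq hid.symm).unique (hasDerivAt_id a)
  exact zero_ne_one h1

end inj

end INVM

open INVM in
theorem specINV : SpecINV := by
  intro g hg hinj
  have hD : IsOpen (ball (0 : ℂ) 1) := isOpen_ball
  have hc : IsPreconnected (ball (0 : ℂ) 1) := (convex_ball 0 1).isPreconnected
  have hF : DifferentiableOn ℂ g (ball 0 1) := hg.differentiableOn
  have hne : ∀ z ∈ ball (0 : ℂ) 1, deriv g z ≠ 0 := fun z hz => deriv_ne_of_inj hD hc hF hinj hz
  have hl : LeftInvOn (Function.invFunOn g (ball 0 1)) g (ball 0 1) := hinj.leftInvOn_invFunOn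
  have ho : IsOpen (g '' ball 0 1) := open_image hD hc hF hinj subset_rfl hD
  refine ⟨hne, ho, Function.invFunOn g (ball 0 1), fun z hz => ⟨hl hz, ?_⟩⟩
  have hd := (hF.differentiableAt (hD.mem_nhds hz)).hasDerivAt
  have h1 : ∀ᶠ y in 𝓝 (g z), g (Function.invFunOn g (ball 0 1) y) = y := by
    filter_upwards [ho.mem_nhds ⟨z, hz, rfl⟩] with y hy
    obtain ⟨x, hx, rfl⟩ := hy
    rw [hl hx]
  exact HasDerivAt.of_local_left_inverse (inv_cont hD hc hF hinj hz) (by rw [hl hz]; exact hd)
    (hne z hz) h1

end Pool.Agent.Lib.MP250511
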