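import Pool.Agent.Lib.MP_250511_an.Spec

/-!
Problem MP_250511_an, module LFT: the Bieberbach-Eilenberg function of two omitted values.
-/

set_option autoImplicit false

namespace Pool.Agent.Lib.MP250511.LFTM

open Complex Metric Set MeasureTheory Filter Topology
open scoped Real ENNReal Interval

/-- first order Taylor expansion with analytic remainder -/
lemma tay {φ : ℂ → ℂ} (h : AnalyticOnNhd ℂ φ (ball 0 1)) :
    ∃ ψ : ℂ → ℂ, AnalyticOnNhd ℂ ψ (ball 0 1) ∧ (∀ z, φ z = φ 0 + z * ψ z) ∧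
      ψ 0 = deriv φ 0 := by
  refine ⟨dslope φ 0, ?_, ?_, ?_⟩
  · apply DifferentiableOn.analyticOnNhd _ isOpen_ball
    rw [Complex.differentiableOn_dslope (isOpen_ball.mem_nhds (mem_ball_self one_pos))]
    exact h.differentiableOn
  · intro z
    have := sub_smul_dslope φ 0 z
    rw [smul_eq_mul, sub_zero] at this
    rw [this]; ring
  · exact dslope_same φ 0

/-- second order Taylor expansion with analytic remainder -/
lemma tay2 {φ : ℂ → ℂ} (h : AnalyticOnNhd ℂ φ (ball 0 1)) :
    ∃ (c : ℂ) (ψ : ℂ → ℂ), AnalyticOnNhd ℂ ψ (ball 0 1) ∧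
      (∀ z, φ z = φ 0 + c * z + z ^ 2 * ψ z) := by
  obtain ⟨φ₁, h₁, h₁e, -⟩ := tay h
  obtain ⟨φ₂, h₂, h₂e, -⟩ := tay h₁
  refine ⟨φ₁ 0, φ₂, h₂, fun z => ?_⟩
  rw [h₁e z, h₂e z]; ring

lemma zmem : (0 : ℂ) ∈ ball (0 : ℂ) 1 := mem_ball_self one_pos

end Pool.Agent.Lib.MP250511.LFTM

namespace Pool.Agent.Lib.MP250511

open Complex Metric Set MeasureTheory Filter Topology LFTM
open scoped Real ENNReal Interval

theorem specLFT (hSQR : SpecSQR) : SpecLFT := by
  intro g b v₁ v₂ hg hv₁ hv₂ hne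
  obtain ⟨k, hk, hke⟩ := hg.lau
  set p : ℂ := (v₁ + v₂) / 2 with hp
  set q : ℂ := (v₁ - v₂) / 2 with hq
  have hq0 : q ≠ 0 := by
    rw [hq]; exact div_ne_zero (sub_ne_zero.2 hne) two_ne_zero
  have hg0 : g 0 = 0 := hg.zero
  have hgne : ∀ z ∈ ball (0 : ℂ) 1, z ≠ 0 → g z ≠ 0 := by
    intro z hz hz0 h
    exact hz0 (hg.inj hz zmem (h.trans hg0.symm))
  -- the square root
  obtain ⟨s, hs, hs0, hse⟩ := hSQR (fun z => (1 - v₁ * g z) * (1 - v₂ * g z))
    ((analyticOnNhd_const.sub (analyticOnNhd_const.mul hg.an)).mul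
      (analyticOnNhd_const.sub (analyticOnNhd_const.mul hg.an)))
    (by
      intro z hz
      exact mul_ne_zero (sub_ne_zero.2 (hv₁ z hz).symm) (sub_ne_zero.2 (hv₂ z hz).symm))
    (by simp [hg0])
  set u : ℂ → ℂ := fun z => 1 - p * g z + s z with hu
  have hua : AnalyticOnNhd ℂ u (ball 0 1) :=
    (analyticOnNhd_const.sub (analyticOnNhd_const.mul hg.an)).add hs
  have huq : ∀ z ∈ ball (0 : ℂ) 1, u z * (1 - p * g z - s z) = q ^ 2 * g z ^ 2 := by
    intro z hz
    have := hse z hz
    have h2 : u z * (1 - p * g z - s z) = (1 - p * g z) ^ 2 - s z ^ 2 := by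
      simp only [hu]; ring
    rw [h2, this, hp, hq]; ring
  have hu0 : ∀ z ∈ ball (0 : ℂ) 1, u z ≠ 0 := by
    intro z hz h
    rcases eq_or_ne z 0 with rfl | hz0
    · simp only [hu, hg0, hs0] at h
      norm_num at h
    · have := huq z hz
      rw [h, zero_mul] at this
      exact mul_ne_zero (pow_ne_zero 2 hq0) (pow_ne_zero 2 (hgne z hz hz0)) this.symm
  set Y : ℂ → ℂ := fun z => q * g z / u z with hY
  have hYa : AnalyticOnNhd ℂ Y (ball 0 1) :=
    (analyticOnNhd_const.mul hg.an).div hua hu0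
  have hY0 : Y 0 = 0 := by simp [hY, hg0]
  have hYne : ∀ z ∈ ball (0 : ℂ) 1, z ≠ 0 → Y z ≠ 0 := by
    intro z hz hz0
    exact div_ne_zero (mul_ne_zero hq0 (hgne z hz hz0)) (hu0 z hz)
  have hX : ∀ z ∈ ball (0 : ℂ) 1, z ≠ 0 → Y z + (Y z)⁻¹ = (2 / q) * ((g z)⁻¹ - p) := by
    intro z hz hz0
    have h1 := hgne z hz hz0
    have h2 := hu0 z hz
    have h3 := huq z hz
    have h4 : q * g z / u z = (1 - p * g z - s z) / (q * g z) := by
      rw [div_eq_div_iff h2 (mul_ne_zero hq0 h1)]
      linear_combination (-1 : ℂ) * h3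
    have h5 : Y z + (Y z)⁻¹ = (1 - p * g z - s z) / (q * g z) + u z / (q * g z) := by
      simp only [hY]
      rw [inv_div]
      congr 1
    rw [h5]
    simp only [hu]
    field_simp
    ring
  have hYinj : InjOn Y (ball 0 1) := by
    intro z hz w hw h
    rcases eq_or_ne z 0 with hz0 | hz0
    · rcases eq_or_ne w 0 with hw0 | hw0
      · rw [hz0, hw0]
      · exfalso
        rw [hz0, hY0] at h
        exact hYne w hw hw0 h.symm
    · rcases eq_or_ne w 0 with hw0 | hw0
      · exfalso
        rw [hw0, hY0] at h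
        exact hYne z hz hz0 h
      · have e1 := hX z hz hz0
        have e2 := hX w hw hw0
        rw [h, e2] at e1
        have e3 : (g w)⁻¹ - p = (g z)⁻¹ - p :=
          mul_left_cancel₀ (div_ne_zero two_ne_zero hq0) e1
        have e4 : (g w)⁻¹ = (g z)⁻¹ := by linear_combination e3
        exact hg.inj hz hw (inv_injective e4).symm
  have hYYne : ∀ z ∈ ball (0 : ℂ) 1, ∀ w ∈ ball (0 : ℂ) 1, Y z * Y w ≠ 1 := by
    intro z hz w hw h
    have hz0 : z ≠ 0 := by
      rintro rfl
      rw [hY0, zero_mul] at h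
      exact zero_ne_one h
    have hw0 : w ≠ 0 := by
      rintro rfl
      rw [hY0, mul_zero] at h
      exact zero_ne_one h
    have e1 := hX z hz hz0
    have e2 := hX w hw hw0
    have e0 : Y w = (Y z)⁻¹ := eq_inv_of_mul_eq_one_right h
    rw [e0, inv_inv, add_comm, e1] at e2
    have e3 : (g z)⁻¹ - p = (g w)⁻¹ - p :=
      mul_left_cancel₀ (div_ne_zero two_ne_zero hq0) e2
    have e4 : (g z)⁻¹ = (g w)⁻¹ := by linear_combination e3
    have e5 : z = w := hg.inj hz hw (inv_injective e4)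
    rw [← e5] at h
    have e6 : (Y z - 1) * (Y z + 1) = 0 := by linear_combination h
    have hgz := hgne z hz hz0
    rcases mul_eq_zero.1 e6 with h7 | h7
    · have h8 : Y z = 1 := by linear_combination h7
      rw [h8] at e1
      have h9 : (g z)⁻¹ = v₁ := by
        have : q * (1 + 1⁻¹) = 2 * ((g z)⁻¹ - p) := by
          rw [e1]; field_simp
        rw [hp, hq] at this
        norm_num at this
        linear_combination (-1 / 2 : ℂ) * this
      apply hv₁ z hz
      rw [← h9]
      exact inv_mul_cancel₀ hgz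
    · have h8 : Y z = -1 := by linear_combination h7
      rw [h8] at e1
      have h9 : (g z)⁻¹ = v₂ := by
        have : q * (-1 + (-1)⁻¹) = 2 * ((g z)⁻¹ - p) := by
          rw [e1]; field_simp
        rw [hp, hq] at this
        norm_num at this
        linear_combination (-1 / 2 : ℂ) * this
      apply hv₂ z hz
      rw [← h9]
      exact inv_mul_cancel₀ hgz
  -- y = Y / z
  obtain ⟨y, hya, hye, hy0⟩ := tay hYa
  have hye' : ∀ z, Y z = z * y z := by
    intro z; rw [hye z, hY0, zero_add]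
  have hy00 : y 0 = q / 2 := by
    have d1 : HasDerivAt g (deriv g 0) 0 := (hg.an 0 zmem).differentiableAt.hasDerivAt
    have d2 : HasDerivAt u (deriv u 0) 0 := (hua 0 zmem).differentiableAt.hasDerivAt
    rw [hg.one] at d1
    have d3 : HasDerivAt Y ((q * 1 * u 0 - q * g 0 * deriv u 0) / u 0 ^ 2) 0 :=
      (d1.const_mul q).div d2 (hu0 0 zmem)
    rw [hy0, d3.deriv]
    have : u 0 = 2 := by
      simp only [hu, hg0, hs0]; norm_num
    rw [this, hg0]
    ring
  have hyne : ∀ z ∈ ball (0 : ℂ) 1, y z ≠ 0 := by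
    intro z hz h
    rcases eq_or_ne z 0 with rfl | hz0
    · rw [hy00] at h
      exact hq0 (by simpa using h)
    · apply hYne z hz hz0
      rw [hye' z, h, mul_zero]
  obtain ⟨y₁, hy₁a, hy₁e, -⟩ := tay hya
  refine ⟨Y, hYa, hYinj, hY0, hYYne, ?_, ?_⟩
  · refine ⟨fun z => b + z * k z - q / 2 * y z, ?_, ?_⟩
    · exact ((analyticOnNhd_const.add (analyticOnNhd_id.mul hk)).sub
        (analyticOnNhd_const.mul hya))
    · intro z hz hz0
      have e1 := hX z hz hz0
      have e2 := hke z hz hz0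
      have e3 := hye' z
      have e4 : (Y z)⁻¹ = (2 / q) * ((g z)⁻¹ - p) - Y z := by linear_combination e1
      rw [e4, e2, e3]
      field_simp
      ring
  · intro ξ τ
    set e : ℂ → ℂ := fun z => (y z)⁻¹ with he
    have hea : AnalyticOnNhd ℂ e (ball 0 1) := hya.inv hyne
    set E : ℂ → ℂ := fun z => (2 / q) * k z - y₁ z with hE
    have hEa : AnalyticOnNhd ℂ E (ball 0 1) := (analyticOnNhd_const.mul hk).sub hy₁a
    have hee : ∀ z ∈ ball (0 : ℂ) 1,
        e z = 2 / q + (-(2 * p / q)) * z + (2 * b / q - q / 2) * z ^ 2 + z ^ 3 * E z := by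
      intro z hz
      rcases eq_or_ne z 0 with rfl | hz0
      · simp only [he, hy00]
        field_simp
        ring
      · have e1 := hX z hz hz0
        have e2 := hke z hz hz0
        have e3 := hye' z
        have e4 : e z = z * (Y z)⁻¹ := by
          simp only [he]
          rw [e3]
          field_simp
        have e5 : (Y z)⁻¹ = (2 / q) * ((g z)⁻¹ - p) - Y z := by linear_combination e1
        have e6 := hy₁e z
        rw [hy00] at e6
        rw [e4, e5, e2, e3, e6]
        simp only [hE]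
        field_simp
        ring
    have hed : ∀ z ∈ ball (0 : ℂ) 1, HasDerivAt e
        (-(2 * p / q) + 2 * (2 * b / q - q / 2) * z + 3 * z ^ 2 * E z + z ^ 3 * deriv E z) z := by
      intro z hz
      have d1 : HasDerivAt E (deriv E z) z := (hEa z hz).differentiableAt.hasDerivAt
      have d2 : HasDerivAt (fun z => 2 / q + (-(2 * p / q)) * z + (2 * b / q - q / 2) * z ^ 2
          + z ^ 3 * E z) (0 + (-(2 * p / q)) * 1 + (2 * b / q - q / 2) * ((2 : ℕ) * z ^ (2 - 1))
          + (((3 : ℕ) * z ^ (3 - 1)) * E z + z ^ 3 * deriv E z)) z :=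
        (((hasDerivAt_const z _).add ((hasDerivAt_id z).const_mul _)).add
          ((hasDerivAt_pow 2 z).const_mul _)).add ((hasDerivAt_pow 3 z).mul d1)
      have d3 := d2.congr_of_eventuallyEq (f₁ := e) (by
        filter_upwards [isOpen_ball.mem_nhds hz] with w hw
        exact hee w hw)
      have d4 : (0 + (-(2 * p / q)) * 1 + (2 * b / q - q / 2) * ((2 : ℕ) * z ^ (2 - 1))
          + (((3 : ℕ) * z ^ (3 - 1)) * E z + z ^ 3 * deriv E z) : ℂ) =
          -(2 * p / q) + 2 * (2 * b / q - q / 2) * z + 3 * z ^ 2 * E z + z ^ 3 * deriv E z := by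
        push_cast
        ring
      exact d4 ▸ d3
    have hene : ∀ z ∈ ball (0 : ℂ) 1, e z ≠ 0 := fun z hz => inv_ne_zero (hyne z hz)
    -- the derivative of Y
    have hYd : ∀ z ∈ ball (0 : ℂ) 1, deriv Y z =
        (e z - z * (-(2 * p / q) + 2 * (2 * b / q - q / 2) * z + 3 * z ^ 2 * E z
          + z ^ 3 * deriv E z)) / e z ^ 2 := by
      intro z hz
      have d1 := (hasDerivAt_id z).div (hed z hz) (hene z hz)
      have d2 := d1.congr_of_eventuallyEq (f₁ := Y) (by
        filter_upwards with w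
        rw [hye' w]
        simp only [he, Pi.div_apply, id, div_inv_eq_mul])
      rw [d2.deriv]
      simp only [id]
      ring
    have hdYa : AnalyticOnNhd ℂ (deriv Y) (ball 0 1) := hYa.deriv
    obtain ⟨Y₂, Y₃, hY₃a, hY₃e⟩ := tay2 hdYa
    have hdY0 : deriv Y 0 = q / 2 := by rw [← hy0, hy00]
    obtain ⟨E₁, hE₁a, hE₁e, -⟩ := tay hEa
    set c : ℂ := p ^ 2 + q ^ 2 / 2 - 2 * b with hc
    refine ⟨ξ * c + τ * q / 2 * (2 * E 0 - Y₂),
      fun z => ξ * ((-3 * E z - z * deriv E z - (-(2 * p / q) * c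
        + (2 * b / q - q / 2) * (p + c * z) + z * E z * (p + c * z))) * (e z)⁻¹)
        + τ * q / 2 * (2 * E₁ z + deriv E z) - τ * q / 2 * Y₃ z, ?_, ?_, ?_⟩
    · intro h0
      rw [h0]; simp
    · have hi : AnalyticOnNhd ℂ (fun z : ℂ => z) (ball 0 1) := analyticOnNhd_id
      have hcst : ∀ a : ℂ, AnalyticOnNhd ℂ (fun _ : ℂ => a) (ball 0 1) :=
        fun a => analyticOnNhd_const
      have h1 : AnalyticOnNhd ℂ (fun z : ℂ => p + c * z) (ball 0 1) :=
        (hcst p).add ((hcst c).mul hi)
      exact (((hcst ξ).mul ((((((hcst (-3)).mul hEa).sub (hi.mul hEa.deriv)).sub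
        (((hcst (-(2 * p / q) * c)).add ((hcst (2 * b / q - q / 2)).mul h1)).add
          ((hi.mul hEa).mul h1)))).mul (hea.inv hene |>.congr isOpen_ball (fun z _ => rfl)))).add
        ((hcst (τ * q / 2)).mul (((hcst 2).mul hE₁a).add hEa.deriv))).sub
        ((hcst (τ * q / 2)).mul hY₃a)
    · intro z hz hz0
      have e1 : deriv Y z * (ξ / Y z - (τ * q / 2) / (Y z) ^ 2 - (τ * q / 2)) =
          ξ * (deriv Y z / Y z) - (τ * q / 2) * (deriv Y z / (Y z) ^ 2)
            - (τ * q / 2) * deriv Y z := by ring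
      have hez := hene z hz
      have hYe : Y z = z / e z := by
        rw [hye' z]
        simp only [he, div_inv_eq_mul]
      set e' : ℂ := -(2 * p / q) + 2 * (2 * b / q - q / 2) * z + 3 * z ^ 2 * E z
          + z ^ 3 * deriv E z with he'
      have hdz : deriv Y z = (e z - z * e') / e z ^ 2 := hYd z hz
      have e2 : deriv Y z / Y z = z⁻¹ - e' / e z := by
        rw [hdz, hYe]
        field_simp
      have e3 : deriv Y z / (Y z) ^ 2 = e z / z ^ 2 - e' / z := by
        rw [hdz, hYe]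
        field_simp
      have e4 : - e' = e z * (p + c * z) + z ^ 2 * (-3 * E z - z * deriv E z - (-(2 * p / q) * c
        + (2 * b / q - q / 2) * (p + c * z) + z * E z * (p + c * z))) := by
        rw [hee z hz, he', hc]
        field_simp
        ring
      have e5 : - (e' / e z) = (p + c * z) + z ^ 2 * ((-3 * E z - z * deriv E z
        - (-(2 * p / q) * c + (2 * b / q - q / 2) * (p + c * z) + z * E z * (p + c * z)))
          * (e z)⁻¹) := by
        rw [← neg_div, e4]
        field_simp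
      have e6 : e z / z ^ 2 - e' / z = 2 / q / z ^ 2 - (2 * b / q - q / 2) - 2 * z * E z
          - z ^ 2 * deriv E z := by
        rw [hee z hz, he']
        field_simp
        ring
      have e7 := hY₃e z
      rw [hdY0] at e7
      have e8 := hE₁e z
      rw [e1, e2, e3, e6, e7, sub_eq_add_neg z⁻¹ (e' / e z), e5]
      beta_reduce
      generalize (-3 * E z - z * deriv E z
        - (-(2 * p / q) * c + (2 * b / q - q / 2) * (p + c * z) + z * E z * (p + c * z)))
          * (e z)⁻¹ = WW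
      rw [e8]
      field_simp
      ring

end Pool.Agent.Lib.MP250511
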