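import Pool.Agent.Lib.MP_250511_an.Spec

/-!
# MP_250511_an, module LOW: lower bound for the weighted area
-/

set_option autoImplicit false

namespace Pool.Agent.Lib.MP250511

open Complex Metric Set MeasureTheory Filter Topology
open scoped Real ENNReal

namespace LOWM

/-- open annulus -/
def An (a b : ℝ) : Set ℂ := {z | a < ‖z‖ ∧ ‖z‖ < b}

/-- closed annulus -/
def Ac (a b : ℝ) : Set ℂ := {z | a ≤ ‖z‖ ∧ ‖z‖ ≤ b}

lemma isCompact_Ac (a b : ℝ) : IsCompact (Ac a b) := by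
  have h1 : IsClosed (Ac a b) :=
    (isClosed_le continuous_const continuous_norm).inter
      (isClosed_le continuous_norm continuous_const)
  refine (isCompact_closedBall (0 : ℂ) b).of_isClosed_subset h1 ?_
  intro z hz
  rw [mem_closedBall, dist_zero_right]
  exact hz.2

lemma An_sub_Ac (a b : ℝ) : An a b ⊆ Ac a b := fun _ hz => ⟨hz.1.le, hz.2.le⟩

lemma meas_An (a b : ℝ) : MeasurableSet (An a b) :=
  ((isOpen_lt continuous_const continuous_norm).inter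
    (isOpen_lt continuous_norm continuous_const)).measurableSet

lemma intOn {f : ℂ → ℝ} {a b : ℝ} (hf : ContinuousOn f (Ac a b)) : IntegrableOn f (An a b) :=
  (hf.integrableOn_compact (isCompact_Ac a b)).mono_set (An_sub_Ac a b)

lemma norm_pt (t θ : ℝ) (ht : 0 < t) : ‖(t : ℂ) * exp (θ * I)‖ = t := by
  rw [norm_mul, Complex.norm_exp_ofReal_mul_I, mul_one, Complex.norm_real, Real.norm_eq_abs,
    abs_of_pos ht]

lemma phiCont {f : ℂ → ℝ} {a b : ℝ} (ha : 0 < a) (hab : a ≤ b) (hf : ContinuousOn f (Ac a b)) :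
    ContinuousOn (fun t : ℝ => ∫ θ in (-π)..π, f ((t : ℂ) * exp (θ * I))) (Icc a b) := by
  have h1 : Continuous (fun t : ℝ => ∫ θ in (-π)..π,
      f (((max a (min b t) : ℝ) : ℂ) * exp ((θ : ℂ) * I))) := by
    apply intervalIntegral.continuous_parametric_intervalIntegral_of_continuous'
    have h2 : Continuous (fun x : ℝ × ℝ => ((max a (min b x.1) : ℝ) : ℂ) * exp ((x.2 : ℂ) * I)) := by
      fun_prop
    have h3 : ∀ x : ℝ × ℝ, ((max a (min b x.1) : ℝ) : ℂ) * exp ((x.2 : ℂ) * I) ∈ Ac a b := by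
      intro x
      have h4 : 0 < max a (min b x.1) := lt_max_of_lt_left ha
      have h5 := norm_pt _ x.2 h4
      refine ⟨?_, ?_⟩
      · rw [h5]; exact le_max_left _ _
      · rw [h5]; exact max_le hab (min_le_left _ _)
    exact hf.comp_continuous h2 h3
  refine h1.continuousOn.congr ?_
  intro t ht
  have h6 : max a (min b t) = t := by rw [min_eq_right ht.2, max_eq_right ht.1]
  simp only
  rw [h6]

lemma ofReal_integral_le {f : ℂ → ℝ} {s : Set ℂ} (hf : IntegrableOn f s) :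
    ENNReal.ofReal (∫ z in s, f z) ≤ ∫⁻ z in s, ENNReal.ofReal (f z) := by
  have h1 : Integrable (fun z => max (f z) 0) (volume.restrict s) := hf.pos_part
  have h2 : ∫ z in s, f z ≤ ∫ z in s, max (f z) 0 :=
    integral_mono hf h1 fun z => le_max_left _ _
  have h3 := ofReal_integral_eq_lintegral_ofReal h1 (Eventually.of_forall fun z => le_max_right _ _)
  calc ENNReal.ofReal (∫ z in s, f z) ≤ ENNReal.ofReal (∫ z in s, max (f z) 0) :=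
        ENNReal.ofReal_le_ofReal h2
    _ = ∫⁻ z in s, ENNReal.ofReal (max (f z) 0) := h3
    _ = ∫⁻ z in s, ENNReal.ofReal (f z) := by
        congr 1
        ext z
        rw [ENNReal.ofReal_max, ENNReal.ofReal_zero, max_eq_left zero_le]

/-- the function `z² J` -/
noncomputable def FF (τ ξ : ℝ) (h₁ h : ℂ) (k : ℂ → ℂ) (z : ℂ) : ℂ :=
  -τ + ξ * z + h₁ * z ^ 2 + h * z ^ 3 + z ^ 4 * k z

/-- the function `J` -/
noncomputable def Jf (τ ξ : ℝ) (h₁ h : ℂ) (k : ℂ → ℂ) (z : ℂ) : ℂ :=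
  -τ / z ^ 2 + ξ / z + h₁ + h * z + z ^ 2 * k z

lemma Jf_eq (τ ξ : ℝ) (h₁ h : ℂ) (k : ℂ → ℂ) {z : ℂ} (hz : z ≠ 0) :
    Jf τ ξ h₁ h k z = FF τ ξ h₁ h k z / z ^ 2 := by
  unfold Jf FF
  field_simp

lemma ball_sub {b : ℝ} (hb : b < 1) {z : ℂ} (hz : ‖z‖ ≤ b) : z ∈ ball (0 : ℂ) 1 := by
  rw [mem_ball, dist_zero_right]
  linarith

lemma contJ {τ ξ : ℝ} {h₁ h : ℂ} {k : ℂ → ℂ} (hk : AnalyticOnNhd ℂ k (ball 0 1)) {a b : ℝ}
    (ha : 0 < a) (hb : b < 1) : ContinuousOn (Jf τ ξ h₁ h k) (Ac a b) := by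
  intro z hz
  have hz0 : z ≠ 0 := by
    intro h0
    have := hz.1
    rw [h0, norm_zero] at this
    linarith
  have hkc : ContinuousAt k z := (hk z (ball_sub hb hz.2)).continuousAt
  have h2 : z ^ 2 ≠ 0 := pow_ne_zero _ hz0
  apply ContinuousAt.continuousWithinAt
  unfold Jf
  fun_prop (disch := assumption)

/-- lower bound of the angular mean -/
lemma ang1 (hPAR : SpecPAR) {τ ξ : ℝ} {h₁ h : ℂ} {k : ℂ → ℂ} (hk : AnalyticOnNhd ℂ k (ball 0 1))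
    {t : ℝ} (ht : 0 < t) (ht1 : t < 1) :
    2 * π * (τ ^ 2 / t ^ 4 + ξ ^ 2 / t ^ 2 + ‖h₁‖ ^ 2 + ‖h‖ ^ 2 * t ^ 2) ≤
      ∫ θ in (-π)..π, ‖Jf τ ξ h₁ h k ((t : ℂ) * exp (θ * I))‖ ^ 2 := by
  have h1 := hPAR 4 (fun j => if j = 0 then -(τ : ℂ) else if j = 1 then (ξ : ℂ) else
    if j = 2 then h₁ else h) k 1 t hk ht ht1
  simp only [Finset.sum_range_succ, Finset.sum_range_zero, zero_add, pow_zero, mul_one, pow_one,
    if_true, one_ne_zero, if_false, OfNat.ofNat_ne_zero, OfNat.ofNat_ne_one, mul_zero,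
    (by norm_num : (3 : ℕ) = 2 ↔ False)] at h1
  have h2 : ∀ θ : ℝ, ‖Jf τ ξ h₁ h k ((t : ℂ) * exp (θ * I))‖ ^ 2 =
      ‖FF τ ξ h₁ h k ((t : ℂ) * exp (θ * I))‖ ^ 2 / t ^ 4 := by
    intro θ
    have h3 := norm_pt t θ ht
    have h4 : (t : ℂ) * exp (θ * I) ≠ 0 := by
      rw [← norm_pos_iff, h3]
      exact ht
    rw [Jf_eq _ _ _ _ _ h4, norm_div, norm_pow, h3, div_pow]
    congr 1
    ring
  simp_rw [h2]
  rw [intervalIntegral.integral_div, le_div_iff₀ (by positivity)]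
  have h5 : ∫ θ in (-π)..π, ‖FF τ ξ h₁ h k ((t : ℂ) * exp (θ * I))‖ ^ 2 =
      2 * π * (‖-(τ : ℂ)‖ ^ 2 + ‖(ξ : ℂ)‖ ^ 2 * t ^ 2 + ‖h₁‖ ^ 2 * t ^ (2 * 2) +
        ‖h‖ ^ 2 * t ^ (2 * 3)) +
      ∫ θ in (-π)..π, ‖((t : ℂ) * exp (θ * I)) ^ 4 * k ((t : ℂ) * exp (θ * I))‖ ^ 2 := by
    exact h1
  have h6 : 0 ≤ ∫ θ in (-π)..π, ‖((t : ℂ) * exp (θ * I)) ^ 4 * k ((t : ℂ) * exp (θ * I))‖ ^ 2 := by
    apply intervalIntegral.integral_nonneg (by linarith [Real.pi_pos])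
    intro θ _
    positivity
  rw [h5, norm_neg, Complex.norm_real, Complex.norm_real, Real.norm_eq_abs, Real.norm_eq_abs,
    sq_abs, sq_abs]
  have h7 : 2 * π * (τ ^ 2 / t ^ 4 + ξ ^ 2 / t ^ 2 + ‖h₁‖ ^ 2 + ‖h‖ ^ 2 * t ^ 2) * t ^ 4 =
      2 * π * (τ ^ 2 + ξ ^ 2 * t ^ 2 + ‖h₁‖ ^ 2 * t ^ (2 * 2) + ‖h‖ ^ 2 * t ^ (2 * 3)) := by
    field_simp
    ring
  rw [h7]
  linarith

/-- the function `n` -/
noncomputable def nn (τ ξ : ℝ) (h₁ h : ℂ) (k m : ℂ → ℂ) (z : ℂ) : ℂ :=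
  h₁ + h * z + z ^ 2 * k z + m z * FF τ ξ h₁ h k z

lemma an_nn {τ ξ : ℝ} {h₁ h : ℂ} {k m : ℂ → ℂ} (hk : AnalyticOnNhd ℂ k (ball 0 1))
    (hm : AnalyticOnNhd ℂ m (ball 0 1)) : AnalyticOnNhd ℂ (nn τ ξ h₁ h k m) (ball 0 1) := by
  intro z hz
  have h1 := hk z hz
  have h2 := hm z hz
  unfold nn FF
  fun_prop

lemma E_eq (τ ξ : ℝ) (h₁ h : ℂ) (k m : ℂ → ℂ) {z : ℂ} (hz : z ≠ 0) :
    (z⁻¹ + z * m z) * Jf τ ξ h₁ h k z = (-τ + ξ * z + z ^ 2 * nn τ ξ h₁ h k m z) / z ^ 3 := by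
  rw [Jf_eq _ _ _ _ _ hz]
  unfold nn FF
  field_simp
  ring

/-- upper bound of the angular mean -/
lemma ang2 (hPAR : SpecPAR) {τ ξ : ℝ} {h₁ h : ℂ} {k m : ℂ → ℂ} (hk : AnalyticOnNhd ℂ k (ball 0 1))
    (hm : AnalyticOnNhd ℂ m (ball 0 1)) {t M : ℝ} (ht : 0 < t) (ht1 : t < 1)
    (hM : ∀ z : ℂ, ‖z‖ = t → ‖nn τ ξ h₁ h k m z‖ ≤ M) :
    ∫ θ in (-π)..π, ‖(((t : ℂ) * exp (θ * I))⁻¹ + ((t : ℂ) * exp (θ * I)) *
        m ((t : ℂ) * exp (θ * I))) * Jf τ ξ h₁ h k ((t : ℂ) * exp (θ * I))‖ ^ 2 ≤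
      2 * π * (τ ^ 2 / t ^ 6 + ξ ^ 2 / t ^ 4 + M ^ 2 / t ^ 2) := by
  have h1 := hPAR 2 (fun j => if j = 0 then -(τ : ℂ) else (ξ : ℂ)) (nn τ ξ h₁ h k m) 1 t
    (an_nn hk hm) ht ht1
  simp only [Finset.sum_range_succ, Finset.sum_range_zero, zero_add, pow_zero, mul_one, pow_one,
    if_true, one_ne_zero, if_false, mul_zero] at h1
  have h2 : ∀ θ : ℝ, ‖(((t : ℂ) * exp (θ * I))⁻¹ + ((t : ℂ) * exp (θ * I)) *
        m ((t : ℂ) * exp (θ * I))) * Jf τ ξ h₁ h k ((t : ℂ) * exp (θ * I))‖ ^ 2 =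
      ‖-(τ : ℂ) + ξ * ((t : ℂ) * exp (θ * I)) + ((t : ℂ) * exp (θ * I)) ^ 2 *
        nn τ ξ h₁ h k m ((t : ℂ) * exp (θ * I))‖ ^ 2 / t ^ 6 := by
    intro θ
    have h3 := norm_pt t θ ht
    have h4 : (t : ℂ) * exp (θ * I) ≠ 0 := by
      rw [← norm_pos_iff, h3]
      exact ht
    rw [E_eq _ _ _ _ _ _ h4, norm_div, norm_pow, h3, div_pow]
    congr 1
    ring
  simp_rw [h2]
  rw [intervalIntegral.integral_div, div_le_iff₀ (by positivity)]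
  have h6 : ∫ θ in (-π)..π, ‖((t : ℂ) * exp (θ * I)) ^ 2 *
      nn τ ξ h₁ h k m ((t : ℂ) * exp (θ * I))‖ ^ 2 ≤ 2 * π * (t ^ 4 * M ^ 2) := by
    have hc : ContinuousOn (fun z : ℂ => ‖z ^ 2 * nn τ ξ h₁ h k m z‖ ^ 2) (Ac t t) := by
      intro z hz
      have h7 := (an_nn (τ := τ) (ξ := ξ) (h₁ := h₁) (h := h) hk hm z
        (ball_sub ht1 hz.2)).continuousAt
      apply ContinuousAt.continuousWithinAt
      fun_prop
    have hint : IntervalIntegrable (fun θ : ℝ => ‖((t : ℂ) * exp (θ * I)) ^ 2 *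
      nn τ ξ h₁ h k m ((t : ℂ) * exp (θ * I))‖ ^ 2) volume (-π) π := by
      apply Continuous.intervalIntegrable
      refine hc.comp_continuous (f := fun θ : ℝ => (t : ℂ) * exp (θ * I)) (by fun_prop) ?_
      intro θ
      rw [Ac, mem_ofPred_eq, norm_pt t θ ht]
      exact ⟨le_rfl, le_rfl⟩
    have h8 : ∫ θ in (-π)..π, ‖((t : ℂ) * exp (θ * I)) ^ 2 *
      nn τ ξ h₁ h k m ((t : ℂ) * exp (θ * I))‖ ^ 2 ≤ ∫ θ in (-π)..π, t ^ 4 * M ^ 2 := by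
      apply intervalIntegral.integral_mono_on (by linarith [Real.pi_pos]) hint
        intervalIntegrable_const
      intro θ _
      have h9 := hM _ (norm_pt t θ ht)
      rw [norm_mul, norm_pow, norm_pt t θ ht, mul_pow, ← pow_mul]
      have h10 : ‖nn τ ξ h₁ h k m ((t : ℂ) * exp (θ * I))‖ ^ 2 ≤ M ^ 2 :=
        pow_le_pow_left₀ (norm_nonneg _) h9 2
      exact mul_le_mul_of_nonneg_left h10 (by positivity)
    refine h8.trans (le_of_eq ?_)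
    rw [intervalIntegral.integral_const, smul_eq_mul]
    ring
  rw [h1, norm_neg, Complex.norm_real, Complex.norm_real, Real.norm_eq_abs, Real.norm_eq_abs,
    sq_abs, sq_abs]
  have h7 : 2 * π * (τ ^ 2 / t ^ 6 + ξ ^ 2 / t ^ 4 + M ^ 2 / t ^ 2) * t ^ 6 =
      2 * π * (τ ^ 2 + ξ ^ 2 * t ^ 2) + 2 * π * (t ^ 4 * M ^ 2) := by
    field_simp
  rw [h7]
  linarith

/-- lower bound for the integral over an annulus -/
lemma I1 (hPAR : SpecPAR) (hPOL : SpecPOL) {τ ξ : ℝ} {h₁ h : ℂ} {k : ℂ → ℂ}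
    (hk : AnalyticOnNhd ℂ k (ball 0 1)) {a b : ℝ} (ha : 0 < a) (hab : a ≤ b) (hb : b < 1) :
    π * (τ ^ 2 / a ^ 2 - τ ^ 2 / b ^ 2 + 2 * ξ ^ 2 * (Real.log b - Real.log a) +
      ‖h₁‖ ^ 2 * (b ^ 2 - a ^ 2) + ‖h‖ ^ 2 * (b ^ 4 - a ^ 4) / 2) ≤
      ∫ z in An a b, ‖Jf τ ξ h₁ h k z‖ ^ 2 := by
  have hc : ContinuousOn (fun z => ‖Jf τ ξ h₁ h k z‖ ^ 2) (Ac a b) :=
    (contJ hk ha hb).norm.pow 2
  have h1 := hPOL (fun z => ‖Jf τ ξ h₁ h k z‖ ^ 2) a b ha hab hc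
  have h1' : ∫ z in An a b, ‖Jf τ ξ h₁ h k z‖ ^ 2 = ∫ t in a..b, t * ∫ θ in (-π)..π,
      ‖Jf τ ξ h₁ h k ((t : ℂ) * exp (θ * I))‖ ^ 2 := h1
  rw [h1']
  have hder : ∀ t ∈ uIcc a b, HasDerivAt (fun t : ℝ => π * (-(τ ^ 2 / t ^ 2) +
      2 * ξ ^ 2 * Real.log t + ‖h₁‖ ^ 2 * t ^ 2 + ‖h‖ ^ 2 * t ^ 4 / 2))
      (t * (2 * π * (τ ^ 2 / t ^ 4 + ξ ^ 2 / t ^ 2 + ‖h₁‖ ^ 2 + ‖h‖ ^ 2 * t ^ 2))) t := by
    intro t ht
    rw [uIcc_of_le hab] at ht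
    have ht0 : t ≠ 0 := (ha.trans_le ht.1).ne'
    have d1 : HasDerivAt (fun t : ℝ => τ ^ 2 / t ^ 2) (-(2 * τ ^ 2 / t ^ 3)) t := by
      refine ((hasDerivAt_const t (τ ^ 2)).div (hasDerivAt_pow 2 t)
        (pow_ne_zero 2 ht0)).congr_deriv ?_
      push_cast
      field_simp
      ring
    have d2 := (Real.hasDerivAt_log ht0).const_mul (2 * ξ ^ 2)
    have d3 := (hasDerivAt_pow 2 t).const_mul (‖h₁‖ ^ 2)
    have d4 := ((hasDerivAt_pow 4 t).const_mul (‖h‖ ^ 2)).div_const 2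
    refine ((((d1.neg.add d2).add d3).add d4).const_mul π).congr_deriv ?_
    push_cast
    field_simp
    ring
  have hcont : ContinuousOn (fun t : ℝ => t * (2 * π * (τ ^ 2 / t ^ 4 + ξ ^ 2 / t ^ 2 +
      ‖h₁‖ ^ 2 + ‖h‖ ^ 2 * t ^ 2))) (Icc a b) := by
    intro t ht
    have ht0 : t ≠ 0 := (ha.trans_le ht.1).ne'
    have ht2 : t ^ 2 ≠ 0 := pow_ne_zero _ ht0
    have ht4 : t ^ 4 ≠ 0 := pow_ne_zero _ ht0
    apply ContinuousAt.continuousWithinAt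
    fun_prop (disch := assumption)
  have hint1 := hcont.intervalIntegrable_of_Icc (μ := volume) hab
  have hint2 : IntervalIntegrable (fun t : ℝ => t * ∫ θ in (-π)..π,
      ‖Jf τ ξ h₁ h k ((t : ℂ) * exp (θ * I))‖ ^ 2) volume a b := by
    apply ContinuousOn.intervalIntegrable_of_Icc hab
    exact continuousOn_id.mul (phiCont ha hab hc)
  have hev := intervalIntegral.integral_eq_sub_of_hasDerivAt hder hint1
  have hmono := intervalIntegral.integral_mono_on hab hint1 hint2 (fun t ht => by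
    have ht0 : 0 < t := ha.trans_le ht.1
    exact mul_le_mul_of_nonneg_left (ang1 hPAR hk ht0 (ht.2.trans_lt hb)) ht0.le)
  refine le_trans (le_of_eq ?_) hmono
  rw [hev]
  ring

/-- upper bound for the integral over an annulus -/
lemma I2 (hPAR : SpecPAR) (hPOL : SpecPOL) {τ ξ : ℝ} {h₁ h : ℂ} {k m : ℂ → ℂ}
    (hk : AnalyticOnNhd ℂ k (ball 0 1)) (hm : AnalyticOnNhd ℂ m (ball 0 1)) {a b M : ℝ}
    (ha : 0 < a) (hab : a ≤ b) (hb : b < 1)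
    (hM : ∀ z : ℂ, ‖z‖ ≤ b → ‖nn τ ξ h₁ h k m z‖ ≤ M) :
    ∫ z in An a b, ‖(z⁻¹ + z * m z) * Jf τ ξ h₁ h k z‖ ^ 2 ≤
      π * (τ ^ 2 / (2 * a ^ 4) + ξ ^ 2 / a ^ 2 + 2 * M ^ 2 * (Real.log b - Real.log a)) := by
  have hc : ContinuousOn (fun z => ‖(z⁻¹ + z * m z) * Jf τ ξ h₁ h k z‖ ^ 2) (Ac a b) := by
    apply ContinuousOn.pow
    apply ContinuousOn.norm
    refine ContinuousOn.mul ?_ (contJ hk ha hb)
    intro z hz
    have hz0 : z ≠ 0 := by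
      intro h0
      have := hz.1
      rw [h0, norm_zero] at this
      linarith
    have h7 := (hm z (ball_sub hb hz.2)).continuousAt
    apply ContinuousAt.continuousWithinAt
    fun_prop (disch := assumption)
  have h1' : ∫ z in An a b, ‖(z⁻¹ + z * m z) * Jf τ ξ h₁ h k z‖ ^ 2 =
      ∫ t in a..b, t * ∫ θ in (-π)..π, ‖(((t : ℂ) * exp (θ * I))⁻¹ + ((t : ℂ) * exp (θ * I)) *
        m ((t : ℂ) * exp (θ * I))) * Jf τ ξ h₁ h k ((t : ℂ) * exp (θ * I))‖ ^ 2 :=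
    hPOL (fun z => ‖(z⁻¹ + z * m z) * Jf τ ξ h₁ h k z‖ ^ 2) a b ha hab hc
  rw [h1']
  have hder : ∀ t ∈ uIcc a b, HasDerivAt (fun t : ℝ => π * (-(τ ^ 2 / (2 * t ^ 4)) -
      ξ ^ 2 / t ^ 2 + 2 * M ^ 2 * Real.log t))
      (t * (2 * π * (τ ^ 2 / t ^ 6 + ξ ^ 2 / t ^ 4 + M ^ 2 / t ^ 2))) t := by
    intro t ht
    rw [uIcc_of_le hab] at ht
    have ht0 : t ≠ 0 := (ha.trans_le ht.1).ne'
    have d1 : HasDerivAt (fun t : ℝ => τ ^ 2 / (2 * t ^ 4)) (-(2 * τ ^ 2 / t ^ 5)) t := by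
      refine ((hasDerivAt_const t (τ ^ 2)).div ((hasDerivAt_pow 4 t).const_mul 2)
        (mul_ne_zero two_ne_zero (pow_ne_zero 4 ht0))).congr_deriv ?_
      push_cast
      field_simp
      ring
    have d3 : HasDerivAt (fun t : ℝ => ξ ^ 2 / t ^ 2) (-(2 * ξ ^ 2 / t ^ 3)) t := by
      refine ((hasDerivAt_const t (ξ ^ 2)).div (hasDerivAt_pow 2 t)
        (pow_ne_zero 2 ht0)).congr_deriv ?_
      push_cast
      field_simp
      ring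
    have d2 := (Real.hasDerivAt_log ht0).const_mul (2 * M ^ 2)
    refine (((d1.neg.sub d3).add d2).const_mul π).congr_deriv ?_
    field_simp
    ring
  have hcont : ContinuousOn (fun t : ℝ => t * (2 * π * (τ ^ 2 / t ^ 6 + ξ ^ 2 / t ^ 4 +
      M ^ 2 / t ^ 2))) (Icc a b) := by
    intro t ht
    have ht0 : t ≠ 0 := (ha.trans_le ht.1).ne'
    have ht2 : t ^ 2 ≠ 0 := pow_ne_zero _ ht0
    have ht4 : t ^ 4 ≠ 0 := pow_ne_zero _ ht0
    have ht6 : t ^ 6 ≠ 0 := pow_ne_zero _ ht0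
    apply ContinuousAt.continuousWithinAt
    fun_prop (disch := assumption)
  have hint1 := hcont.intervalIntegrable_of_Icc (μ := volume) hab
  have hint2 : IntervalIntegrable (fun t : ℝ => t * ∫ θ in (-π)..π,
      ‖(((t : ℂ) * exp (θ * I))⁻¹ + ((t : ℂ) * exp (θ * I)) *
        m ((t : ℂ) * exp (θ * I))) * Jf τ ξ h₁ h k ((t : ℂ) * exp (θ * I))‖ ^ 2) volume a b := by
    apply ContinuousOn.intervalIntegrable_of_Icc hab
    exact continuousOn_id.mul (phiCont ha hab hc)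
  have hev := intervalIntegral.integral_eq_sub_of_hasDerivAt hder hint1
  have hmono := intervalIntegral.integral_mono_on hab hint2 hint1 (fun t ht => by
    have ht0 : 0 < t := ha.trans_le ht.1
    refine mul_le_mul_of_nonneg_left (ang2 hPAR hk hm ht0 (ht.2.trans_lt hb) ?_) ht0.le
    intro z hz
    exact hM z (hz.le.trans ht.2))
  refine hmono.trans ?_
  rw [hev]
  have hb0 : 0 < b := ha.trans_le hab
  have e1 : 0 ≤ τ ^ 2 / (2 * b ^ 4) := by positivity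
  have e2 : 0 ≤ ξ ^ 2 / b ^ 2 := by positivity
  have e3 := mul_nonneg Real.pi_pos.le e1
  have e4 := mul_nonneg Real.pi_pos.le e2
  nlinarith

lemma norm_Th_le (Y : ℂ → ℂ) (z : ℂ) : ‖Th Y z‖ ≤ ‖Y z‖ + ‖(Y z)⁻¹‖ := by
  unfold Th
  split_ifs
  · linarith [norm_nonneg (Y z)]
  · linarith [norm_nonneg (Y z)⁻¹]

/-- the weight near `0` -/
lemma weight_eq {Y : ℂ → ℂ} {p q : ℂ} (hq : q ≠ 0) {z w : ℂ} (hY : ‖Y z‖ ≤ 1)
    (hw : (q / 2) * (Y z)⁻¹ + p = w) (e : ℝ) :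
    (‖q‖ * e / 2) ^ 2 * ‖Th Y z + 2 * p / q‖ ^ 2 = e ^ 2 * ‖w‖ ^ 2 := by
  have h1 : Th Y z + 2 * p / q = (2 / q) * w := by
    rw [← hw]
    unfold Th
    rw [if_pos hY]
    field_simp
  rw [h1, norm_mul, norm_div]
  have h2 : ‖(2 : ℂ)‖ = 2 := by norm_num
  have h3 : ‖q‖ ≠ 0 := norm_ne_zero_iff.2 hq
  rw [h2]
  field_simp

end LOWM

open LOWM in
theorem specLOW (hPAR : SpecPAR) (hPOL : SpecPOL) : SpecLOW := by
  intro Y p q b hL hq ξ τ h k hk hJ r hr hr1 η hη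
  obtain ⟨m, hm, hwt⟩ := hL.wt
  set h₁ : ℂ := ξ * p + τ * (b - q ^ 2 / 2) with hh₁
  have hJJ : ∀ z ∈ ball (0 : ℂ) 1, z ≠ 0 → JJ Y (τ * q / 2) ξ z = ‖Jf τ ξ h₁ h k z‖ ^ 2 := by
    intro z hz hz0
    have h2 := hJ z hz hz0
    unfold JJ Jf
    rw [h2]
  have h0ball : (0 : ℂ) ∈ ball (0 : ℂ) 1 := mem_ball_self one_pos
  have hY0 : ContinuousAt Y 0 := (hL.an 0 h0ball).continuousAt
  obtain ⟨δ, hδ, hδY⟩ := Metric.continuousAt_iff.1 hY0 1 one_pos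
  obtain ⟨r₀, hr₀, hr₀r, hr₀Y⟩ : ∃ r₀ : ℝ, 0 < r₀ ∧ r₀ < r ∧ ∀ z : ℂ, ‖z‖ ≤ r₀ → ‖Y z‖ ≤ 1 := by
    refine ⟨min (δ / 2) (r / 2), lt_min (by linarith) (by linarith),
      (min_le_right _ _).trans_lt (by linarith), fun z hz => ?_⟩
    have h2 : dist z 0 < δ := by
      rw [dist_zero_right]
      have := hz.trans (min_le_left _ _)
      linarith
    have h3 := hδY h2
    rw [hL.zero, dist_zero_right] at h3
    exact h3.le
  have hYne : ∀ z ∈ ball (0 : ℂ) 1, z ≠ 0 → Y z ≠ 0 := by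
    intro z hz hz0 hYz
    exact hz0 (hL.inj hz h0ball (hYz.trans hL.zero.symm))
  -- bounds on the outer annulus
  have hAball : ∀ z ∈ Ac r₀ r, z ∈ ball (0 : ℂ) 1 ∧ z ≠ 0 := by
    intro z hz
    refine ⟨ball_sub hr1 hz.2, ?_⟩
    intro h0
    have := hz.1
    rw [h0, norm_zero] at this
    linarith
  have hYc : ContinuousOn Y (Ac r₀ r) := fun z hz =>
    (hL.an z (hAball z hz).1).continuousAt.continuousWithinAt
  obtain ⟨C₁, hC₁⟩ := (isCompact_Ac r₀ r).exists_bound_of_continuousOn hYc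
  obtain ⟨C₂, hC₂⟩ := (isCompact_Ac r₀ r).exists_bound_of_continuousOn
    (hYc.inv₀ fun z hz => hYne z (hAball z hz).1 (hAball z hz).2)
  set C₃ : ℝ := C₁ + C₂ + ‖2 * p / q‖ with hC₃
  have hTh : ∀ z ∈ Ac r₀ r, ‖Th Y z + 2 * p / q‖ ≤ C₃ := by
    intro z hz
    have e1 := norm_add_le (Th Y z) (2 * p / q)
    have e2 := norm_Th_le Y z
    have e3 := hC₁ z hz
    have e4 : ‖(Y z)⁻¹‖ ≤ C₂ := hC₂ z hz
    linarith
  -- bound for `n`
  obtain ⟨M, hM⟩ := (isCompact_closedBall (0 : ℂ) r₀).exists_bound_of_continuousOn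
    (f := nn τ ξ h₁ h k m) (fun z hz => by
      rw [mem_closedBall, dist_zero_right] at hz
      exact (an_nn hk hm z (ball_sub (hr₀r.trans hr1) hz)).continuousAt.continuousWithinAt)
  have hM' : ∀ z : ℂ, ‖z‖ ≤ r₀ → ‖nn τ ξ h₁ h k m z‖ ≤ M := fun z hz =>
    hM z (by rw [mem_closedBall, dist_zero_right]; exact hz)
  set Ib : ℝ := ∫ z in An r₀ r, ‖Jf τ ξ h₁ h k z‖ ^ 2 with hIb
  have hIb0 : 0 ≤ Ib := integral_nonneg fun z => by positivity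
  set C' : ℝ := (‖q‖ / 2) ^ 2 * C₃ ^ 2 with hC'
  have hC'0 : 0 ≤ C' := by positivity
  set K : ℝ := π * ‖h₁‖ ^ 2 + π * ‖h‖ ^ 2 / 2 + 2 * π * M ^ 2 + C' * Ib with hK
  have hK0 : 0 ≤ K := by positivity
  have hpos : 0 < min r₀ (η / (K + 1)) := lt_min hr₀ (by positivity)
  filter_upwards [Ioo_mem_nhdsGT hpos] with e he
  obtain ⟨he0, he1⟩ := he
  have her : e < r₀ := he1.trans_le (min_le_left _ _)
  have heη : e * K ≤ η := by
    have h2 : e < η / (K + 1) := he1.trans_le (min_le_right _ _)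
    rw [lt_div_iff₀ (by linarith)] at h2
    linarith
  have he1' : e < 1 := her.trans (hr₀r.trans hr1)
  -- continuity and integrability
  have hc1 : ContinuousOn (fun z => ‖Jf τ ξ h₁ h k z‖ ^ 2) (Ac e r₀) :=
    (contJ hk he0 (hr₀r.trans hr1)).norm.pow 2
  have hc2 : ContinuousOn (fun z => ‖(z⁻¹ + z * m z) * Jf τ ξ h₁ h k z‖ ^ 2) (Ac e r₀) := by
    apply ContinuousOn.pow
    apply ContinuousOn.norm
    refine ContinuousOn.mul ?_ (contJ hk he0 (hr₀r.trans hr1))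
    intro z hz
    have hz0 : z ≠ 0 := by
      intro h0
      have := hz.1
      rw [h0, norm_zero] at this
      linarith
    have h7 := (hm z (ball_sub (hr₀r.trans hr1) hz.2)).continuousAt
    apply ContinuousAt.continuousWithinAt
    fun_prop (disch := assumption)
  have hc3 : ContinuousOn (fun z => ‖Jf τ ξ h₁ h k z‖ ^ 2) (Ac r₀ r) :=
    (contJ hk hr₀ hr1).norm.pow 2
  -- the two annuli
  have hsub : An e r₀ ∪ An r₀ r ⊆ ball (0 : ℂ) 1 \ {0} := by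
    intro z hz
    have h2 : 0 < ‖z‖ ∧ ‖z‖ < 1 := by
      rcases hz with hz | hz
      · exact ⟨he0.trans hz.1, hz.2.trans (hr₀r.trans hr1)⟩
      · exact ⟨hr₀.trans hz.1, hz.2.trans hr1⟩
    refine ⟨?_, ?_⟩
    · rw [mem_ball, dist_zero_right]
      exact h2.2
    · rw [mem_singleton_iff]
      exact norm_pos_iff.1 h2.1
  have hdis : Disjoint (An e r₀) (An r₀ r) := by
    rw [Set.disjoint_left]
    intro z hz hz'
    exact absurd hz.2 (not_lt.2 hz'.1.le)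
  set g : ℂ → ℝ≥0∞ := fun z =>
    Wt (‖q‖ * e / 2) (2 * p / q) (Th Y z) * ENNReal.ofReal (JJ Y (τ * q / 2) ξ z) with hg
  have hgeq : ∀ z ∈ ball (0 : ℂ) 1, z ≠ 0 → g z = ENNReal.ofReal
      ((1 - (‖q‖ * e / 2) ^ 2 * ‖Th Y z + 2 * p / q‖ ^ 2) * ‖Jf τ ξ h₁ h k z‖ ^ 2) := by
    intro z hz hz0
    rw [hg, ENNReal.ofReal_mul' (by positivity)]
    simp only
    rw [hJJ z hz hz0]
    rfl
  have hA : ENNReal.ofReal (∫ z in An e r₀, (‖Jf τ ξ h₁ h k z‖ ^ 2 -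
      e ^ 2 * ‖(z⁻¹ + z * m z) * Jf τ ξ h₁ h k z‖ ^ 2)) ≤ ∫⁻ z in An e r₀, g z := by
    refine (ofReal_integral_le ((intOn hc1).sub ((intOn hc2).const_mul _))).trans ?_
    apply setLIntegral_mono' (meas_An e r₀)
    intro z hz
    obtain ⟨hz1, hz2⟩ := hsub (Or.inl hz)
    have hz0 : z ≠ 0 := hz2
    rw [hgeq z hz1 hz0, weight_eq hq (hr₀Y z hz.2.le) (hwt z hz1 hz0) e]
    apply ENNReal.ofReal_le_ofReal
    show ‖Jf τ ξ h₁ h k z‖ ^ 2 - e ^ 2 * ‖(z⁻¹ + z * m z) * Jf τ ξ h₁ h k z‖ ^ 2 ≤ _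
    rw [norm_mul, mul_pow]
    apply le_of_eq
    ring
  have hB : ENNReal.ofReal (∫ z in An r₀ r, (1 - C' * e ^ 2) * ‖Jf τ ξ h₁ h k z‖ ^ 2) ≤
      ∫⁻ z in An r₀ r, g z := by
    refine (ofReal_integral_le ((intOn hc3).const_mul _)).trans ?_
    apply setLIntegral_mono' (meas_An r₀ r)
    intro z hz
    obtain ⟨hz1, hz2⟩ := hsub (Or.inr hz)
    have hz0 : z ≠ 0 := hz2
    rw [hgeq z hz1 hz0]
    apply ENNReal.ofReal_le_ofReal
    apply mul_le_mul_of_nonneg_right _ (by positivity)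
    have e1 := hTh z (An_sub_Ac _ _ hz)
    have e2 : ‖Th Y z + 2 * p / q‖ ^ 2 ≤ C₃ ^ 2 := pow_le_pow_left₀ (norm_nonneg _) e1 2
    have e3 : (‖q‖ * e / 2) ^ 2 * ‖Th Y z + 2 * p / q‖ ^ 2 ≤ (‖q‖ * e / 2) ^ 2 * C₃ ^ 2 :=
      mul_le_mul_of_nonneg_left e2 (by positivity)
    have e4 : (‖q‖ * e / 2) ^ 2 * C₃ ^ 2 = C' * e ^ 2 := by
      rw [hC']
      ring
    linarith
  have hlow : ENNReal.ofReal ((∫ z in An e r₀, (‖Jf τ ξ h₁ h k z‖ ^ 2 -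
      e ^ 2 * ‖(z⁻¹ + z * m z) * Jf τ ξ h₁ h k z‖ ^ 2)) +
      ∫ z in An r₀ r, (1 - C' * e ^ 2) * ‖Jf τ ξ h₁ h k z‖ ^ 2) ≤
      ∫⁻ z in ball (0 : ℂ) 1 \ {0}, g z := by
    refine ENNReal.ofReal_add_le.trans ((add_le_add hA hB).trans ?_)
    rw [← lintegral_union (meas_An r₀ r) hdis]
    exact lintegral_mono_set hsub
  refine le_trans (ENNReal.ofReal_le_ofReal ?_) hlow
  rw [integral_sub (intOn hc1) ((intOn hc2).const_mul _), integral_const_mul, integral_const_mul]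
  have i1 := I1 (τ := τ) (ξ := ξ) (h₁ := h₁) (h := h) hPAR hPOL hk he0 her.le (hr₀r.trans hr1)
  have i2 := I1 (τ := τ) (ξ := ξ) (h₁ := h₁) (h := h) hPAR hPOL hk hr₀ hr₀r.le hr1
  have i3 := I2 hPAR hPOL hk hm he0 her.le (hr₀r.trans hr1) hM'
  have i4 := mul_le_mul_of_nonneg_left i3 (sq_nonneg e)
  have i5 : e ^ 2 * (π * (τ ^ 2 / (2 * e ^ 4) + ξ ^ 2 / e ^ 2 +
      2 * M ^ 2 * (Real.log r₀ - Real.log e))) =
      π * (τ ^ 2 / (2 * e ^ 2) + ξ ^ 2) +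
        2 * π * M ^ 2 * (e ^ 2 * (Real.log r₀ - Real.log e)) := by
    field_simp
  have i6 : Real.log (r / e) = Real.log r - Real.log e := Real.log_div hr.ne' he0.ne'
  have i7 : e ^ 2 * (Real.log r₀ - Real.log e) ≤ e := by
    have j1 : Real.log r₀ ≤ 0 := Real.log_nonpos hr₀.le (hr₀r.trans hr1).le
    have j2 : -Real.log e ≤ 1 / e := by
      have j3 := Real.log_le_sub_one_of_pos (show 0 < 1 / e by positivity)
      rw [Real.log_div one_ne_zero he0.ne', Real.log_one] at j3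
      linarith
    have j4 : e ^ 2 * (Real.log r₀ - Real.log e) ≤ e ^ 2 * (1 / e) :=
      mul_le_mul_of_nonneg_left (by linarith) (sq_nonneg e)
    have j5 : e ^ 2 * (1 / e) = e := by field_simp
    linarith
  have i8 : 2 * π * M ^ 2 * (e ^ 2 * (Real.log r₀ - Real.log e)) ≤ 2 * π * M ^ 2 * e :=
    mul_le_mul_of_nonneg_left i7 (by positivity)
  have i9 : e ^ 2 ≤ e := pow_le_of_le_one he0.le he1'.le two_ne_zero
  have i10 : e ^ 4 ≤ e := pow_le_of_le_one he0.le he1'.le four_ne_zero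
  have i11 : π * ‖h₁‖ ^ 2 * e ^ 2 ≤ π * ‖h₁‖ ^ 2 * e := mul_le_mul_of_nonneg_left i9 (by positivity)
  have i12 : π * ‖h‖ ^ 2 / 2 * e ^ 4 ≤ π * ‖h‖ ^ 2 / 2 * e :=
    mul_le_mul_of_nonneg_left i10 (by positivity)
  have i13 : C' * Ib * e ^ 2 ≤ C' * Ib * e := mul_le_mul_of_nonneg_left i9 (by positivity)
  rw [i5] at i4
  rw [i6]
  have i14 : e * K = π * ‖h₁‖ ^ 2 * e + π * ‖h‖ ^ 2 / 2 * e + 2 * π * M ^ 2 * e + C' * Ib * e := by
    rw [hK]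
    ring
  rw [i14] at heη
  have i15 : (1 - C' * e ^ 2) * Ib = Ib - C' * Ib * e ^ 2 := by ring
  rw [← hIb, i15]
  have i16 : π * (τ ^ 2 / (2 * e ^ 2)) * 2 = π * (τ ^ 2 / e ^ 2) := by
    field_simp
  rw [← hIb] at i2
  linarith only [i1, i2, i4, i8, i11, i12, i13, heη, i16]

end Pool.Agent.Lib.MP250511
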