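import Pool.Agent.Lib.MP_250511_an.Spec

set_option autoImplicit false

namespace Pool.Agent.Lib.MP250511

open Complex Metric Set

theorem specOMC (hINV : SpecINV) : SpecOMC := by
  intro g hg
  obtain ⟨-, hopen, -⟩ := hINV g hg.an hg.inj
  have h0 : (0 : ℂ) ∈ g '' ball 0 1 := ⟨0, mem_ball_self one_pos, hg.zero⟩
  have hset : {v : ℂ | Om g v} = ⋂ z ∈ ball (0 : ℂ) 1, {v : ℂ | v * g z ≠ 1} := by
    ext v
    simp [Om]
  -- boundedness
  obtain ⟨ε, hε, hball⟩ := Metric.isOpen_iff.1 hopen 0 h0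
  apply Metric.isCompact_of_isClosed_isBounded
  · -- closed
    rw [← isOpen_compl_iff, isOpen_iff_mem_nhds]
    intro v hv
    have hv' : ∃ z ∈ ball (0 : ℂ) 1, v * g z = 1 := by
      simp only [mem_compl_iff, Set.mem_ofPred_eq, Om] at hv
      push Not at hv
      exact hv
    obtain ⟨z, hz, hvz⟩ := hv'
    have hv0 : v ≠ 0 := by
      intro h
      rw [h] at hvz
      simp at hvz
    have hgz : g z = v⁻¹ := eq_inv_of_mul_eq_one_right hvz
    have hcont : ContinuousAt (fun v : ℂ => v⁻¹) v := continuousAt_inv₀ hv0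
    have hmem : g '' ball 0 1 ∈ nhds (v⁻¹) := hopen.mem_nhds ⟨z, hz, hgz⟩
    have h1 := hcont.preimage_mem_nhds hmem
    have h2 : {v : ℂ | v ≠ 0} ∈ nhds v := isOpen_ne.mem_nhds hv0
    filter_upwards [h1, h2] with u hu hu0
    obtain ⟨y, hy, hyu⟩ := hu
    intro hom
    exact hom y hy (by rw [hyu]; exact mul_inv_cancel₀ hu0)
  · rw [isBounded_iff_forall_norm_le]
    refine ⟨2 / ε, ?_⟩
    intro v hv
    by_contra hcon
    push Not at hcon
    have hpos : 0 < 2 / ε := by positivity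
    have hv0 : 0 < ‖v‖ := hpos.trans hcon
    have hvne : v ≠ 0 := norm_pos_iff.1 hv0
    have hmem : v⁻¹ ∈ ball (0 : ℂ) ε := by
      rw [mem_ball_zero_iff, norm_inv]
      rw [inv_lt_comm₀ hv0 hε]
      refine lt_trans ?_ hcon
      rw [div_eq_mul_inv]
      have : 0 < ε⁻¹ := by positivity
      linarith
    obtain ⟨z, hz, hzv⟩ := hball hmem
    exact hv z hz (by rw [hzv]; exact mul_inv_cancel₀ hvne)

end Pool.Agent.Lib.MP250511
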