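import Pool.Agent.Lib.MP_250511_an.Spec

/-!
MP_250511_an: module PAR (finite Parseval on a circle).
-/

set_option autoImplicit false

namespace Pool.Agent.Lib.MP250511.PARM

open Complex Metric Set MeasureTheory Filter Topology
open scoped Real ComplexConjugate

theorem norm_pt {t : ℝ} (ht : 0 < t) (θ : ℝ) : ‖(t : ℂ) * exp (θ * I)‖ = t := by
  rw [norm_mul, Complex.norm_exp_ofReal_mul_I, mul_one, Complex.norm_real, Real.norm_eq_abs,
    abs_of_pos ht]

theorem cont_pt (t : ℝ) : Continuous fun θ : ℝ => (t : ℂ) * exp (θ * I) := by fun_prop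

theorem cont_comp {G : ℂ → ℂ} {R t : ℝ} (hG : AnalyticOnNhd ℂ G (ball 0 R)) (ht : 0 < t)
    (htR : t < R) : Continuous fun θ : ℝ => G ((t : ℂ) * exp (θ * I)) := by
  refine hG.continuousOn.comp_continuous (cont_pt t) ?_
  intro θ
  rw [mem_ball_zero_iff, norm_pt ht]
  exact htR

theorem mean_zero {G : ℂ → ℂ} {R t : ℝ} (hG : AnalyticOnNhd ℂ G (ball 0 R)) (ht : 0 < t)
    (htR : t < R) :
    ∫ θ in (-π)..π, ((t : ℂ) * exp (θ * I)) * G ((t : ℂ) * exp (θ * I)) = 0 := by
  have h1 : (∮ z in C(0, t), G z) = 0 := by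
    refine Complex.circleIntegral_eq_zero_of_differentiable_on_off_countable ht.le
      Set.countable_empty ?_ ?_
    · exact hG.continuousOn.mono (closedBall_subset_ball htR)
    · intro z hz
      exact (hG z (ball_subset_ball htR.le hz.1)).differentiableAt
  rw [circleIntegral] at h1
  have h2 : ∀ θ : ℝ, deriv (circleMap 0 t) θ • G (circleMap 0 t θ) =
      I * (((t : ℂ) * exp (θ * I)) * G ((t : ℂ) * exp (θ * I))) := by
    intro θ
    rw [deriv_circleMap, circleMap_zero, smul_eq_mul]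
    ring
  simp only [h2] at h1
  rw [intervalIntegral.integral_const_mul] at h1
  have h3 : ∫ θ in (0 : ℝ)..(2 * π), ((t : ℂ) * exp (θ * I)) * G ((t : ℂ) * exp (θ * I)) = 0 := by
    rcases mul_eq_zero.1 h1 with h | h
    · exact absurd h I_ne_zero
    · exact h
  have hper : Function.Periodic
      (fun θ : ℝ => ((t : ℂ) * exp (θ * I)) * G ((t : ℂ) * exp (θ * I))) (2 * π) := by
    intro θ
    have : exp (((θ + 2 * π : ℝ) : ℂ) * I) = exp (θ * I) := by
      push_cast
      rw [add_mul, Complex.exp_add, Complex.exp_two_pi_mul_I, mul_one]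
    simp only [this]
  have h4 := hper.intervalIntegral_add_eq (-π) 0
  rw [show -π + 2 * π = π by ring, zero_add] at h4
  rw [h4, h3]

theorem base {G : ℂ → ℂ} {R t : ℝ} (hG : AnalyticOnNhd ℂ G (ball 0 R)) (ht : 0 < t)
    (htR : t < R) (c : ℂ) :
    ∫ θ in (-π)..π, ‖c + ((t : ℂ) * exp (θ * I)) * G ((t : ℂ) * exp (θ * I))‖ ^ 2 =
      2 * π * ‖c‖ ^ 2 + t ^ 2 * ∫ θ in (-π)..π, ‖G ((t : ℂ) * exp (θ * I))‖ ^ 2 := by
  have hc := cont_comp hG ht htR
  have hp := cont_pt t
  have h1 : ∀ θ : ℝ, ‖c + ((t : ℂ) * exp (θ * I)) * G ((t : ℂ) * exp (θ * I))‖ ^ 2 =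
      ‖c‖ ^ 2 + 2 * (conj c * (((t : ℂ) * exp (θ * I)) * G ((t : ℂ) * exp (θ * I)))).re +
        t ^ 2 * ‖G ((t : ℂ) * exp (θ * I))‖ ^ 2 := by
    intro θ
    rw [norm_add_sq_real, Complex.inner, norm_mul, norm_pt ht, mul_pow]
    congr 3
    rw [mul_comm]
  simp only [h1]
  have i1 : IntervalIntegrable (fun _ : ℝ => ‖c‖ ^ 2) volume (-π) π :=
    continuous_const.intervalIntegrable _ _
  have i2 : IntervalIntegrable (fun θ : ℝ =>
      2 * (conj c * (((t : ℂ) * exp (θ * I)) * G ((t : ℂ) * exp (θ * I)))).re) volume (-π) π := by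
    refine Continuous.intervalIntegrable ?_ _ _
    exact continuous_const.mul (continuous_re.comp (continuous_const.mul (hp.mul hc)))
  have i3 : IntervalIntegrable (fun θ : ℝ => t ^ 2 * ‖G ((t : ℂ) * exp (θ * I))‖ ^ 2)
      volume (-π) π := by
    refine Continuous.intervalIntegrable ?_ _ _
    exact continuous_const.mul (hc.norm.pow 2)
  rw [intervalIntegral.integral_add (i1.add i2) i3, intervalIntegral.integral_add i1 i2,
    intervalIntegral.integral_const, intervalIntegral.integral_const_mul,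
    intervalIntegral.integral_const_mul]
  have h2 : ∫ θ in (-π)..π,
      (conj c * (((t : ℂ) * exp (θ * I)) * G ((t : ℂ) * exp (θ * I)))).re = 0 := by
    have i4 : IntervalIntegrable (fun θ : ℝ =>
        conj c * (((t : ℂ) * exp (θ * I)) * G ((t : ℂ) * exp (θ * I)))) volume (-π) π :=
      (continuous_const.mul (hp.mul hc)).intervalIntegrable _ _
    have h3 := Complex.reCLM.intervalIntegral_comp_comm i4
    simp only [Complex.reCLM_apply] at h3
    rw [h3, intervalIntegral.integral_const_mul, mean_zero hG ht htR, mul_zero, Complex.zero_re]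
  rw [h2, smul_eq_mul]
  ring

theorem anal (J : ℕ) (a : ℕ → ℂ) (k : ℂ → ℂ) (R : ℝ) (hk : AnalyticOnNhd ℂ k (ball 0 R)) :
    AnalyticOnNhd ℂ (fun z => (∑ j ∈ Finset.range J, a j * z ^ j) + z ^ J * k z) (ball 0 R) := by
  intro z hz
  have h1 : AnalyticAt ℂ (fun z => (∑ j ∈ Finset.range J, a j * z ^ j)) z := by
    refine Finset.analyticAt_fun_sum _ ?_
    intro j _
    exact analyticAt_const.mul (analyticAt_id.pow j)
  exact h1.add ((analyticAt_id.pow J).mul (hk z hz))

end Pool.Agent.Lib.MP250511.PARM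

namespace Pool.Agent.Lib.MP250511

open Complex Metric Set MeasureTheory Filter Topology
open scoped Real ComplexConjugate

open PARM in
theorem specPAR : SpecPAR := by
  intro J
  induction J with
  | zero =>
    intro a k R t _ _ _
    simp
  | succ J ih =>
    intro a k R t hk ht htR
    have hG := anal J (fun j => a (j + 1)) k R hk
    have h1 : ∀ z : ℂ, (∑ j ∈ Finset.range (J + 1), a j * z ^ j) + z ^ (J + 1) * k z =
        a 0 + z * ((∑ j ∈ Finset.range J, a (j + 1) * z ^ j) + z ^ J * k z) := by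
      intro z
      rw [Finset.sum_range_succ', mul_add, Finset.mul_sum]
      have : ∀ j ∈ Finset.range J, z * (a (j + 1) * z ^ j) = a (j + 1) * z ^ (j + 1) := by
        intro j _
        ring
      rw [Finset.sum_congr rfl this]
      ring
    simp only [h1]
    have h2 := base hG ht htR (a 0)
    rw [h2, ih (fun j => a (j + 1)) k R t hk ht htR, Finset.sum_range_succ']
    have h3 : ∀ θ : ℝ, ‖((t : ℂ) * exp (θ * I)) ^ (J + 1) * k ((t : ℂ) * exp (θ * I))‖ ^ 2 =
        t ^ 2 * ‖((t : ℂ) * exp (θ * I)) ^ J * k ((t : ℂ) * exp (θ * I))‖ ^ 2 := by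
      intro θ
      rw [norm_mul, norm_mul, norm_pow, norm_pow, norm_pt ht]
      ring
    simp only [h3]
    rw [intervalIntegral.integral_const_mul]
    have h4 : ∑ j ∈ Finset.range J, ‖a (j + 1)‖ ^ 2 * t ^ (2 * (j + 1)) =
        t ^ 2 * ∑ j ∈ Finset.range J, ‖a (j + 1)‖ ^ 2 * t ^ (2 * j) := by
      rw [Finset.mul_sum]
      refine Finset.sum_congr rfl ?_
      intro j _
      ring
    rw [h4]
    simp
    ring

end Pool.Agent.Lib.MP250511
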