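import Pool.Agent.Lib.MP_250511_an.Spec

/-!
MP_250511_an: module POL (polar coordinates in an annulus).
-/

set_option autoImplicit false

namespace Pool.Agent.Lib.MP250511

open Complex Metric Set MeasureTheory Filter Topology
open scoped Real

theorem specPOL : SpecPOL := by
  intro f a b ha hab hf
  set A : Set ℂ := {z : ℂ | a < ‖z‖ ∧ ‖z‖ < b} with hA
  have hAo : MeasurableSet A :=
    (measurableSet_lt measurable_const measurable_norm).inter
      (measurableSet_lt measurable_norm measurable_const)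
  rw [← integral_indicator hAo, ← Complex.integral_comp_polarCoord_symm]
  have hsymm : ∀ p : ℝ × ℝ, Complex.polarCoord.symm p = (p.1 : ℂ) * exp (p.2 * I) := by
    intro p
    rw [Complex.polarCoord_symm_apply, Complex.exp_mul_I]
    push_cast
    rfl
  have htgt : polarCoord.target = Ioi (0 : ℝ) ×ˢ Ioo (-π) π := rfl
  have hmT : MeasurableSet (Ioi (0 : ℝ) ×ˢ Ioo (-π) π) := measurableSet_Ioi.prod measurableSet_Ioo
  rw [htgt]
  have h1 : ∫ p in Ioi (0 : ℝ) ×ˢ Ioo (-π) π, p.1 • A.indicator f (Complex.polarCoord.symm p) =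
      ∫ p in Ioi (0 : ℝ) ×ˢ Ioo (-π) π, (Ioo a b ×ˢ Ioo (-π) π).indicator
        (fun p : ℝ × ℝ => p.1 * f ((p.1 : ℂ) * exp (p.2 * I))) p := by
    refine setIntegral_congr_fun hmT ?_
    rintro ⟨r, θ⟩ ⟨hr, hθ⟩
    have hr' : 0 < r := hr
    have hn : ‖(r : ℂ) * exp (θ * I)‖ = r := by
      rw [norm_mul, Complex.norm_exp_ofReal_mul_I, mul_one, Complex.norm_real, Real.norm_eq_abs,
        abs_of_pos hr']
    simp only [hsymm, smul_eq_mul]
    by_cases h : a < r ∧ r < b
    · have h2 : (r : ℂ) * exp (θ * I) ∈ A := by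
        rw [hA, mem_setOf_eq, hn]
        exact h
      have h3 : (r, θ) ∈ Ioo a b ×ˢ Ioo (-π) π := ⟨h, hθ⟩
      rw [indicator_of_mem h2, indicator_of_mem h3]
    · have h2 : (r : ℂ) * exp (θ * I) ∉ A := by
        rw [hA, mem_setOf_eq, hn]
        exact h
      have h3 : (r, θ) ∉ Ioo a b ×ˢ Ioo (-π) π := fun h' => h h'.1
      rw [indicator_of_notMem h2, indicator_of_notMem h3, mul_zero]
  rw [h1, setIntegral_indicator (measurableSet_Ioo.prod measurableSet_Ioo)]
  have h2 : Ioi (0 : ℝ) ×ˢ Ioo (-π) π ∩ Ioo a b ×ˢ Ioo (-π) π = Ioo a b ×ˢ Ioo (-π) π := by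
    refine inter_eq_right.2 ?_
    rintro ⟨r, θ⟩ ⟨hr, hθ⟩
    exact ⟨ha.trans hr.1, hθ⟩
  rw [h2, Measure.volume_eq_prod, setIntegral_prod]
  · rw [intervalIntegral.integral_of_le hab, integral_Ioc_eq_integral_Ioo]
    refine setIntegral_congr_fun measurableSet_Ioo ?_
    intro r _
    simp only
    rw [integral_const_mul, intervalIntegral.integral_of_le (by linarith [Real.pi_pos]),
      integral_Ioc_eq_integral_Ioo]
  · have hK : IsCompact (Icc a b ×ˢ Icc (-π) π) := isCompact_Icc.prod isCompact_Icc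
    have hc : ContinuousOn (fun p : ℝ × ℝ => p.1 * f ((p.1 : ℂ) * exp (p.2 * I)))
        (Icc a b ×ˢ Icc (-π) π) := by
      refine continuousOn_fst.mul ?_
      refine hf.comp (Continuous.continuousOn (by fun_prop)) ?_
      rintro ⟨r, θ⟩ ⟨hr, hθ⟩
      have hr' : 0 < r := lt_of_lt_of_le ha hr.1
      have hn : ‖(r : ℂ) * exp (θ * I)‖ = r := by
        rw [norm_mul, Complex.norm_exp_ofReal_mul_I, mul_one, Complex.norm_real, Real.norm_eq_abs,
          abs_of_pos hr']
      show a ≤ ‖(r : ℂ) * exp (θ * I)‖ ∧ ‖(r : ℂ) * exp (θ * I)‖ ≤ b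
      rw [hn]
      exact hr
    have hi : IntegrableOn (fun p : ℝ × ℝ => p.1 * f ((p.1 : ℂ) * exp (p.2 * I)))
        (Icc a b ×ˢ Icc (-π) π) (volume.prod volume) := by
      rw [← Measure.volume_eq_prod]
      exact hc.integrableOn_compact hK
    exact hi.mono_set (prod_mono Ioo_subset_Icc_self Ioo_subset_Icc_self)

end Pool.Agent.Lib.MP250511
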