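import Pool.Agent.Lib.MP_250511_an.Spec

set_option autoImplicit false

namespace Pool.Agent.Lib.MP250511

open Complex

namespace PRSM

theorem log_eq (q : ℂ) (v w u : ℂ) (hu : ‖u‖ = 1) (hq : q = (u * v - u * w) / 2) :
    Real.log (2 / ‖q‖) = Real.log (4 / ‖v - w‖) := by
  have h1 : ‖q‖ = ‖v - w‖ / 2 := by
    rw [hq, ← mul_sub, norm_div, norm_mul, hu, one_mul]
    simp
  rw [h1]
  congr 1
  rcases eq_or_ne (‖v - w‖) 0 with h | h
  · rw [h]; simp
  · field_simp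
    norm_num

end PRSM

theorem specPRS (hROT : SpecROT) (hLFT : SpecLFT) (hARE : SpecARE) (hALG : SpecALG) : SpecPRS := by
  intro g β hg v w hv hw hne
  constructor
  · intro u hu
    have hu0 : u ≠ 0 := by
      intro h
      rw [h] at hu
      simp at hu
    obtain ⟨h1, h2⟩ := hROT g β u hg hu
    have hne' : u * v ≠ u * w := fun h => hne (mul_left_cancel₀ hu0 h)
    obtain ⟨Y, hY⟩ := hLFT _ _ (u * v) (u * w) h1 ((h2 v).2 hv) ((h2 w).2 hw) hne'
    have hq : (u * v - u * w) / 2 ≠ 0 := div_ne_zero (sub_ne_zero.2 hne') two_ne_zero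
    have h3 := hALG _ _ _ (hARE Y _ _ _ hY hq).1
    rw [PRSM.log_eq _ v w u hu rfl] at h3
    have e1 : (u * v + u * w) / 2 = u * ((v + w) / 2) := by ring
    have e2 : (β : ℂ) * u ^ 2 - ((u * v - u * w) / 2) ^ 2 / 2 = u ^ 2 * (β - (v - w) ^ 2 / 8) := by
      ring
    rw [e1, e2] at h3
    exact h3
  · obtain ⟨Y, hY⟩ := hLFT _ _ v w hg hv hw hne
    have hq : (v - w) / 2 ≠ 0 := div_ne_zero (sub_ne_zero.2 hne) two_ne_zero
    have h3 := (hARE Y _ _ _ hY hq).2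
    rw [PRSM.log_eq _ v w 1 (by simp) (by ring)] at h3
    have e2 : ((v - w) / 2) ^ 2 / 2 = (v - w) ^ 2 / 8 := by ring
    rw [e2] at h3
    exact h3

end Pool.Agent.Lib.MP250511
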