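import Pool.Agent.Lib.MP_250511_an.Spec

/-!
Problem MP_250511_an, module ROT: rotation.
-/

set_option autoImplicit false

namespace Pool.Agent.Lib.MP250511

open Complex Metric Set MeasureTheory Filter Topology

namespace ROTM

theorem mem_rot {u z : ℂ} (hu : ‖u‖ = 1) (hz : z ∈ ball (0 : ℂ) 1) : u * z ∈ ball (0 : ℂ) 1 := by
  rw [mem_ball_zero_iff] at hz ⊢
  rw [norm_mul, hu, one_mul]; exact hz

theorem ne_zero {u : ℂ} (hu : ‖u‖ = 1) : u ≠ 0 := by
  intro h; rw [h, norm_zero] at hu; exact zero_ne_one hu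

end ROTM

open ROTM in
theorem specROT : SpecROT := by
  intro g b u h hu
  have hu0 : u ≠ 0 := ne_zero hu
  have han : ∀ k : ℂ → ℂ, AnalyticOnNhd ℂ k (ball 0 1) →
      AnalyticOnNhd ℂ (fun z => k (u * z)) (ball 0 1) := by
    intro k hk z hz
    have h1 : AnalyticAt ℂ k (u * z) := hk _ (mem_rot hu hz)
    have h2 : AnalyticAt ℂ (fun z : ℂ => u * z) z := analyticAt_const.mul analyticAt_id
    exact AnalyticAt.fun_comp (g := k) (f := fun z : ℂ => u * z) h1 h2
  refine ⟨⟨⟨?_, ?_, ?_, ?_⟩, ?_⟩, ?_⟩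
  · intro z hz
    exact analyticAt_const.mul (han g h.an z hz)
  · intro z hz w hw hzw
    have h1 : g (u * z) = g (u * w) := mul_left_cancel₀ (inv_ne_zero hu0) hzw
    exact mul_left_cancel₀ hu0 (h.inj (mem_rot hu hz) (mem_rot hu hw) h1)
  · simp [h.zero]
  · have h1 : HasDerivAt g 1 (u * 0) := by
      have := (h.an 0 (by simp)).differentiableAt.hasDerivAt
      rw [h.one] at this
      simpa using this
    have h2 : HasDerivAt (fun z : ℂ => u * z) u 0 := by
      simpa using (hasDerivAt_id (0 : ℂ)).const_mul u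
    have h3 : HasDerivAt (fun z : ℂ => g (u * z)) (1 * u) 0 := HasDerivAt.comp (0 : ℂ) h1 h2
    have h4 := h3.const_mul u⁻¹
    rw [h4.deriv, one_mul, inv_mul_cancel₀ hu0]
  · obtain ⟨k, hk, hk2⟩ := h.lau
    refine ⟨fun z => u ^ 3 * k (u * z), fun z hz => analyticAt_const.mul (han k hk z hz), ?_⟩
    intro z hz hz0
    have h1 := hk2 (u * z) (mem_rot hu hz) (mul_ne_zero hu0 hz0)
    show (u⁻¹ * g (u * z))⁻¹ = z⁻¹ + b * u ^ 2 * z + z ^ 2 * (u ^ 3 * k (u * z))
    rw [mul_inv, inv_inv, h1]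
    field_simp
    try ring
  · intro v
    constructor
    · intro hv z hz
      have hz' : u⁻¹ * z ∈ ball (0 : ℂ) 1 := by
        refine mem_rot ?_ hz
        rw [norm_inv, hu, inv_one]
      have h1 := hv (u⁻¹ * z) hz'
      intro h2
      apply h1
      show u * v * (u⁻¹ * g (u * (u⁻¹ * z))) = 1
      rw [mul_inv_cancel_left₀ hu0]
      rw [← h2]
      field_simp
    · intro hv z hz
      have h1 := hv (u * z) (mem_rot hu hz)
      intro h2
      apply h1
      rw [← h2]
      field_simp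

end Pool.Agent.Lib.MP250511
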