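import Pool.Agent.Lib.MP_250511_an.Spec

set_option autoImplicit false

namespace Pool.Agent.Lib.MP250511

open Complex Metric Set

theorem specSQR : SpecSQR := by
  intro F hF hne h0
  have hd : DifferentiableOn ℂ (fun z => deriv F z / F z) (ball 0 1) := by
    apply AnalyticOnNhd.differentiableOn
    exact hF.deriv.div hF hne
  obtain ⟨φ, hφ⟩ := hd.isExactOn_ball
  have hφ' : ∀ z ∈ ball (0 : ℂ) 1, HasDerivAt φ (deriv F z / F z) z := hφ
  have hopen : IsOpen (ball (0 : ℂ) 1) := isOpen_ball
  have hφd : DifferentiableOn ℂ φ (ball 0 1) := fun z hz =>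
    (hφ' z hz).differentiableAt.differentiableWithinAt
  have hφa : AnalyticOnNhd ℂ φ (ball 0 1) := hφd.analyticOnNhd hopen
  have h0m : (0 : ℂ) ∈ ball (0 : ℂ) 1 := mem_ball_self one_pos
  -- F * exp (-φ) is constant
  have hconst : ∀ z ∈ ball (0 : ℂ) 1, F z * exp (-(φ z)) = F 0 * exp (-(φ 0)) := by
    intro z hz
    have hder : ∀ w ∈ ball (0 : ℂ) 1, HasDerivAt (fun w => F w * exp (-(φ w))) 0 w := by
      intro w hw
      have h1 := (hF w hw).differentiableAt.hasDerivAt
      have h2 : HasDerivAt (fun w => cexp (-(φ w))) (cexp (-(φ w)) * -(deriv F w / F w)) w :=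
        ((hφ' w hw).neg).cexp
      have h3 := h1.mul h2
      have h4 : deriv F w * cexp (-(φ w)) + F w * (cexp (-(φ w)) * -(deriv F w / F w)) = 0 := by
        have h5 := mul_div_cancel₀ (deriv F w) (hne w hw)
        have h6 : F w * (cexp (-(φ w)) * -(deriv F w / F w)) =
            -(cexp (-(φ w)) * (F w * (deriv F w / F w))) := by ring
        rw [h6, h5]
        ring
      rw [h4] at h3
      exact h3
    exact (convex_ball (0 : ℂ) 1).is_const_of_fderivWithin_eq_zero (𝕜 := ℂ)
      (fun w hw => (hder w hw).differentiableAt.differentiableWithinAt)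
      (fun w hw => by
        rw [fderivWithin_of_isOpen hopen hw]
        have := (hder w hw).hasFDerivAt.fderiv
        rw [this]
        ext
        simp) hz h0m
  refine ⟨fun z => exp ((φ z - φ 0) / 2), ?_, ?_, ?_⟩
  · intro z hz
    exact (((hφa z hz).sub analyticAt_const).div_const).cexp
  · simp
  · intro z hz
    have h1 := hconst z hz
    rw [h0, one_mul] at h1
    rw [← Complex.exp_nat_mul]
    have h2 : ((2 : ℕ) : ℂ) * ((φ z - φ 0) / 2) = φ z + -(φ 0) := by
      push_cast
      ring
    rw [h2, Complex.exp_add, ← h1, mul_comm (cexp (φ z)), mul_assoc, ← Complex.exp_add]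
    simp

end Pool.Agent.Lib.MP250511
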