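import Pool.Agent.Lib.MP_250511_an.Spec

/-!
Problem MP_250511_an: module STA (area comparison).
-/

set_option autoImplicit false

namespace Pool.Agent.Lib.MP250511

open Complex Metric Set MeasureTheory Filter Topology
open scoped Real ENNReal Interval

noncomputable section

namespace STAM

theorem det_mul (κ : ℂ) : ((ContinuousLinearMap.mul ℝ ℂ) κ).det = Complex.normSq κ := by
  have : (((ContinuousLinearMap.mul ℝ ℂ) κ : ℂ →L[ℝ] ℂ) : ℂ →ₗ[ℝ] ℂ) = Algebra.lmul ℝ ℂ κ := by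
    ext
    simp
  unfold ContinuousLinearMap.det
  rw [this, ← Algebra.norm_apply, Algebra.norm_complex_apply]

/-- the real derivative of a complex differentiable function -/
theorem real_deriv {f : ℂ → ℂ} {d z : ℂ} (h : HasDerivAt f d z) :
    HasFDerivAt f ((ContinuousLinearMap.mul ℝ ℂ) d) z := by
  have h1 := h.hasFDerivAt.restrictScalars ℝ
  have h2 : (ContinuousLinearMap.restrictScalars ℝ (ContinuousLinearMap.toSpanSingleton ℂ d) :
      ℂ →L[ℝ] ℂ) = (ContinuousLinearMap.mul ℝ ℂ) d := by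
    refine ContinuousLinearMap.ext fun x => ?_
    change x • d = d * x
    rw [smul_eq_mul, mul_comm]
  rw [h2] at h1
  exact h1

/-- change of variables for an injective complex differentiable map -/
theorem change {A : Set ℂ} (hA : MeasurableSet A) {f f' : ℂ → ℂ}
    (hf : ∀ z ∈ A, HasDerivAt f (f' z) z) (hi : InjOn f A) (G : ℂ → ℝ≥0∞) :
    ∫⁻ w in f '' A, G w = ∫⁻ z in A, ENNReal.ofReal (‖f' z‖ ^ 2) * G (f z) := by
  have hd : ∀ z ∈ A, HasFDerivWithinAt f ((ContinuousLinearMap.mul ℝ ℂ) (f' z)) A z := by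
    intro z hz
    exact (real_deriv (hf z hz)).hasFDerivWithinAt
  rw [lintegral_image_eq_lintegral_abs_det_fderiv_mul volume hA hd hi G]
  refine setLIntegral_congr_fun hA fun z _ => ?_
  rw [det_mul, abs_of_nonneg (Complex.normSq_nonneg _), Complex.normSq_eq_norm_sq]

end STAM

open STAM in
theorem specSTA : SpecSTA := by
  intro Y hY hinj h0 hne κ ξ W hW
  have hYne : ∀ z ∈ ball (0 : ℂ) 1 \ {0}, Y z ≠ 0 := by
    intro z hz h
    have h1 : z = 0 := hinj hz.1 (mem_ball_self one_pos) (h.trans h0.symm)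
    exact hz.2 h1
  have hD : MeasurableSet (ball (0 : ℂ) 1 \ {0}) := measurableSet_ball.diff (measurableSet_singleton 0)
  have hcont : ContinuousOn Y (ball 0 1 \ {0}) := hY.continuousOn.mono sdiff_subset
  obtain ⟨V, hV, hVe⟩ : ∃ V : Set ℂ, MeasurableSet V ∧
      (ball (0 : ℂ) 1 \ {0}) ∩ Y ⁻¹' {w | 1 < ‖w‖} = (ball (0 : ℂ) 1 \ {0}) ∩ V := by
    obtain ⟨V, hV, hVe⟩ := (_root_.continuousOn_iff'.1 hcont) {w | 1 < ‖w‖}
      (isOpen_lt continuous_const continuous_norm)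
    exact ⟨V, hV.measurableSet, by rw [inter_comm, hVe, inter_comm]⟩
  set D : Set ℂ := ball (0 : ℂ) 1 \ {0} with hDdef
  set B : Set ℂ := {z | z ∈ D ∧ 1 < ‖Y z‖} with hB
  set A : Set ℂ := {z | z ∈ D ∧ ‖Y z‖ ≤ 1} with hA
  have hBm : MeasurableSet B := by
    have : B = D ∩ V := hVe
    rw [this]
    exact hD.inter hV
  have hAm : MeasurableSet A := by
    have : A = D \ B := by
      ext z
      simp only [hA, hB, mem_ofPred_eq, Set.mem_sdiff, not_and, not_lt]
      exact ⟨fun h => ⟨h.1, fun _ => h.2⟩, fun h => ⟨h.1, h.2 h.1⟩⟩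
    rw [this]
    exact hD.diff hBm
  have hU : D = A ∪ B := by
    ext z
    simp only [hA, hB, mem_ofPred_eq, mem_union]
    constructor
    · intro h
      rcases le_or_gt ‖Y z‖ 1 with h1 | h1
      · exact Or.inl ⟨h, h1⟩
      · exact Or.inr ⟨h, h1⟩
    · rintro (h | h) <;> exact h.1
  have hdisj : Disjoint A B := by
    rw [Set.disjoint_left]
    intro z h1 h2
    exact absurd h1.2 (not_le.2 h2.2)
  have hderY : ∀ z ∈ D, HasDerivAt Y (deriv Y z) z := fun z hz =>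
    (hY z hz.1).differentiableAt.hasDerivAt
  set G : ℂ → ℝ≥0∞ := fun Z => W Z * ENNReal.ofReal (NN κ ξ Z) with hG
  -- the part `B`
  have hIB : ∫⁻ z in B, W (Th Y z) * ENNReal.ofReal (JJ Y κ ξ z) = ∫⁻ w in Y '' B, G w := by
    rw [change hBm (fun z hz => hderY z hz.1)
      (fun z hz w hw h => hinj hz.1.1 hw.1.1 h) G]
    refine setLIntegral_congr_fun hBm fun z hz => ?_
    have h1 : Th Y z = Y z := if_neg (not_le.2 hz.2)
    simp only [hG]
    rw [h1, mul_left_comm, ← ENNReal.ofReal_mul (by positivity)]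
    congr 2
    unfold JJ NN
    have h2 := hYne z hz.1
    rw [← mul_pow, ← norm_mul]
    have h3 : deriv Y z * (κ - ξ / Y z + κ / Y z ^ 2) =
        -(deriv Y z * (ξ / Y z - κ / Y z ^ 2 - κ)) := by ring
    rw [h3, norm_neg]
  have hIA : ∫⁻ z in A, W (Th Y z) * ENNReal.ofReal (JJ Y κ ξ z) =
      ∫⁻ w in (fun z => (Y z)⁻¹) '' A, G w := by
    have hd : ∀ z ∈ A, HasDerivAt (fun z => (Y z)⁻¹) (-deriv Y z / Y z ^ 2) z := fun z hz =>
      (hderY z hz.1).inv (hYne z hz.1)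
    rw [change hAm hd (fun z hz w hw h => hinj hz.1.1 hw.1.1 (inv_injective h)) G]
    refine setLIntegral_congr_fun hAm fun z hz => ?_
    have h1 : Th Y z = (Y z)⁻¹ := if_pos hz.2
    simp only [hG]
    rw [h1, mul_left_comm, ← ENNReal.ofReal_mul (by positivity)]
    congr 2
    unfold JJ NN
    have h2 := hYne z hz.1
    rw [← mul_pow, ← norm_mul]
    have h3 : -deriv Y z / Y z ^ 2 * (κ - ξ / (Y z)⁻¹ + κ / (Y z)⁻¹ ^ 2) =
        (deriv Y z * (ξ / Y z - κ / Y z ^ 2 - κ)) := by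
      field_simp
      ring
    rw [h3]
  have hdisj2 : Disjoint ((fun z => (Y z)⁻¹) '' A) (Y '' B) := by
    rw [Set.disjoint_left]
    rintro _ ⟨z, hz, rfl⟩ ⟨w, hw, h⟩
    refine hne z hz.1.1 w hw.1.1 ?_
    change Y w = (Y z)⁻¹ at h
    rw [h, mul_inv_cancel₀ (hYne z hz.1)]
  have hmB : MeasurableSet (Y '' B) :=
    measurable_image_of_fderivWithin hBm
      (f' := fun z => (ContinuousLinearMap.mul ℝ ℂ) (deriv Y z)) (fun z hz =>
        (real_deriv (hderY z hz.1)).hasFDerivWithinAt) (fun z hz w hw h => hinj hz.1.1 hw.1.1 h)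
  have hsub : ((fun z => (Y z)⁻¹) '' A) ∪ (Y '' B) ⊆ {Z : ℂ | 1 ≤ ‖Z‖} := by
    rintro _ (⟨z, hz, rfl⟩ | ⟨z, hz, rfl⟩)
    · change 1 ≤ ‖(Y z)⁻¹‖
      rw [norm_inv]
      exact (one_le_inv₀ (norm_pos_iff.2 (hYne z hz.1))).2 hz.2
    · exact le_of_lt hz.2
  rw [hU, lintegral_union hBm hdisj, hIA, hIB, ← lintegral_union hmB hdisj2]
  exact lintegral_mono_set hsub

end

end Pool.Agent.Lib.MP250511
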