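import Pool.Agent.Lib.MP_250511_an.Spec

/-!
Module UPA (helper91): the centred integral.
-/

set_option autoImplicit false

namespace Pool.Agent.Lib.MP250511

open Complex Metric Set MeasureTheory Filter Topology
open scoped Real ENNReal Interval

noncomputable section

namespace UPAM

/-- The angular mean of the energy. -/
lemma ang (hPAR : SpecPAR) (κ : ℂ) (ξ t : ℝ) (ht : 0 < t) :
    ∫ θ in (-π)..π, NN κ ξ ((t : ℂ) * exp (θ * I)) =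
      2 * π * (‖κ‖ ^ 2 + ξ ^ 2 / t ^ 2 + ‖κ‖ ^ 2 / t ^ 4) := by
  have h1 := hPAR 3 (fun j => if j = 1 then -(ξ : ℂ) else κ) (fun _ => 0) (t + 1) t
    (fun _ _ => analyticAt_const) ht (by linarith)
  have h2 : ∀ θ : ℝ, NN κ ξ ((t : ℂ) * exp (θ * I)) =
      ‖(∑ j ∈ Finset.range 3, (if j = 1 then -(ξ : ℂ) else κ) * ((t : ℂ) * exp (θ * I)) ^ j) +
        ((t : ℂ) * exp (θ * I)) ^ 3 * 0‖ ^ 2 * (1 / t ^ 4) := by
    intro θ
    have hZ : (t : ℂ) * exp (θ * I) ≠ 0 :=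
      mul_ne_zero (by exact_mod_cast ht.ne') (exp_ne_zero _)
    have hn : ‖(t : ℂ) * exp (θ * I)‖ = t := by
      rw [norm_mul, norm_exp_ofReal_mul_I, mul_one, Complex.norm_real, Real.norm_of_nonneg ht.le]
    have ht0 : (t : ℂ) ≠ 0 := by exact_mod_cast ht.ne'
    have h3 : κ - ξ / ((t : ℂ) * exp (θ * I)) + κ / ((t : ℂ) * exp (θ * I)) ^ 2 =
        ((∑ j ∈ Finset.range 3, (if j = 1 then -(ξ : ℂ) else κ) * ((t : ℂ) * exp (θ * I)) ^ j) +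
        ((t : ℂ) * exp (θ * I)) ^ 3 * 0) / ((t : ℂ) * exp (θ * I)) ^ 2 := by
      rw [Finset.sum_range_succ, Finset.sum_range_succ, Finset.sum_range_succ,
        Finset.sum_range_zero]
      norm_num
      field_simp
      ring
    unfold NN
    rw [h3, norm_div, norm_pow, hn, div_pow]
    field_simp
  simp_rw [h2]
  rw [intervalIntegral.integral_mul_const, h1, Finset.sum_range_succ, Finset.sum_range_succ,
    Finset.sum_range_succ, Finset.sum_range_zero]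
  norm_num
  field_simp
  ring

lemma norm_tz (t θ : ℝ) (ht : 0 < t) : ‖(t : ℂ) * exp (θ * I)‖ = t := by
  rw [norm_mul, norm_exp_ofReal_mul_I, mul_one, Complex.norm_real, Real.norm_of_nonneg ht.le]

/-- Restriction of the domain. -/
lemma dom (κ : ℂ) (ξ d : ℝ) (hd : 0 < d) :
    ∫ Z in {Z : ℂ | 1 ≤ ‖Z‖}, wR d 0 Z * NN κ ξ Z =
      ∫ Z in {Z : ℂ | 1 < ‖Z‖ ∧ ‖Z‖ < 1 / d}, wR d 0 Z * NN κ ξ Z := by
  apply setIntegral_eq_of_subset_of_ae_sdiff_eq_zero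
  · exact (isClosed_le continuous_const continuous_norm).measurableSet.nullMeasurableSet
  · intro Z hZ
    exact hZ.1.le
  · have h1 : ∀ᵐ Z : ℂ, Z ∉ sphere (0 : ℂ) 1 := by
      rw [← measure_eq_zero_iff_ae_notMem]
      exact Measure.addHaar_sphere _ _ _
    filter_upwards [h1] with Z hZ1 hZ2
    have h2 : (1 : ℝ) < ‖Z‖ := by
      have h3 : (1 : ℝ) ≤ ‖Z‖ := hZ2.1
      rcases h3.lt_or_eq with h4 | h4
      · exact h4
      · exact absurd (by rw [mem_sphere_zero_iff_norm]; exact h4.symm) hZ1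
    have h3 : 1 / d ≤ ‖Z‖ := by
      by_contra h4
      exact hZ2.2 ⟨h2, not_le.1 h4⟩
    have h4 : wR d 0 Z = 0 := by
      unfold wR
      rw [add_zero]
      apply max_eq_left
      have h5 : 1 ≤ d * ‖Z‖ := by
        rwa [div_le_iff₀ hd, mul_comm] at h3
      nlinarith
    rw [h4, zero_mul]

end UPAM

open UPAM in
/-- Module UPA. -/
theorem specUPA (hPAR : SpecPAR) (hPOL : SpecPOL) : SpecUPA := by
  intro κ ξ η hη
  have hev : ∀ᶠ d : ℝ in 𝓝[>] (0 : ℝ), 0 < d ∧ d < 1 ∧ π * (ξ ^ 2 * d ^ 2) ≤ η := by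
    have h1 : ∀ᶠ d : ℝ in 𝓝[>] (0 : ℝ), d < 1 :=
      mem_nhdsWithin_of_mem_nhds (gt_mem_nhds one_pos)
    have h2 : Tendsto (fun d : ℝ => π * (ξ ^ 2 * d ^ 2)) (𝓝[>] 0) (𝓝 (π * (ξ ^ 2 * 0 ^ 2))) := by
      apply Tendsto.mono_left _ nhdsWithin_le_nhds
      exact (by fun_prop : Continuous fun d : ℝ => π * (ξ ^ 2 * d ^ 2)).tendsto 0
    have h3 := h2.eventually (ge_mem_nhds (by simpa using hη))
    filter_upwards [self_mem_nhdsWithin, h1, h3] with d a1 a2 a3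
    exact ⟨a1, a2, a3⟩
  filter_upwards [hev] with d hd
  obtain ⟨hd0, hd1, hd2⟩ := hd
  have hT : 1 < 1 / d := (one_lt_div hd0).2 hd1
  have hT0 : 0 < 1 / d := by positivity
  have hcont : ContinuousOn (fun Z => wR d 0 Z * NN κ ξ Z) {z : ℂ | 1 ≤ ‖z‖ ∧ ‖z‖ ≤ 1 / d} := by
    have hne : ∀ z ∈ {z : ℂ | 1 ≤ ‖z‖ ∧ ‖z‖ ≤ 1 / d}, z ≠ 0 := by
      intro z hz h0
      have : (1 : ℝ) ≤ ‖z‖ := hz.1
      rw [h0, norm_zero] at this
      linarith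
    have h1 : Continuous fun Z : ℂ => wR d 0 Z := by
      unfold wR
      fun_prop
    refine h1.continuousOn.mul ?_
    unfold NN
    refine ContinuousOn.pow (ContinuousOn.norm ?_) 2
    refine (continuousOn_const.sub (continuousOn_const.div continuousOn_id hne)).add
      (continuousOn_const.div (continuousOn_id.pow 2) fun z hz => pow_ne_zero 2 (hne z hz))
  rw [dom κ ξ d hd0, hPOL _ 1 (1 / d) one_pos hT.le hcont]
  have h1 : ∀ t ∈ uIcc 1 (1 / d), t * ∫ θ in (-π)..π,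
      wR d 0 ((t : ℂ) * exp (θ * I)) * NN κ ξ ((t : ℂ) * exp (θ * I)) =
      2 * π * ((1 - d ^ 2 * t ^ 2) * (‖κ‖ ^ 2 * t + ξ ^ 2 / t + ‖κ‖ ^ 2 / t ^ 3)) := by
    intro t ht
    rw [uIcc_of_le hT.le] at ht
    have ht0 : 0 < t := by linarith [ht.1]
    have h2 : ∀ θ : ℝ, wR d 0 ((t : ℂ) * exp (θ * I)) = 1 - d ^ 2 * t ^ 2 := by
      intro θ
      unfold wR
      rw [add_zero, norm_tz t θ ht0]
      apply max_eq_right
      have h3 : d * t ≤ 1 := by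
        have := ht.2
        rwa [le_div_iff₀ hd0, mul_comm] at this
      have h4 : 0 ≤ d * t := by positivity
      nlinarith
    simp_rw [h2]
    rw [intervalIntegral.integral_const_mul, ang hPAR κ ξ t ht0]
    field_simp
  rw [intervalIntegral.integral_congr h1]
  -- the primitive
  obtain ⟨G, hG⟩ : ∃ G : ℝ → ℝ, G = fun t : ℝ => 2 * π * (‖κ‖ ^ 2 * t ^ 2 / 2 +
      ξ ^ 2 * Real.log t - ‖κ‖ ^ 2 / (2 * t ^ 2) -
      d ^ 2 * ‖κ‖ ^ 2 * t ^ 4 / 4 - d ^ 2 * ξ ^ 2 * t ^ 2 / 2 -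
      d ^ 2 * ‖κ‖ ^ 2 * Real.log t) := ⟨_, rfl⟩
  have h2 : ∫ t in (1 : ℝ)..(1 / d),
      2 * π * ((1 - d ^ 2 * t ^ 2) * (‖κ‖ ^ 2 * t + ξ ^ 2 / t + ‖κ‖ ^ 2 / t ^ 3)) =
      G (1 / d) - G 1 := by
    rw [hG]
    apply intervalIntegral.integral_eq_sub_of_hasDerivAt (f := fun t : ℝ => 2 * π *
      (‖κ‖ ^ 2 * t ^ 2 / 2 + ξ ^ 2 * Real.log t - ‖κ‖ ^ 2 / (2 * t ^ 2) -
      d ^ 2 * ‖κ‖ ^ 2 * t ^ 4 / 4 - d ^ 2 * ξ ^ 2 * t ^ 2 / 2 -
      d ^ 2 * ‖κ‖ ^ 2 * Real.log t))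
    · intro t ht
      rw [uIcc_of_le hT.le] at ht
      have ht0 : t ≠ 0 := by
        have := ht.1
        linarith
      have e1 : HasDerivAt (fun t : ℝ => ‖κ‖ ^ 2 * t ^ 2 / 2) (‖κ‖ ^ 2 * (2 * t) / 2) t := by
        have := ((hasDerivAt_pow 2 t).const_mul (‖κ‖ ^ 2)).div_const 2
        simpa using this
      have e2 : HasDerivAt (fun t : ℝ => ξ ^ 2 * Real.log t) (ξ ^ 2 * t⁻¹) t :=
        (Real.hasDerivAt_log ht0).const_mul _
      have e3 : HasDerivAt (fun t : ℝ => ‖κ‖ ^ 2 / (2 * t ^ 2))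
          ((0 * (2 * t ^ 2) - ‖κ‖ ^ 2 * (2 * (2 * t))) / (2 * t ^ 2) ^ 2) t := by
        have h4 : HasDerivAt (fun t : ℝ => 2 * t ^ 2) (2 * (2 * t)) t := by
          have := (hasDerivAt_pow 2 t).const_mul 2
          simpa using this
        exact (hasDerivAt_const t (‖κ‖ ^ 2)).div h4 (by positivity)
      have e4 : HasDerivAt (fun t : ℝ => d ^ 2 * ‖κ‖ ^ 2 * t ^ 4 / 4)
          (d ^ 2 * ‖κ‖ ^ 2 * (4 * t ^ 3) / 4) t := by
        have := ((hasDerivAt_pow 4 t).const_mul (d ^ 2 * ‖κ‖ ^ 2)).div_const 4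
        simpa using this
      have e5 : HasDerivAt (fun t : ℝ => d ^ 2 * ξ ^ 2 * t ^ 2 / 2)
          (d ^ 2 * ξ ^ 2 * (2 * t) / 2) t := by
        have := ((hasDerivAt_pow 2 t).const_mul (d ^ 2 * ξ ^ 2)).div_const 2
        simpa using this
      have e6 : HasDerivAt (fun t : ℝ => d ^ 2 * ‖κ‖ ^ 2 * Real.log t)
          (d ^ 2 * ‖κ‖ ^ 2 * t⁻¹) t :=
        (Real.hasDerivAt_log ht0).const_mul _
      have e7 := (((((e1.add e2).sub e3).sub e4).sub e5).sub e6).const_mul (2 * π)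
      refine HasDerivAt.congr_deriv e7 ?_
      field_simp
      ring
    · apply ContinuousOn.intervalIntegrable
      rw [uIcc_of_le hT.le]
      have hne : ∀ t ∈ Icc (1 : ℝ) (1 / d), t ≠ 0 := fun t ht h0 => by
        have := ht.1
        linarith
      apply ContinuousOn.mul continuousOn_const
      apply ContinuousOn.mul (by fun_prop)
      refine ((by fun_prop : ContinuousOn (fun t : ℝ => ‖κ‖ ^ 2 * t) _).add
        (continuousOn_const.div continuousOn_id hne)).add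
        (continuousOn_const.div (continuousOn_id.pow 3) fun t ht => pow_ne_zero 3 (hne t ht))
  rw [h2, hG]
  simp only [Real.log_one]
  have h3 : 0 ≤ ‖κ‖ ^ 2 * (d ^ 2 / 2 + 2 * d ^ 2 * Real.log (1 / d)) := by
    have := Real.log_nonneg hT.le
    positivity
  have h4 : (2 * π * (‖κ‖ ^ 2 * (1 / d) ^ 2 / 2 + ξ ^ 2 * Real.log (1 / d) -
      ‖κ‖ ^ 2 / (2 * (1 / d) ^ 2) - d ^ 2 * ‖κ‖ ^ 2 * (1 / d) ^ 4 / 4 -
      d ^ 2 * ξ ^ 2 * (1 / d) ^ 2 / 2 - d ^ 2 * ‖κ‖ ^ 2 * Real.log (1 / d)) -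
      2 * π * (‖κ‖ ^ 2 * 1 ^ 2 / 2 + ξ ^ 2 * 0 - ‖κ‖ ^ 2 / (2 * 1 ^ 2) -
      d ^ 2 * ‖κ‖ ^ 2 * 1 ^ 4 / 4 - d ^ 2 * ξ ^ 2 * 1 ^ 2 / 2 - d ^ 2 * ‖κ‖ ^ 2 * 0)) =
      π * (‖κ‖ ^ 2 / (2 * d ^ 2) + 2 * ξ ^ 2 * Real.log (1 / d) - ξ ^ 2) +
      π * (ξ ^ 2 * d ^ 2) -
      π * (‖κ‖ ^ 2 * (d ^ 2 / 2 + 2 * d ^ 2 * Real.log (1 / d))) := by
    field_simp
    ring
  rw [h4]
  have h5 : 0 ≤ π * (‖κ‖ ^ 2 * (d ^ 2 / 2 + 2 * d ^ 2 * Real.log (1 / d))) :=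
    mul_nonneg Real.pi_pos.le h3
  linarith

end

end Pool.Agent.Lib.MP250511
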