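import Pool.Agent.Lib.MP_250511_an.Spec

/-!
Problem MP_250511_an, module UPB: the integral of the difference of the weights.
-/

set_option autoImplicit false

namespace Pool.Agent.Lib.MP250511

open Complex Metric Set MeasureTheory Filter Topology
open scoped Real

namespace UPBM

theorem cont (d : ℝ) (s : ℂ) : Continuous (wR d s) := by
  unfold wR
  fun_prop

theorem support_sub {d : ℝ} (hd : 0 < d) (s : ℂ) :
    Function.support (wR d s) ⊆ closedBall (-s) (1 / d) := by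
  intro Z hZ
  rw [Function.mem_support] at hZ
  rw [mem_closedBall, dist_eq_norm, sub_neg_eq_add]
  by_contra hc
  push Not at hc
  apply hZ
  unfold wR
  apply max_eq_left
  have h1 : 1 < d * ‖Z + s‖ := by
    rw [div_lt_iff₀ hd] at hc
    linarith [mul_comm d ‖Z + s‖]
  have h2 : d ^ 2 * ‖Z + s‖ ^ 2 = (d * ‖Z + s‖) ^ 2 := by ring
  rw [h2]
  nlinarith

theorem compact {d : ℝ} (hd : 0 < d) (s : ℂ) : HasCompactSupport (wR d s) :=
  HasCompactSupport.of_support_subset_isCompact (isCompact_closedBall (-s) (1 / d))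
    (support_sub hd s)

theorem integrable {d : ℝ} (hd : 0 < d) (s : ℂ) : Integrable (wR d s) :=
  (cont d s).integrable_of_hasCompactSupport (compact hd s)

theorem integral_eq (d : ℝ) (s : ℂ) : ∫ Z, wR d s Z = ∫ Z, wR d 0 Z := by
  have h1 : (fun Z => wR d s Z) = fun Z => wR d 0 (Z + s) := by
    funext Z
    simp [wR]
  rw [h1]
  exact integral_add_right_eq_self (fun Z => wR d 0 Z) s

theorem bound (d : ℝ) (s Z : ℂ) (hZ : ‖Z‖ < 1) :
    ‖wR d s Z - wR d 0 Z‖ ≤ d ^ 2 * ((1 + ‖s‖) ^ 2 + 1) := by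
  have h1 : |wR d s Z - wR d 0 Z| ≤ |(1 - d ^ 2 * ‖Z + s‖ ^ 2) - (1 - d ^ 2 * ‖Z + 0‖ ^ 2)| := by
    unfold wR
    have := abs_max_sub_max_le_max (0 : ℝ) (1 - d ^ 2 * ‖Z + s‖ ^ 2) 0 (1 - d ^ 2 * ‖Z + 0‖ ^ 2)
    refine this.trans ?_
    simp
  rw [Real.norm_eq_abs]
  refine h1.trans ?_
  have h2 : ‖Z + s‖ ≤ 1 + ‖s‖ := (norm_add_le Z s).trans (by linarith)
  have h3 : ‖Z + s‖ ^ 2 ≤ (1 + ‖s‖) ^ 2 := by gcongr
  have h4 : ‖Z + 0‖ ^ 2 ≤ 1 := by
    rw [add_zero]; nlinarith [norm_nonneg Z]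
  have h5 : 0 ≤ ‖Z + s‖ ^ 2 := by positivity
  have h6 : 0 ≤ ‖Z + 0‖ ^ 2 := by positivity
  rw [abs_le]
  constructor <;> nlinarith [sq_nonneg d, mul_le_mul_of_nonneg_left h3 (sq_nonneg d),
    mul_le_mul_of_nonneg_left h4 (sq_nonneg d), mul_nonneg (sq_nonneg d) h5,
    mul_nonneg (sq_nonneg d) h6]

end UPBM

open UPBM in
theorem specUPB : SpecUPB := by
  intro s
  set V : ℝ := (volume (ball (0 : ℂ) 1)).toReal with hV
  have hlim : Tendsto (fun d : ℝ => d ^ 2 * ((1 + ‖s‖) ^ 2 + 1) * V) (𝓝[>] 0) (𝓝 0) := by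
    have h1 : Tendsto (fun d : ℝ => d ^ 2 * ((1 + ‖s‖) ^ 2 + 1) * V) (𝓝 0)
        (𝓝 (0 ^ 2 * ((1 + ‖s‖) ^ 2 + 1) * V)) := by
      apply Continuous.tendsto
      fun_prop
    rw [show (0 : ℝ) ^ 2 * ((1 + ‖s‖) ^ 2 + 1) * V = 0 by ring] at h1
    exact h1.mono_left nhdsWithin_le_nhds
  refine squeeze_zero_norm' ?_ hlim
  filter_upwards [self_mem_nhdsWithin] with d hd
  have hd : 0 < d := hd
  have hi : Integrable (fun Z => wR d s Z - wR d 0 Z) := (integrable hd s).sub (integrable hd 0)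
  have hc : {Z : ℂ | 1 ≤ ‖Z‖} = (ball (0 : ℂ) 1)ᶜ := by
    ext Z; simp
  have h0 : ∫ Z, (wR d s Z - wR d 0 Z) = 0 := by
    rw [integral_sub (integrable hd s) (integrable hd 0), integral_eq, sub_self]
  have h1 : ∫ Z in (ball (0 : ℂ) 1)ᶜ, (wR d s Z - wR d 0 Z) =
      - ∫ Z in ball (0 : ℂ) 1, (wR d s Z - wR d 0 Z) := by
    have := integral_add_compl (measurableSet_ball (x := (0 : ℂ)) (ε := 1)) hi
    rw [h0] at this
    linarith
  rw [hc, h1, norm_neg]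
  refine norm_setIntegral_le_of_norm_le_const measure_ball_lt_top ?_
  intro Z hZ
  exact bound d s Z (by rwa [mem_ball_zero_iff] at hZ)

end Pool.Agent.Lib.MP250511
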