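import Pool.Agent.Lib.MP_250511_an.Spec

/-!
Module UPC (helper23): the shift term.
-/

set_option autoImplicit false

namespace Pool.Agent.Lib.MP250511

open Complex Metric Set MeasureTheory Filter Topology
open scoped Real ENNReal ComplexConjugate

noncomputable section

namespace UPCM

/-- first factor -/
def AA (s : ℂ) (d : ℝ) (W : ℂ) : ℝ :=
  (max 0 (1 - ‖W + d * s‖ ^ 2) - max 0 (1 - ‖W‖ ^ 2)) / d

/-- second factor -/
def GG (κ : ℂ) (ξ d : ℝ) (W : ℂ) : ℝ :=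
  (‖κ + d * (-ξ / W + κ * d / W ^ 2)‖ ^ 2 - ‖κ‖ ^ 2) / d

/-- scaled integrand -/
def HH (κ s : ℂ) (ξ d : ℝ) (W : ℂ) : ℝ :=
  if d ≤ ‖W‖ then AA s d W * GG κ ξ d W else 0

lemma scale (κ s : ℂ) (ξ d : ℝ) (hd : 0 < d) :
    ∫ Z in {Z : ℂ | 1 ≤ ‖Z‖}, (wR d s Z - wR d 0 Z) * (NN κ ξ Z - ‖κ‖ ^ 2) =
      ∫ W, HH κ s ξ d W := by
  have hm : MeasurableSet {Z : ℂ | 1 ≤ ‖Z‖} := measurableSet_le measurable_const measurable_norm
  rw [← integral_indicator hm]
  have h1 := Measure.integral_comp_inv_smul (volume : Measure ℂ)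
    ({Z : ℂ | 1 ≤ ‖Z‖}.indicator
      (fun Z => (wR d s Z - wR d 0 Z) * (NN κ ξ Z - ‖κ‖ ^ 2))) d
  rw [Complex.finrank_real_complex, abs_of_pos (by positivity), smul_eq_mul] at h1
  have h2 : ∀ W, HH κ s ξ d W = (d ^ 2)⁻¹ * ({Z : ℂ | 1 ≤ ‖Z‖}.indicator
      (fun Z => (wR d s Z - wR d 0 Z) * (NN κ ξ Z - ‖κ‖ ^ 2))) (d⁻¹ • W) := by
    intro W
    have hd0 : (d : ℂ) ≠ 0 := by exact_mod_cast hd.ne'
    have hn : ∀ V : ℂ, ‖V‖ = d * ‖d⁻¹ • V‖ := by
      intro V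
      rw [norm_smul, norm_inv, Real.norm_of_nonneg hd.le]
      field_simp
    unfold HH indicator
    by_cases hW : d ≤ ‖W‖
    · have h3 : d⁻¹ • W ∈ {Z : ℂ | 1 ≤ ‖Z‖} := by
        show 1 ≤ ‖d⁻¹ • W‖
        rw [hn W] at hW
        nlinarith
      rw [if_pos hW, if_pos h3]
      have hW0 : W ≠ 0 := by
        intro h
        rw [h, norm_zero] at hW
        linarith
      have e1 : wR d s (d⁻¹ • W) = max 0 (1 - ‖W + d * s‖ ^ 2) := by
        unfold wR
        rw [← mul_pow, hn (W + d * s)]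
        congr 4
        rw [smul_add]
        rw [show (d⁻¹ : ℝ) • ((d : ℂ) * s) = s from by
          rw [real_smul, ofReal_inv, inv_mul_cancel_left₀ hd0]]
      have e2 : wR d 0 (d⁻¹ • W) = max 0 (1 - ‖W‖ ^ 2) := by
        unfold wR
        rw [← mul_pow, add_zero, ← hn W]
      have e3 : NN κ ξ (d⁻¹ • W) = ‖κ + d * (-ξ / W + κ * d / W ^ 2)‖ ^ 2 := by
        unfold NN
        congr 2
        rw [real_smul]
        push_cast
        field_simp
        ring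
      beta_reduce
      rw [e1, e2, e3]
      unfold AA GG
      field_simp
    · have h3 : d⁻¹ • W ∉ {Z : ℂ | 1 ≤ ‖Z‖} := by
        intro h
        have h' : 1 ≤ ‖d⁻¹ • W‖ := h
        apply hW
        rw [hn W]
        nlinarith
      rw [if_neg hW, if_neg h3, mul_zero]
  simp_rw [h2]
  rw [integral_const_mul, h1, ← mul_assoc, inv_mul_cancel₀ (by positivity), one_mul]

lemma nsq (a b : ℂ) : ‖a + b‖ ^ 2 = ‖a‖ ^ 2 + 2 * (a * conj b).re + ‖b‖ ^ 2 := by
  rw [← Complex.normSq_eq_norm_sq, ← Complex.normSq_eq_norm_sq, ← Complex.normSq_eq_norm_sq,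
    Complex.normSq_add]
  ring

lemma re_le (a b : ℂ) : |(a * conj b).re| ≤ ‖a‖ * ‖b‖ := by
  refine (Complex.abs_re_le_norm _).trans ?_
  rw [norm_mul, Complex.norm_conj]

lemma nd (a b : ℂ) : |‖a + b‖ ^ 2 - ‖a‖ ^ 2| ≤ 2 * ‖a‖ * ‖b‖ + ‖b‖ ^ 2 := by
  rw [nsq]
  have h1 := abs_le.1 (re_le a b)
  have h2 : 0 ≤ ‖b‖ ^ 2 := by positivity
  have h3 : 0 ≤ ‖a‖ * ‖b‖ := by positivity
  rw [abs_le]
  constructor <;> linarith [h1.1, h1.2]

lemma boundA (s : ℂ) (d : ℝ) (hd : 0 < d) (W : ℂ) (hW : d ≤ ‖W‖) :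
    |AA s d W| ≤ (2 * ‖s‖ + ‖s‖ ^ 2) * ‖W‖ := by
  unfold AA
  rw [abs_div, abs_of_pos hd, div_le_iff₀ hd]
  have h1 : |max 0 (1 - ‖W + d * s‖ ^ 2) - max 0 (1 - ‖W‖ ^ 2)| ≤
      |‖W + d * s‖ ^ 2 - ‖W‖ ^ 2| := by
    refine (abs_max_sub_max_le_max _ _ _ _).trans ?_
    rw [sub_self, abs_zero, max_eq_right (abs_nonneg _)]
    rw [show 1 - ‖W + d * s‖ ^ 2 - (1 - ‖W‖ ^ 2) = -(‖W + d * s‖ ^ 2 - ‖W‖ ^ 2) by ring, abs_neg]
  refine h1.trans ((nd _ _).trans ?_)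
  rw [norm_mul, Complex.norm_real, Real.norm_of_nonneg hd.le]
  have h2 : d * ‖s‖ ^ 2 ≤ ‖W‖ * ‖s‖ ^ 2 := mul_le_mul_of_nonneg_right hW (by positivity)
  nlinarith

lemma boundG (κ : ℂ) (ξ d : ℝ) (hd : 0 < d) (W : ℂ) (hW : d ≤ ‖W‖) :
    |GG κ ξ d W| * ‖W‖ ≤ (3 * ‖κ‖ + |ξ|) * (|ξ| + ‖κ‖) := by
  have hW0 : 0 < ‖W‖ := by linarith
  unfold GG
  rw [abs_div, abs_of_pos hd]
  have h1 := nd κ (d * (-ξ / W + κ * d / W ^ 2))
  have h2 : ‖(d : ℂ) * (-ξ / W + κ * d / W ^ 2)‖ ≤ d * ((|ξ| + ‖κ‖) / ‖W‖) := by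
    rw [norm_mul, Complex.norm_real, Real.norm_of_nonneg hd.le]
    apply mul_le_mul_of_nonneg_left _ hd.le
    refine (norm_add_le _ _).trans ?_
    rw [norm_div, norm_div, norm_neg, Complex.norm_real, norm_mul, Complex.norm_real,
      Real.norm_of_nonneg hd.le, norm_pow, add_div, Real.norm_eq_abs]
    have : ‖κ‖ * d / ‖W‖ ^ 2 ≤ ‖κ‖ / ‖W‖ := by
      rw [div_le_div_iff₀ (by positivity) hW0]
      have : ‖κ‖ * d ≤ ‖κ‖ * ‖W‖ := mul_le_mul_of_nonneg_left hW (norm_nonneg _)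
      nlinarith
    linarith
  set b := ‖(d : ℂ) * (-ξ / W + κ * d / W ^ 2)‖ with hb
  have hb0 : 0 ≤ b := norm_nonneg _
  have h3 : b ≤ |ξ| + ‖κ‖ := by
    refine h2.trans ?_
    rw [← mul_div_assoc, div_le_iff₀ hW0, mul_comm]
    exact mul_le_mul_of_nonneg_left hW (by positivity)
  have h4 : b * ‖W‖ ≤ d * (|ξ| + ‖κ‖) := by
    rw [← mul_div_assoc, le_div_iff₀ hW0] at h2
    exact h2
  rw [div_mul_eq_mul_div, div_le_iff₀ hd]
  have hk : 0 ≤ ‖κ‖ := norm_nonneg _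
  have hx : 0 ≤ |ξ| := abs_nonneg _
  calc |‖κ + d * (-ξ / W + κ * d / W ^ 2)‖ ^ 2 - ‖κ‖ ^ 2| * ‖W‖
      ≤ (2 * ‖κ‖ * b + b ^ 2) * ‖W‖ := mul_le_mul_of_nonneg_right h1 hW0.le
    _ = (2 * ‖κ‖ + b) * (b * ‖W‖) := by ring
    _ ≤ (2 * ‖κ‖ + (|ξ| + ‖κ‖)) * (d * (|ξ| + ‖κ‖)) := by
        apply mul_le_mul (by linarith) h4 (by positivity) (by positivity)
    _ = (3 * ‖κ‖ + |ξ|) * (|ξ| + ‖κ‖) * d := by ring

lemma bound (κ s : ℂ) (ξ d : ℝ) (hd : 0 < d) (hs : d * ‖s‖ ≤ 1) (W : ℂ) :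
    ‖HH κ s ξ d W‖ ≤ (closedBall (0 : ℂ) 2).indicator
      (fun _ => (2 * ‖s‖ + ‖s‖ ^ 2) * ((3 * ‖κ‖ + |ξ|) * (|ξ| + ‖κ‖))) W := by
  unfold HH
  by_cases h2 : ‖W‖ ≤ 2
  · rw [indicator_of_mem (by rw [mem_closedBall_zero_iff]; exact h2)]
    split_ifs with h
    · rw [Real.norm_eq_abs, abs_mul]
      have h3 := boundA s d hd W h
      have h4 := boundG κ ξ d hd W h
      calc |AA s d W| * |GG κ ξ d W| ≤ ((2 * ‖s‖ + ‖s‖ ^ 2) * ‖W‖) * |GG κ ξ d W| :=
            mul_le_mul_of_nonneg_right h3 (abs_nonneg _)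
        _ = (2 * ‖s‖ + ‖s‖ ^ 2) * (|GG κ ξ d W| * ‖W‖) := by ring
        _ ≤ _ := mul_le_mul_of_nonneg_left h4 (by positivity)
    · rw [norm_zero]
      positivity
  · rw [indicator_of_notMem (by rw [mem_closedBall_zero_iff]; exact h2)]
    push Not at h2
    have h5 : AA s d W = 0 := by
      unfold AA
      have h6 : 1 ≤ ‖W + d * s‖ := by
        have h7 : ‖W‖ ≤ ‖W + d * s‖ + ‖(d : ℂ) * s‖ := by
          have := norm_sub_le (W + d * s) (d * s)
          rwa [add_sub_cancel_right] at this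
        rw [norm_mul, Complex.norm_real, Real.norm_of_nonneg hd.le] at h7
        linarith
      rw [max_eq_left (by nlinarith), max_eq_left (by nlinarith)]
      simp
    rw [h5]
    simp

lemma measH (κ s : ℂ) (ξ d : ℝ) : Measurable (HH κ s ξ d) := by
  unfold HH
  apply Measurable.ite (measurableSet_le measurable_const measurable_norm)
  · unfold AA GG
    fun_prop
  · exact measurable_const

/-- the limit function -/
def LL (κ s : ℂ) (ξ : ℝ) (W : ℂ) : ℝ :=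
  (ball (0 : ℂ) 1).indicator (fun W => 4 * ξ * ((W * conj s).re * (conj κ / W).re)) W

lemma limA (s W : ℂ) (hW : ‖W‖ < 1) :
    Tendsto (fun d : ℝ => AA s d W) (𝓝[>] 0) (𝓝 (-2 * (W * conj s).re)) := by
  have h1 : Tendsto (fun d : ℝ => -2 * (W * conj s).re - d * ‖s‖ ^ 2) (𝓝[>] 0)
      (𝓝 (-2 * (W * conj s).re)) := by
    have : Tendsto (fun d : ℝ => -2 * (W * conj s).re - d * ‖s‖ ^ 2) (𝓝 0)
        (𝓝 (-2 * (W * conj s).re - 0 * ‖s‖ ^ 2)) :=
      Continuous.tendsto (by fun_prop) 0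
    rw [zero_mul, sub_zero] at this
    exact this.mono_left nhdsWithin_le_nhds
  refine h1.congr' ?_
  have h2 : ∀ᶠ d : ℝ in 𝓝[>] 0, ‖W + d * s‖ < 1 := by
    have h3 : Tendsto (fun d : ℝ => ‖W + d * s‖) (𝓝 0) (𝓝 ‖W + (0 : ℝ) * s‖) :=
      Continuous.tendsto (by fun_prop) 0
    rw [ofReal_zero, zero_mul, add_zero] at h3
    exact (h3.mono_left nhdsWithin_le_nhds).eventually_lt_const hW
  filter_upwards [h2, self_mem_nhdsWithin] with d h3 h4
  have hd : 0 < d := h4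
  unfold AA
  rw [max_eq_right (by nlinarith [norm_nonneg (W + d * s)]),
    max_eq_right (by nlinarith [norm_nonneg W]), nsq]
  have h5 : (W * conj ((d : ℂ) * s)).re = d * (W * conj s).re := by
    rw [map_mul, conj_ofReal, mul_left_comm, re_ofReal_mul]
  rw [h5, norm_mul, Complex.norm_real, Real.norm_of_nonneg hd.le]
  field_simp
  ring

lemma limA' (s W : ℂ) (hW : 1 < ‖W‖) :
    ∀ᶠ d : ℝ in 𝓝[>] 0, AA s d W = 0 := by
  have h2 : ∀ᶠ d : ℝ in 𝓝[>] 0, 1 < ‖W + d * s‖ := by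
    have h3 : Tendsto (fun d : ℝ => ‖W + d * s‖) (𝓝 0) (𝓝 ‖W + (0 : ℝ) * s‖) :=
      Continuous.tendsto (by fun_prop) 0
    rw [ofReal_zero, zero_mul, add_zero] at h3
    exact (h3.mono_left nhdsWithin_le_nhds).eventually_const_lt hW
  filter_upwards [h2] with d h3
  unfold AA
  rw [max_eq_left (by nlinarith), max_eq_left (by nlinarith)]
  simp

lemma limG (κ W : ℂ) (ξ : ℝ) :
    Tendsto (fun d : ℝ => GG κ ξ d W) (𝓝[>] 0) (𝓝 (-2 * ξ * (conj κ / W).re)) := by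
  have h1 : Tendsto (fun d : ℝ => 2 * (κ * conj (-ξ / W + κ * d / W ^ 2)).re +
      d * ‖(-ξ / W + κ * d / W ^ 2)‖ ^ 2) (𝓝[>] 0)
      (𝓝 (-2 * ξ * (conj κ / W).re)) := by
    have : Tendsto (fun d : ℝ => 2 * (κ * conj (-ξ / W + κ * d / W ^ 2)).re +
      d * ‖(-ξ / W + κ * d / W ^ 2)‖ ^ 2) (𝓝 0)
        (𝓝 (2 * (κ * conj (-ξ / W + κ * (0 : ℝ) / W ^ 2)).re +
      0 * ‖(-ξ / W + κ * (0 : ℝ) / W ^ 2)‖ ^ 2)) := by
      apply Continuous.tendsto (f := fun d : ℝ => 2 * (κ * conj (-ξ / W + κ * d / W ^ 2)).re +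
        d * ‖(-ξ / W + κ * d / W ^ 2)‖ ^ 2)
      fun_prop
    have h3 : 2 * (κ * conj (-ξ / W + κ * (0 : ℝ) / W ^ 2)).re +
      0 * ‖(-ξ / W + κ * (0 : ℝ) / W ^ 2)‖ ^ 2 = -2 * ξ * (conj κ / W).re := by
      rw [ofReal_zero, mul_zero, zero_div, add_zero, zero_mul, add_zero]
      have h4 : (κ * conj (-(ξ : ℂ) / W)).re = (conj (κ * conj (-(ξ : ℂ) / W))).re :=
        (conj_re _).symm
      rw [h4, map_mul, conj_conj]
      have h5 : conj κ * (-(ξ : ℂ) / W) = ((-ξ : ℝ) : ℂ) * (conj κ / W) := by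
        push_cast
        ring
      rw [h5, re_ofReal_mul]
      ring
    rw [h3] at this
    exact this.mono_left nhdsWithin_le_nhds
  refine h1.congr' ?_
  filter_upwards [self_mem_nhdsWithin] with d h4
  have hd : 0 < d := h4
  unfold GG
  rw [nsq κ]
  have h5 : (κ * conj ((d : ℂ) * (-ξ / W + κ * d / W ^ 2))).re =
      d * (κ * conj (-ξ / W + κ * d / W ^ 2)).re := by
    rw [map_mul, conj_ofReal, mul_left_comm, re_ofReal_mul]
  rw [h5, norm_mul, Complex.norm_real, Real.norm_of_nonneg hd.le]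
  field_simp
  ring

lemma lim (κ s W : ℂ) (ξ : ℝ) (hW : W ≠ 0) (h1 : ‖W‖ ≠ 1) :
    Tendsto (fun d : ℝ => HH κ s ξ d W) (𝓝[>] 0) (𝓝 (LL κ s ξ W)) := by
  have hn : 0 < ‖W‖ := norm_pos_iff.2 hW
  have h2 : ∀ᶠ d : ℝ in 𝓝[>] 0, d ≤ ‖W‖ := by
    have : Tendsto (fun d : ℝ => d) (𝓝[>] 0) (𝓝 0) := nhdsWithin_le_nhds
    exact (this.eventually_lt_const hn).mono fun d hd => hd.le
  rcases lt_or_gt_of_ne h1 with h3 | h3
  · have h4 : LL κ s ξ W = (-2 * (W * conj s).re) * (-2 * ξ * (conj κ / W).re) := by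
      unfold LL
      rw [indicator_of_mem (by rw [mem_ball_zero_iff]; exact h3)]
      ring
    rw [h4]
    refine ((limA s W h3).mul (limG κ W ξ)).congr' ?_
    filter_upwards [h2] with d hd
    unfold HH
    rw [if_pos hd]
  · have h4 : LL κ s ξ W = 0 := by
      unfold LL
      rw [indicator_of_notMem (by rw [mem_ball_zero_iff]; linarith)]
    rw [h4]
    refine tendsto_const_nhds.congr' ?_
    filter_upwards [limA' s W h3] with d hd
    unfold HH
    rw [hd, zero_mul, ite_self]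

lemma measL (κ s : ℂ) (ξ : ℝ) : Measurable (LL κ s ξ) := by
  unfold LL
  apply Measurable.indicator _ measurableSet_ball
  fun_prop

lemma boundL (κ s : ℂ) (ξ : ℝ) (W : ℂ) : ‖LL κ s ξ W‖ ≤
    (ball (0 : ℂ) 1).indicator (fun _ => 4 * |ξ| * (‖s‖ * ‖κ‖)) W := by
  unfold LL
  by_cases h : W ∈ ball (0 : ℂ) 1
  · rw [indicator_of_mem h, indicator_of_mem h]
    rw [Real.norm_eq_abs, abs_mul, abs_mul, abs_mul]
    rw [show |(4 : ℝ)| = 4 by norm_num]
    apply mul_le_mul_of_nonneg_left _ (by positivity)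
    rcases eq_or_ne W 0 with rfl | hW
    · simp
      positivity
    · have h1 : |(W * conj s).re| ≤ ‖W‖ * ‖s‖ := by
        refine (abs_re_le_norm _).trans ?_
        rw [norm_mul, Complex.norm_conj]
      have h2 : |(conj κ / W).re| ≤ ‖κ‖ / ‖W‖ := by
        refine (abs_re_le_norm _).trans ?_
        rw [norm_div, Complex.norm_conj]
      calc _ ≤ (‖W‖ * ‖s‖) * (‖κ‖ / ‖W‖) :=
            mul_le_mul h1 h2 (abs_nonneg _) (by positivity)
        _ = ‖s‖ * ‖κ‖ := by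
            have : ‖W‖ ≠ 0 := norm_ne_zero_iff.2 hW
            field_simp
  · rw [indicator_of_notMem h, indicator_of_notMem h]
    simp

lemma intL (κ s : ℂ) (ξ : ℝ) : Integrable (LL κ s ξ) := by
  have h1 : Integrable ((ball (0 : ℂ) 1).indicator (fun _ => 4 * |ξ| * (‖s‖ * ‖κ‖))) := by
    rw [integrable_indicator_iff measurableSet_ball]
    exact integrableOn_const (measure_ball_lt_top.ne)
  exact Integrable.mono' h1 (measL κ s ξ).aestronglyMeasurable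
    (Eventually.of_forall fun W => boundL κ s ξ W)

lemma rotL (κ s : ℂ) (ξ : ℝ) : ∫ W, LL κ s ξ (I * W) = ∫ W, LL κ s ξ W := by
  have hI : I ∈ Submonoid.unitSphere ℂ := by
    simp [Submonoid.unitSphere]
  have h := (rotation (⟨I, hI⟩ : Circle)).measurePreserving
  have h2 := h.integral_comp (rotation (⟨I, hI⟩ : Circle)).toHomeomorph.measurableEmbedding
    (LL κ s ξ)
  rw [← h2]
  rfl

lemma sumL (κ s : ℂ) (ξ : ℝ) : ∀ᵐ W : ℂ, LL κ s ξ W + LL κ s ξ (I * W) =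
    (ball (0 : ℂ) 1).indicator (fun _ => 4 * ξ * (κ * s).re) W := by
  have h0 : ∀ᵐ W : ℂ, W ≠ 0 := by
    have : volume ({0} : Set ℂ) = 0 := measure_singleton 0
    rw [← compl_compl ({0} : Set ℂ)] at this
    exact (measure_eq_zero_iff_ae_notMem.1 (measure_singleton (0 : ℂ))).mono fun W hW => hW
  filter_upwards [h0] with W hW
  unfold LL
  by_cases h : W ∈ ball (0 : ℂ) 1
  · have h' : I * W ∈ ball (0 : ℂ) 1 := by
      rw [mem_ball_zero_iff] at h ⊢
      rw [norm_mul, norm_I, one_mul]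
      exact h
    rw [indicator_of_mem h, indicator_of_mem h, indicator_of_mem h']
    have e1 : (I * W * conj s).re = -(W * conj s).im := by
      rw [mul_assoc, I_mul_re]
    have e2 : (conj κ / (I * W)).re = (conj κ / W).im := by
      have : conj κ / (I * W) = -(I * (conj κ / W)) := by
        field_simp
        rw [I_sq]
        ring
      rw [this, neg_re, I_mul_re, neg_neg]
    rw [e1, e2]
    have e3 : (W * conj s).re * (conj κ / W).re - (W * conj s).im * (conj κ / W).im =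
        (κ * s).re := by
      rw [← mul_re]
      have : W * conj s * (conj κ / W) = conj (κ * s) := by
        rw [map_mul]
        field_simp
      rw [this, conj_re]
    rw [← e3]
    ring
  · have h' : I * W ∉ ball (0 : ℂ) 1 := by
      intro hc
      apply h
      rw [mem_ball_zero_iff] at hc ⊢
      rwa [norm_mul, norm_I, one_mul] at hc
    rw [indicator_of_notMem h, indicator_of_notMem h, indicator_of_notMem h', add_zero]

lemma integralL (κ s : ℂ) (ξ : ℝ) : ∫ W, LL κ s ξ W = 2 * π * ξ * (κ * s).re := by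
  have hi := intL κ s ξ
  have hi2 : Integrable (fun W => LL κ s ξ (I * W)) := by
    have hI : I ∈ Submonoid.unitSphere ℂ := by
      simp [Submonoid.unitSphere]
    have h := (rotation (⟨I, hI⟩ : Circle)).measurePreserving
    exact h.integrable_comp_of_integrable hi
  have h1 : ∫ W, (LL κ s ξ W + LL κ s ξ (I * W)) = 4 * ξ * (κ * s).re * π := by
    rw [integral_congr_ae (sumL κ s ξ), integral_indicator measurableSet_ball,
      setIntegral_const, measureReal_def, Complex.volume_ball]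
    simp
    ring
  rw [integral_add hi hi2, rotL] at h1
  linarith

end UPCM

open UPCM in
theorem specUPC : SpecUPC := by
  intro κ s ξ
  rw [← integralL κ s ξ]
  have h1 : ∀ᶠ d : ℝ in 𝓝[>] 0, ∫ W, HH κ s ξ d W =
      ∫ Z in {Z : ℂ | 1 ≤ ‖Z‖}, (wR d s Z - wR d 0 Z) * (NN κ ξ Z - ‖κ‖ ^ 2) := by
    filter_upwards [self_mem_nhdsWithin] with d hd
    exact (scale κ s ξ d hd).symm
  refine Tendsto.congr' h1 ?_
  apply tendsto_integral_filter_of_dominated_convergence ((closedBall (0 : ℂ) 2).indicator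
      (fun _ => (2 * ‖s‖ + ‖s‖ ^ 2) * ((3 * ‖κ‖ + |ξ|) * (|ξ| + ‖κ‖))))
  · exact Eventually.of_forall fun d => (measH κ s ξ d).aestronglyMeasurable
  · have h2 : ∀ᶠ d : ℝ in 𝓝[>] 0, d * ‖s‖ < 1 := by
      have h3 : Tendsto (fun d : ℝ => d * ‖s‖) (𝓝 0) (𝓝 (0 * ‖s‖)) :=
        Continuous.tendsto (by fun_prop) 0
      rw [zero_mul] at h3
      exact (h3.mono_left nhdsWithin_le_nhds).eventually_lt_const one_pos
    filter_upwards [h2, self_mem_nhdsWithin] with d h3 hd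
    exact Eventually.of_forall fun W => bound κ s ξ d hd h3.le W
  · rw [integrable_indicator_iff measurableSet_closedBall]
    exact integrableOn_const (measure_closedBall_lt_top.ne)
  · have h0 : ∀ᵐ W : ℂ, W ≠ 0 :=
      (measure_eq_zero_iff_ae_notMem.1 (measure_singleton (0 : ℂ))).mono fun W hW => hW
    have h1 : ∀ᵐ W : ℂ, W ∉ sphere (0 : ℂ) 1 := by
      rw [← measure_eq_zero_iff_ae_notMem]
      exact Measure.addHaar_sphere _ _ _
    filter_upwards [h0, h1] with W hW hW1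
    apply lim κ s W ξ hW
    intro h
    exact hW1 (by rw [mem_sphere_zero_iff_norm]; exact h)

end

end Pool.Agent.Lib.MP250511
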