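import Pool.Agent.Lib.MP_250511_an.Spec

set_option autoImplicit false

namespace Pool.Agent.Lib.MP250511

open Complex Metric Set MeasureTheory Filter Topology
open scoped Real ENNReal

namespace UPPM

theorem measA : MeasurableSet {Z : ℂ | 1 ≤ ‖Z‖} :=
  measurableSet_le measurable_const measurable_norm

theorem wR_nonneg (d : ℝ) (s Z : ℂ) : 0 ≤ wR d s Z := le_max_left _ _

theorem wR_cont (d : ℝ) (s : ℂ) : Continuous (wR d s) := by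
  unfold wR
  fun_prop

theorem wR_supp (d : ℝ) (hd : 0 < d) (s : ℂ) : HasCompactSupport (wR d s) := by
  apply HasCompactSupport.of_support_subset_isCompact (isCompact_closedBall (-s) (1 / d))
  intro Z hZ
  rw [Function.mem_support] at hZ
  rw [mem_closedBall, dist_eq_norm, sub_neg_eq_add]
  by_contra hcon
  push Not at hcon
  apply hZ
  unfold wR
  apply max_eq_left
  have h1 : 1 < d * ‖Z + s‖ := by
    rw [div_lt_iff₀ hd] at hcon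
    linarith [mul_comm (‖Z + s‖) d]
  have h2 : d ^ 2 * ‖Z + s‖ ^ 2 = (d * ‖Z + s‖) ^ 2 := by ring
  rw [h2]
  nlinarith

theorem wR_int (d : ℝ) (hd : 0 < d) (s : ℂ) : IntegrableOn (wR d s) {Z : ℂ | 1 ≤ ‖Z‖} :=
  ((wR_cont d s).integrable_of_hasCompactSupport (wR_supp d hd s)).integrableOn

theorem NN_meas (κ : ℂ) (ξ : ℝ) : Measurable (NN κ ξ) := by
  unfold NN
  fun_prop

theorem NN_nonneg (κ : ℂ) (ξ : ℝ) (Z : ℂ) : 0 ≤ NN κ ξ Z := by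
  unfold NN
  positivity

theorem NN_bd (κ : ℂ) (ξ : ℝ) (Z : ℂ) (hZ : 1 ≤ ‖Z‖) :
    NN κ ξ Z ≤ (‖κ‖ + |ξ| + ‖κ‖) ^ 2 := by
  unfold NN
  have h0 : 0 < ‖Z‖ := by linarith
  have h1 : ‖κ - ξ / Z + κ / Z ^ 2‖ ≤ ‖κ‖ + |ξ| + ‖κ‖ := by
    refine (norm_add_le _ _).trans ?_
    have a1 : ‖κ - ξ / Z‖ ≤ ‖κ‖ + |ξ| := by
      refine (norm_sub_le _ _).trans ?_
      have : ‖(ξ : ℂ) / Z‖ ≤ |ξ| := by
        rw [norm_div, Complex.norm_real, Real.norm_eq_abs]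
        exact div_le_self (abs_nonneg _) hZ
      linarith
    have a2 : ‖κ / Z ^ 2‖ ≤ ‖κ‖ := by
      rw [norm_div, norm_pow]
      exact div_le_self (norm_nonneg _) (one_le_pow₀ hZ)
    linarith
  exact pow_le_pow_left₀ (norm_nonneg _) h1 2

theorem wRNN_int (d : ℝ) (hd : 0 < d) (s κ : ℂ) (ξ : ℝ) :
    IntegrableOn (fun Z => wR d s Z * NN κ ξ Z) {Z : ℂ | 1 ≤ ‖Z‖} := by
  have h := (wR_int d hd s).const_mul ((‖κ‖ + |ξ| + ‖κ‖) ^ 2)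
  refine Integrable.mono' h ?_ ?_
  · exact ((wR_cont d s).measurable.mul (NN_meas κ ξ)).aestronglyMeasurable
  · filter_upwards [ae_restrict_mem measA] with Z hZ
    rw [Real.norm_eq_abs, abs_of_nonneg (mul_nonneg (wR_nonneg d s Z) (NN_nonneg κ ξ Z))]
    rw [mul_comm]
    exact mul_le_mul_of_nonneg_right (NN_bd κ ξ Z hZ) (wR_nonneg d s Z)

theorem split (d : ℝ) (hd : 0 < d) (s κ : ℂ) (ξ : ℝ) :
    ∫ Z in {Z : ℂ | 1 ≤ ‖Z‖}, wR d s Z * NN κ ξ Z =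
      (∫ Z in {Z : ℂ | 1 ≤ ‖Z‖}, wR d 0 Z * NN κ ξ Z) +
      ‖κ‖ ^ 2 * (∫ Z in {Z : ℂ | 1 ≤ ‖Z‖}, (wR d s Z - wR d 0 Z)) +
      ∫ Z in {Z : ℂ | 1 ≤ ‖Z‖}, (wR d s Z - wR d 0 Z) * (NN κ ξ Z - ‖κ‖ ^ 2) := by
  have i1 := wRNN_int d hd s κ ξ
  have i2 := wRNN_int d hd 0 κ ξ
  have i3 := wR_int d hd s
  have i4 := wR_int d hd 0
  have i5 : IntegrableOn (fun Z => ‖κ‖ ^ 2 * (wR d s Z - wR d 0 Z)) {Z : ℂ | 1 ≤ ‖Z‖} :=
    (i3.sub i4).const_mul _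
  have i6 : IntegrableOn (fun Z => (wR d s Z - wR d 0 Z) * (NN κ ξ Z - ‖κ‖ ^ 2))
      {Z : ℂ | 1 ≤ ‖Z‖} := by
    have := (i1.sub i2).sub i5
    refine this.congr ?_
    filter_upwards with Z
    simp only [Pi.sub_apply]
    ring
  have i7 : IntegrableOn (fun Z => wR d 0 Z * NN κ ξ Z + ‖κ‖ ^ 2 * (wR d s Z - wR d 0 Z))
      {Z : ℂ | 1 ≤ ‖Z‖} := i2.add i5
  rw [← integral_const_mul, ← integral_add i2 i5]
  rw [← integral_add i7 i6]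
  apply integral_congr_ae
  filter_upwards with Z
  ring

theorem lint (d : ℝ) (hd : 0 < d) (s κ : ℂ) (ξ : ℝ) :
    ∫⁻ Z in {Z : ℂ | 1 ≤ ‖Z‖}, Wt d s Z * ENNReal.ofReal (NN κ ξ Z) =
      ENNReal.ofReal (∫ Z in {Z : ℂ | 1 ≤ ‖Z‖}, wR d s Z * NN κ ξ Z) := by
  rw [ofReal_integral_eq_lintegral_ofReal (wRNN_int d hd s κ ξ)
    (Eventually.of_forall fun Z => mul_nonneg (wR_nonneg d s Z) (NN_nonneg κ ξ Z))]
  apply lintegral_congr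
  intro Z
  rw [ENNReal.ofReal_mul (wR_nonneg d s Z)]
  congr 1
  unfold Wt wR
  rw [ENNReal.ofReal_max]
  simp

end UPPM

open UPPM in
theorem specUPP (hUPA : SpecUPA) (hUPB : SpecUPB) (hUPC : SpecUPC) : SpecUPP := by
  intro κ s ξ η hη
  have hη3 : 0 < η / 3 := by positivity
  have h1 := hUPA κ ξ (η / 3) hη3
  have h2 := hUPB s
  have h3 := hUPC κ s ξ
  have h2' : ∀ᶠ d in 𝓝[>] (0 : ℝ),
      ‖κ‖ ^ 2 * (∫ Z in {Z : ℂ | 1 ≤ ‖Z‖}, (wR d s Z - wR d 0 Z)) < η / 3 := by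
    have := h2.const_mul (‖κ‖ ^ 2)
    rw [mul_zero] at this
    exact this.eventually (gt_mem_nhds hη3)
  have h3' : ∀ᶠ d in 𝓝[>] (0 : ℝ),
      ∫ Z in {Z : ℂ | 1 ≤ ‖Z‖}, (wR d s Z - wR d 0 Z) * (NN κ ξ Z - ‖κ‖ ^ 2) <
        2 * π * ξ * (κ * s).re + η / 3 :=
    h3.eventually (gt_mem_nhds (by linarith))
  filter_upwards [h1, h2', h3', self_mem_nhdsWithin] with d a1 a2 a3 a4
  have hd : 0 < d := a4
  rw [lint d hd s κ ξ]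
  apply ENNReal.ofReal_le_ofReal
  rw [split d hd s κ ξ]
  have e : π * (‖κ‖ ^ 2 / (2 * d ^ 2) + 2 * ξ ^ 2 * Real.log (1 / d) - ξ ^ 2
      + 2 * ξ * (κ * s).re) + η =
      (π * (‖κ‖ ^ 2 / (2 * d ^ 2) + 2 * ξ ^ 2 * Real.log (1 / d) - ξ ^ 2) + η / 3) + η / 3 +
        (2 * π * ξ * (κ * s).re + η / 3) := by ring
  rw [e]
  linarith

end Pool.Agent.Lib.MP250511
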